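import Pool.Agent.Y149.PK.Defs

/-!
# Products with the curves `y² = x^p + k`: definitions

`X` is a smooth projective variety over `ℚ` and `C_i`, `i ∈ ι`, are the smooth projective curves over
`ℚ` with the affine equations `y² = x^{p_i} + k_i`, `p_i` an odd prime and `k_i` an integer prime to
`p_i`.  The genus of `C_i` is `(p_i - 1) / 2`, it has one point at infinity, and its Jacobian has
complex multiplication by the field of the `p_i`-th roots of unity over the algebraic closure.  We
study the `L`-functions of the cohomology groups of the products `X × C_{l_1} × ⋯ × C_{l_k}` at the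
edge.  The definitions of `Variety`, `IsEuler`, `HasOrder`, `size`, `frobProd`, `evenPart` and `QQ`
are in `Pool.Agent.Y149.PK.Defs`, that of `LFun` is in `Pool.Agent.Y149.CM.Defs`.
-/

set_option autoImplicit false

namespace Pool.Agent.NH35.HD

open Filter Topology Polynomial
open Pool.Agent.Y149.PK (Variety IsEuler HasOrder frobProd evenPart QQ)

/-- The number of the solutions of `y² = x^p + k` with coordinates in `κ`. -/
noncomputable def pts (p : ℕ) (k : ℤ) (κ : Type) [CommRing κ] : ℕ :=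
  Nat.card {z : κ × κ // z.2 ^ 2 = z.1 ^ p + (k : κ)}

/-- The multisets `γ c` are those of the eigenvalues of the geometric Frobenius at the prime `ℓ` on
the cohomology groups `H^c` of the smooth projective curve with the affine equation `y² = x^p + k` and
one point at infinity: `H⁰` and `H²` have the eigenvalues `1` and `ℓ`, and the `p - 1` eigenvalues `α`
on `H¹` have absolute value `√ℓ` and count the points: `y² = x^p + k` has `ℓ^e - ∑ α^e` solutions in
every field with `ℓ^e` elements.  By the theorem of Weil such multisets exist for all primes `ℓ` which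
do not divide `2 p k`, and they are unique. -/
structure IsFrobC (p : ℕ) (k : ℤ) (ℓ : Nat.Primes) (γ : ℕ → Multiset ℂ) : Prop where
  zero : γ 0 = {1}
  two : γ 2 = {((ℓ : ℕ) : ℂ)}
  vanish : ∀ c, 2 < c → γ c = 0
  card : Multiset.card (γ 1) = p - 1
  weight : ∀ α ∈ γ 1, ‖α‖ = Real.sqrt (ℓ : ℕ)
  count : ∀ (κ : Type) [Field κ] [Finite κ] (e : ℕ), Nat.card κ = (ℓ : ℕ) ^ e →
    (pts p k κ : ℂ) = ((ℓ : ℕ) : ℂ) ^ e - ((γ 1).map fun α => α ^ e).sum

section
variable {ι : Type}

/-- The `p_i` are odd primes and `p_i` does not divide `k_i`. -/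
structure IsCurveFamily (p : ι → ℕ) (k : ι → ℤ) : Prop where
  prime : ∀ i, (p i).Prime
  odd : ∀ i, p i ≠ 2
  ndvd : ∀ i, ¬ (p i : ℤ) ∣ k i

/-- `B l n` are the Euler factors of `L(H^n(X × C_{l_1} × ⋯ × C_{l_k}), s)`, for every list `l` of
indices and every `n`, where `C_i` is the smooth projective curve `y² = x^{p_i} + k_i`.  For the empty
list these are the Euler factors of `L(H^n(X), s)`. -/
def IsCurveSystem (X : Variety) (p : ι → ℕ) (k : ι → ℤ)
    (B : List ι → ℕ → Nat.Primes → ℂ[X]) : Prop :=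
  ∃ γ : ι → Nat.Primes → ℕ → Multiset ℂ,
    (∀ i, ∀ᶠ ℓ : Nat.Primes in cofinite, IsFrobC (p i) (k i) ℓ (γ i ℓ)) ∧
    ∀ (l : List ι) (n : ℕ),
      IsEuler n (fun ℓ => frobProd (X.frob ℓ) (fun i => γ i ℓ) l n) (B l n)

/-- The Betti numbers `1`, `p - 1`, `1` of the curve `y² = x^p + k`. -/
def bettiC (p c : ℕ) : ℕ := if c = 0 ∨ c = 2 then 1 else if c = 1 then p - 1 else 0

/-- `1`, `1 / √(p - 1)`, `1` -/
noncomputable def weightC (p c : ℕ) : ℝ :=
  if c = 0 ∨ c = 2 then 1 else if c = 1 then 1 / Real.sqrt ((p : ℝ) - 1) else 0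

/-- The dimension of `H^n(X × C_{l_1} × ⋯ × C_{l_k})`, `b` the Betti numbers of `X`: the coefficient
of `T^n` in `b(T) ∏_{i ∈ l} (1 + (p_i - 1) T + T²)`. -/
def dimC (b : ℕ → ℕ) (p : ι → ℕ) (l : List ι) (n : ℕ) : ℕ :=
  QQ b (fun i c => bettiC (p i) c) l n

/-- The coefficient of `T^n` in
`b(T) ∏_{i ∈ l} (1 + T / √(p_i - 1) + T²) - b(T) (1 + T²)^{|l|}`, `b(T) = ∑ b_c T^c`.  For a list of
one index `i` this is `b_{n-1} / √(p_i - 1)`. -/
noncomputable def err (b : ℕ → ℕ) (p : ι → ℕ) (l : List ι) (n : ℕ) : ℝ :=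
  QQ (fun c => (b c : ℝ)) (fun i c => weightC (p i) c) l n -
    evenPart (fun c => (b c : ℝ)) l.length n

end

end Pool.Agent.NH35.HD
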