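import Pool.Agent.NH35.HD.Crt
import Pool.Agent.NH35.HC.Cnt
import Pool.Agent.NH35.HD.Defs

/-! The number of points of the curve `y² = x^p + k`. -/

set_option autoImplicit false
set_option linter.unusedSectionVars false
open NumberField NumberField.InfinitePlace IsDedekindDomain
open Module nonZeroDivisors Ideal IsCyclotomicExtension
open scoped ComplexConjugate

namespace Pool.Agent.NH35.HD
open Pool.Agent.NH35.HC (sum_units)

theorem pts_equiv (p : ℕ) (k : ℤ) {κ κ' : Type} [CommRing κ] [CommRing κ'] (e : κ ≃+* κ') :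
    pts p k κ = pts p k κ' := by
  refine Nat.card_congr
    { toFun := fun z => ⟨(e z.1.1, e z.1.2), by
        change e z.1.2 ^ 2 = e z.1.1 ^ p + (k : κ')
        rw [← map_pow, z.2, map_add, map_pow, map_intCast]⟩
      invFun := fun z => ⟨(e.symm z.1.1, e.symm z.1.2), by
        change e.symm z.1.2 ^ 2 = e.symm z.1.1 ^ p + (k : κ)
        rw [← map_pow, z.2, map_add, map_pow, map_intCast]⟩
      left_inv := fun z => by simp
      right_inv := fun z => by simp }

theorem pts_eq_sum (p : ℕ) (k : ℤ) (κ : Type) [CommRing κ] [Fintype κ] :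
    pts p k κ = ∑ y : κ, Nat.card {x : κ // y ^ 2 - (k : κ) = x ^ p} := by
  classical
  unfold pts
  have e : {z : κ × κ // z.2 ^ 2 = z.1 ^ p + (k : κ)} ≃
      Σ y : κ, {x : κ // y ^ 2 - (k : κ) = x ^ p} :=
    { toFun := fun z => ⟨z.1.2, z.1.1, by rw [z.2]; ring⟩
      invFun := fun z => ⟨(z.2.1, z.1), by have := z.2.2; linear_combination this⟩
      left_inv := fun z => rfl
      right_inv := fun z => rfl }
  rw [Nat.card_congr e, Nat.card_sigma]

section
variable {p : ℕ} [Fact p.Prime] {K : Type} [Field K] [NumberField K]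
  {F : Type} [Field F] [Fintype F] {ζ : 𝓞 K} (hζ : IsPrimitiveRoot ζ p) {χ : MulChar F (𝓞 K)}
  {π : 𝓞 K →+* F}

include hζ

theorem exists_root (hpF : ((p : ℕ) : F) ≠ 0) (hχ : Rc p π χ) {w : F} (hw : w ≠ 0) :
    (∃ α : F, α ^ p = w) ↔ χ w = 1 := by
  classical
  have hpr : p.Prime := Fact.out
  constructor
  · rintro ⟨α, rfl⟩
    have hα : α ≠ 0 := by
      rintro rfl
      exact hw (zero_pow hpr.ne_zero)
    rw [map_pow, chi_pow hχ.pow hα]
  · intro h
    have h1 := hχ.red w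
    rw [h, map_one] at h1
    have hkp : (Fintype.card F - 1) / p * p = Fintype.card F - 1 :=
      Nat.div_mul_cancel (p_dvd hζ π hpF)
    have hcard : 1 < Fintype.card F := Fintype.one_lt_card
    set c := (Fintype.card F - 1) / p with hc
    have hc0 : 0 < c := by
      rcases Nat.eq_zero_or_pos c with h | h
      · rw [h, zero_mul] at hkp
        omega
      · exact h
    obtain ⟨g, hg⟩ := IsCyclic.exists_generator (α := Fˣ)
    obtain ⟨k, hk⟩ := (mem_powers_iff_mem_zpowers.2 (hg (Units.mk0 w hw)))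
    have hk' : g ^ k = Units.mk0 w hw := hk
    have h2 : g ^ (k * c) = 1 := by
      rw [pow_mul, hk']
      apply Units.ext
      rw [Units.val_pow_eq_pow_val, Units.val_mk0, Units.val_one]
      exact h1.symm
    have h3 := orderOf_dvd_of_pow_eq_one h2
    rw [orderOf_eq_card_of_forall_mem_zpowers hg, Nat.card_eq_fintype_card, Fintype.card_units,
      ← hkp, mul_comm c p] at h3
    obtain ⟨l, rfl⟩ := Nat.dvd_of_mul_dvd_mul_right hc0 h3
    refine ⟨(g : F) ^ l, ?_⟩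
    have h4 := congrArg Units.val hk'
    rw [Units.val_mk0, Units.val_pow_eq_pow_val] at h4
    rw [← h4, ← pow_mul, mul_comm]

theorem count_fib (hpF : ((p : ℕ) : F) ≠ 0) (hχ : Rc p π χ) (w : F) :
    ((Nat.card {x : F // w = x ^ p} : ℕ) : 𝓞 K) =
      1 + ∑ u : (ZMod p)ˣ, χ w ^ (u : ZMod p).val := by
  classical
  have hpr : p.Prime := Fact.out
  by_cases hw : w = 0
  · subst hw
    have h1 : ∑ u : (ZMod p)ˣ, χ (0 : F) ^ (u : ZMod p).val = 0 := by
      refine Finset.sum_eq_zero fun u _ => ?_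
      rw [MulChar.map_zero, zero_pow]
      rw [Ne, ZMod.val_eq_zero]
      exact u.ne_zero
    rw [h1, add_zero]
    have h2 : Nat.card {x : F // (0 : F) = x ^ p} = 1 := by
      rw [Nat.card_eq_one_iff_unique]
      refine ⟨⟨fun a b => Subtype.ext ?_⟩, ⟨⟨0, by rw [zero_pow hpr.ne_zero]⟩⟩⟩
      have ha : a.1 = 0 := pow_eq_zero_iff hpr.ne_zero |>.1 a.2.symm
      have hb : b.1 = 0 := pow_eq_zero_iff hpr.ne_zero |>.1 b.2.symm
      rw [ha, hb]
    rw [h2, Nat.cast_one]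
  · have h3 := map_zt hζ π hpF
    have h1 : Nat.card {x : F // w = x ^ p} = Multiset.card (Polynomial.nthRoots p w) := by
      have h4 : {x : F | w = x ^ p} = ((Polynomial.nthRoots p w).toFinset : Set F) := by
        ext x
        rw [Finset.mem_coe, Multiset.mem_toFinset, Polynomial.mem_nthRoots hpr.pos]
        exact eq_comm
      have h5 : Nat.card {x : F // w = x ^ p} = ({x : F | w = x ^ p}).ncard := rfl
      rw [h5, h4, Set.ncard_coe_finset, Multiset.toFinset_card_of_nodup (h3.nthRoots_nodup hw)]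
    have h6 := sum_units (p := p) (fun a => χ w ^ a)
    simp only [pow_zero] at h6
    rw [h1, add_comm, h6, h3.card_nthRoots w]
    by_cases hc : χ w = 1
    · rw [if_pos ((exists_root hζ hpF hχ hw).2 hc), hc]
      simp
    · rw [if_neg fun h => hc ((exists_root hζ hpF hχ hw).1 h)]
      have h7 := geom_sum_mul (χ w) p
      rw [chi_pow hχ.pow hw, sub_self] at h7
      rw [(mul_eq_zero.1 h7).resolve_right (sub_ne_zero.2 hc), Nat.cast_zero]

omit hζ

theorem chi_neg (hp : p ≠ 2) (hχ : χ ^ p = 1) : χ (-1) = 1 := by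
  have hpr : p.Prime := Fact.out
  obtain ⟨r, hr⟩ := hpr.odd_of_ne_two hp
  have h1 := chi_pow hχ (y := (-1 : F)) (by simp)
  have h2 : χ (-1) ^ 2 = 1 := by rw [← map_pow]; simp
  rw [hr, pow_succ, pow_mul, h2, one_pow, one_mul] at h1
  exact h1

theorem sum_sq [DecidableEq F] (h2 : (2 : F) ≠ 0) (f : F → 𝓞 K) :
    ∑ y : F, f (y ^ 2) = ∑ w : F, (1 + ((quadraticChar F w : ℤ) : 𝓞 K)) * f w := by
  have hc : ringChar F ≠ 2 := by
    intro h
    apply h2
    have := ringChar.Nat.cast_ringChar (R := F)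
    rw [h] at this
    exact_mod_cast this
  rw [← Finset.sum_fiberwise Finset.univ (fun y : F => y ^ 2)]
  refine Finset.sum_congr rfl fun w _ => ?_
  have e1 : ∑ y ∈ Finset.univ.filter (fun y : F => y ^ 2 = w), f (y ^ 2) =
      ∑ y ∈ Finset.univ.filter (fun y : F => y ^ 2 = w), f w :=
    Finset.sum_congr rfl fun y hy => by rw [(Finset.mem_filter.1 hy).2]
  rw [e1, Finset.sum_const, nsmul_eq_mul]
  congr 1
  have h3 := quadraticChar_card_sqrts hc w
  have h4 : {x : F | x ^ 2 = w}.toFinset = Finset.univ.filter (fun y : F => y ^ 2 = w) := by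
    ext x
    simp
  rw [h4] at h3
  have h5 := congrArg (Int.cast : ℤ → 𝓞 K) h3
  push_cast at h5
  rw [h5]
  ring

variable (χ) in
/-- the conjugates of the sum -/
noncomputable def GG (k : ℤ) (t : (ZMod p)ˣ) : 𝓞 K :=
  χ (4 * (k : F)) ^ (t : ZMod p).val *
    -∑ x : F, χ x ^ (t : ZMod p).val * χ (1 - x) ^ (t : ZMod p).val

include hζ

theorem sum_zero (hpF : ((p : ℕ) : F) ≠ 0) (hχ : Rc p π χ) (t : (ZMod p)ˣ) (c : F) :
    ∑ w : F, χ (w - c) ^ (t : ZMod p).val = 0 := by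
  classical
  have hpr : p.Prime := Fact.out
  have h0 : (t : ZMod p).val ≠ 0 := by
    rw [Ne, ZMod.val_eq_zero]
    exact t.ne_zero
  have e1 : ∑ w : F, χ (w - c) ^ (t : ZMod p).val = ∑ w : F, (χ ^ (t : ZMod p).val) w := by
    refine Fintype.sum_equiv (Equiv.subRight c) _ _ fun w => ?_
    rw [Equiv.subRight_apply, MulChar.pow_apply' _ h0]
  rw [e1]
  apply MulChar.sum_eq_zero_of_ne_one
  refine chi_pow_ne_one hζ π hpF hχ.pow hχ.red fun h => ?_
  have h1 := Nat.le_of_dvd (Nat.pos_of_ne_zero h0) h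
  have h2 := ZMod.val_lt (t : ZMod p)
  omega

theorem sum_S [DecidableEq F] (hp : p ≠ 2) (hpF : ((p : ℕ) : F) ≠ 0) (h2 : (2 : F) ≠ 0)
    (hχ : Rc p π χ) {k : ℤ} (hk : (k : F) ≠ 0) (t : (ZMod p)ˣ) :
    ∑ y : F, χ (y ^ 2 - (k : F)) ^ (t : ZMod p).val =
      -(((quadraticChar F (k : F) : ℤ) : 𝓞 K) * GG χ k t) := by
  classical
  have key : ∀ c : F, ∑ y : F, χ (y ^ 2 - c) ^ (t : ZMod p).val =
      ∑ w : F, ((quadraticChar F w : ℤ) : 𝓞 K) * χ (w - c) ^ (t : ZMod p).val := by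
    intro c
    rw [sum_sq h2 fun w => χ (w - c) ^ (t : ZMod p).val]
    simp only [add_mul, one_mul]
    rw [Finset.sum_add_distrib, sum_zero hζ hpF hχ, zero_add]
  have h3 : ∑ w : F, ((quadraticChar F w : ℤ) : 𝓞 K) * χ (w - (k : F)) ^ (t : ZMod p).val =
      ((quadraticChar F (k : F) : ℤ) : 𝓞 K) * χ (k : F) ^ (t : ZMod p).val *
      ∑ w : F, ((quadraticChar F w : ℤ) : 𝓞 K) * χ (w - 1) ^ (t : ZMod p).val := by
    rw [Finset.mul_sum]
    symm
    refine Fintype.sum_equiv (Equiv.mulLeft₀ (k : F) hk) _ _ fun w => ?_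
    rw [show Equiv.mulLeft₀ (k : F) hk w = (k : F) * w from rfl]
    have e : (k : F) * w - (k : F) = (k : F) * (w - 1) := by ring
    rw [e, map_mul, map_mul, mul_pow]
    push_cast
    ring
  have h4 : ∑ y : F, χ (y ^ 2 - 1) ^ (t : ZMod p).val =
      χ 4 ^ (t : ZMod p).val * ∑ x : F, χ x ^ (t : ZMod p).val * χ (1 - x) ^ (t : ZMod p).val := by
    rw [Finset.mul_sum]
    symm
    refine Fintype.sum_equiv ((Equiv.mulLeft₀ (2 : F) h2).trans (Equiv.subRight 1)) _ _
      fun x => ?_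
    rw [Equiv.trans_apply, show Equiv.mulLeft₀ (2 : F) h2 x = 2 * x from rfl, Equiv.subRight_apply]
    have e : (2 * x - 1) ^ 2 - 1 = (-1) * (4 * (x * (1 - x))) := by ring
    rw [e, map_mul, chi_neg hp hχ.pow, one_mul, map_mul, map_mul, mul_pow, mul_pow]
  rw [key, h3, ← key, h4]
  unfold GG
  rw [map_mul, mul_pow]
  ring

/-- **The number of points.** -/
theorem count [DecidableEq F] (hp : p ≠ 2) (hpF : ((p : ℕ) : F) ≠ 0) (h2 : (2 : F) ≠ 0)
    (hχ : Rc p π χ) {k : ℤ} (hk : (k : F) ≠ 0) :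
    ((Fintype.card F : ℕ) : 𝓞 K) - ((pts p k F : ℕ) : 𝓞 K) =
      ((quadraticChar F (k : F) : ℤ) : 𝓞 K) * ∑ t : (ZMod p)ˣ, GG χ k t := by
  rw [pts_eq_sum]
  push_cast
  simp only [count_fib hζ hpF hχ]
  rw [Finset.sum_add_distrib, Finset.sum_const, Finset.card_univ, Finset.sum_comm]
  simp only [sum_S hζ hp hpF h2 hχ hk]
  rw [Finset.sum_neg_distrib, Finset.mul_sum]
  simp

end

section
variable {m : ℕ} [NeZero m] {p : ℕ} [Fact p.Prime] [hpm : Fact (p ∣ m)]
  {K : Type} [Field K] [NumberField K] [IsCyclotomicExtension {m} ℚ K]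
  {F : Type} [Field F] [Fintype F] {χ : MulChar F (𝓞 K)} {π : 𝓞 K →+* F}

theorem sa_GG (hχ : Rc p π χ) (k : ℤ) (u : (ZMod m)ˣ) :
    sa m K u (χ (4 * (k : F)) * jj 1 1 χ) = GG χ k (om m p u) := by
  have e : rs m p 1 u = (om m p u : ZMod p).val := by
    unfold rs
    rw [Nat.cast_one, one_mul]
  rw [map_mul, sa_chi hχ.pow, sa_jj hχ.pow one_ndvd one_ndvd, e]
  rfl

theorem jj_comp (σ : 𝓞 K →+* 𝓞 K) (a b : ℕ) :
    jj a b (χ.ringHomComp σ) = σ (jj a b χ) := by
  unfold jj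
  rw [map_neg, ← jacobiSum_ringHomComp, ← MulChar.ringHomComp_pow, ← MulChar.ringHomComp_pow]

theorem Pl.sa {I : Ideal (𝓞 K)} (h : Pl m π I) (u : (ZMod m)ˣ) :
    Pl m (π.comp (HD.sa m K u⁻¹ : 𝓞 K →+* 𝓞 K)) (I.map (HD.sa m K u)) where
  mF := h.mF
  pr := h.pr
  ker := fun x => by
    rw [mem_map_sa, h.ker]
    rfl
  ne := by
    intro h1
    apply h.ne
    apply map_sa_inj (m := m) u
    rw [h1, Ideal.map_bot]
  max := by
    have := h.max
    exact Ideal.map_isMaximal_of_equiv (HD.sa m K u)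
  nm := by rw [absNorm_map_sa, h.nm]

theorem Rc.sa (h : Rc p π χ) (u : (ZMod m)ˣ) :
    Rc p (π.comp (HD.sa m K u⁻¹ : 𝓞 K →+* 𝓞 K))
      (χ.ringHomComp (HD.sa m K u : 𝓞 K →+* 𝓞 K)) where
  pow := by rw [MulChar.ringHomComp_pow, h.pow, MulChar.ringHomComp_one]
  red := fun y => by
    rw [← h.red y]
    change π (HD.sa m K u⁻¹ (HD.sa m K u (χ y))) = π (χ y)
    rw [sa_inv]

end

end Pool.Agent.NH35.HD
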