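import Pool.Agent.NH35.HD.Kum
import Pool.Agent.NH35.HC.Typ

/-! The sum of the types of the Jacobi sums is primitive. -/

set_option autoImplicit false
set_option linter.unusedSectionVars false
open NumberField NumberField.InfinitePlace IsDedekindDomain
open Module nonZeroDivisors Ideal IsCyclotomicExtension
open scoped ComplexConjugate

namespace Pool.Agent.NH35.HD
open Pool.Agent.NH35.HC (Hk coprime_span Ph mem_Ph sum_Ph)

section
variable {ι : Type} [Fintype ι] [DecidableEq ι] {p : ι → ℕ} [hpr : ∀ i, Fact (p i).Prime]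

theorem tot_prod (hinj : Function.Injective p) (S : Finset ι) :
    (∏ i ∈ S, p i).totient = ∏ i ∈ S, (p i - 1) := by
  induction S using Finset.induction_on with
  | empty => simp
  | insert i S hi ih =>
      rw [Finset.prod_insert hi, Finset.prod_insert hi, Nat.totient_mul, ih,
        Nat.totient_prime (hpr i).out]
      refine Nat.Coprime.prod_right fun j hj => ?_
      refine (Nat.coprime_primes (hpr i).out (hpr j).out).2 fun h => hi ?_
      rw [hinj h]
      exact hj

variable {m : ℕ} [NeZero m] [hpm : ∀ i, Fact (p i ∣ m)]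

theorem card_units (hinj : Function.Injective p) (hm : m = ∏ i, p i) :
    Fintype.card (ZMod m)ˣ = ∏ i, (p i - 1) := by
  rw [ZMod.card_units_eq_totient]
  conv_lhs => rw [hm]
  exact tot_prod hinj _

theorem om_inj (hinj : Function.Injective p) (hm : m = ∏ i, p i) {u v : (ZMod m)ˣ}
    (h : ∀ i, om m (p i) u = om m (p i) v) : u = v := by
  classical
  apply Units.ext
  rw [← sub_eq_zero]
  have h1 : ∀ i, p i ∣ ((u : ZMod m) - (v : ZMod m)).val := by
    intro i
    have h2 := congrArg Units.val (h i)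
    unfold om at h2
    rw [ZMod.unitsMap_val, ZMod.unitsMap_val] at h2
    have h3 : ZMod.castHom (hpm i).out (ZMod (p i)) ((u : ZMod m) - (v : ZMod m)) = 0 := by
      rw [map_sub, sub_eq_zero]
      exact h2
    rw [← ZMod.natCast_eq_zero_iff, ZMod.natCast_val]
    exact h3
  have h2 : m ∣ ((u : ZMod m) - (v : ZMod m)).val := by
    have e : m = ∏ q ∈ Finset.univ.image p, q := by
      rw [Finset.prod_image fun a _ b _ h => hinj h, hm]
    refine (dvd_of_eq e).trans (Finset.prod_primes_dvd _ ?_ ?_)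
    · intro q hq
      obtain ⟨i, -, rfl⟩ := Finset.mem_image.1 hq
      exact (hpr i).out.prime
    · intro q hq
      obtain ⟨i, -, rfl⟩ := Finset.mem_image.1 hq
      exact h1 i
  have h3 := Nat.eq_zero_of_dvd_of_lt h2 (ZMod.val_lt _)
  exact (ZMod.val_eq_zero _).1 h3

theorem om_bij (hinj : Function.Injective p) (hm : m = ∏ i, p i) :
    Function.Bijective fun (u : (ZMod m)ˣ) (i : ι) => om m (p i) u := by
  rw [Fintype.bijective_iff_injective_and_card]
  refine ⟨fun u v h => om_inj hinj hm fun i => congrFun h i, ?_⟩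
  rw [card_units hinj hm, Fintype.card_pi]
  exact Finset.prod_congr rfl fun i _ => (ZMod.card_units (p i)).symm

/-- the characteristic function of the half system -/
def hf (p : ℕ) [Fact p.Prime] (g : (ZMod p)ˣ) : ℕ := if 2 * (g : ZMod p).val < p then 1 else 0

theorem wt_one (p : ℕ) [Fact p.Prime] [Fact (p ∣ m)] (t : (ZMod m)ˣ) :
    wt m p 1 1 t = hf p (om m p t) := by
  unfold wt hf rs
  rw [Nat.cast_one, one_mul, two_mul]

theorem hf_fix {p : ℕ} [Fact p.Prime] (hp : p ≠ 2) {u : (ZMod p)ˣ}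
    (h : ∀ g, hf p (u * g) = hf p g) : u = 1 := by
  classical
  have e : ∑ t ∈ Ph p, (t : ZMod p) = ∑ g : (ZMod p)ˣ, (hf p g : ZMod p) * (g : ZMod p) := by
    unfold Ph hf
    rw [Finset.sum_filter]
    refine Finset.sum_congr rfl fun g _ => ?_
    split_ifs <;> simp
  have h1 : ∑ g : (ZMod p)ˣ, (hf p g : ZMod p) * (g : ZMod p) =
      (u : ZMod p) * ∑ g : (ZMod p)ˣ, (hf p g : ZMod p) * (g : ZMod p) := by
    rw [Finset.mul_sum]
    symm
    refine Fintype.sum_equiv (Equiv.mulLeft u) _ _ fun g => ?_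
    rw [Equiv.coe_mulLeft, h, Units.val_mul]
    ring
  have h2 : ((u : ZMod p) - 1) * ∑ t ∈ Ph p, (t : ZMod p) = 0 := by
    rw [e, sub_mul, one_mul, ← h1, sub_self]
  rcases mul_eq_zero.1 h2 with h3 | h3
  · exact Units.ext (by rw [Units.val_one]; linear_combination h3)
  · exact absurd h3 (sum_Ph hp)

variable (m p) in
/-- the sum of the types -/
def ws (t : (ZMod m)ˣ) : ℕ := ∑ i, wt m (p i) 1 1 t

theorem ws_fix (hinj : Function.Injective p) (hm : m = ∏ i, p i) (hp : ∀ i, p i ≠ 2)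
    {u : (ZMod m)ˣ} (h : ∀ t, ws p m (u * t) = ws p m t) : u = 1 := by
  classical
  have hsurj := (om_bij (m := m) hinj hm).2
  apply om_inj hinj hm
  intro i
  rw [map_one]
  apply hf_fix (hp i)
  -- lift
  have h1 : ∀ g : (ZMod (p i))ˣ, ∃ t : (ZMod m)ˣ, om m (p i) t = g ∧
      ∀ j, j ≠ i → om m (p j) t = 1 := by
    intro g
    obtain ⟨t, ht⟩ := hsurj (Function.update (fun j => (1 : (ZMod (p j))ˣ)) i g)
    refine ⟨t, ?_, fun j hj => ?_⟩
    · have := congrFun ht i
      rwa [Function.update_self] at this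
    · have := congrFun ht j
      rwa [Function.update_of_ne hj] at this
  set A := ∑ j ∈ Finset.univ.erase i, hf (p j) (om m (p j) u) with hA
  set B := ∑ j ∈ Finset.univ.erase i, hf (p j) 1 with hB
  have h2 : ∀ g : (ZMod (p i))ˣ, hf (p i) (om m (p i) u * g) + A = hf (p i) g + B := by
    intro g
    obtain ⟨t, ht, ht'⟩ := h1 g
    have h3 := h t
    unfold ws at h3
    simp only [wt_one] at h3
    rw [← Finset.add_sum_erase _ _ (Finset.mem_univ i),
      ← Finset.add_sum_erase (a := i) _ (fun j => hf (p j) (om m (p j) t)) (Finset.mem_univ i),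
      map_mul, ht] at h3
    rw [hA, hB]
    have e1 : ∑ j ∈ Finset.univ.erase i, hf (p j) (om m (p j) (u * t)) =
        ∑ j ∈ Finset.univ.erase i, hf (p j) (om m (p j) u) :=
      Finset.sum_congr rfl fun j hj => by
        rw [map_mul, ht' j (Finset.ne_of_mem_erase hj), mul_one]
    have e2 : ∑ j ∈ Finset.univ.erase i, hf (p j) (om m (p j) t) =
        ∑ j ∈ Finset.univ.erase i, hf (p j) 1 :=
      Finset.sum_congr rfl fun j hj => by rw [ht' j (Finset.ne_of_mem_erase hj)]
    rw [e1, e2] at h3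
    exact h3
  have h3 : ∑ g : (ZMod (p i))ˣ, (hf (p i) (om m (p i) u * g) + A) =
      ∑ g : (ZMod (p i))ˣ, (hf (p i) g + B) := Finset.sum_congr rfl fun g _ => h2 g
  have h4 : ∑ g : (ZMod (p i))ˣ, hf (p i) (om m (p i) u * g) = ∑ g : (ZMod (p i))ˣ, hf (p i) g :=
    Fintype.sum_equiv (Equiv.mulLeft (om m (p i) u)) _ _ fun g => rfl
  rw [Finset.sum_add_distrib, Finset.sum_add_distrib, h4, Finset.sum_const, Finset.sum_const,
    Nat.add_left_cancel_iff, smul_eq_mul, smul_eq_mul] at h3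
  have h5 : A = B := Nat.eq_of_mul_eq_mul_left (Finset.card_pos.2 ⟨1, Finset.mem_univ _⟩) h3
  intro g
  have h6 := h2 g
  rw [h5] at h6
  exact Nat.add_right_cancel h6

theorem ws_add (hp : ∀ i, p i ≠ 2) (t : (ZMod m)ˣ) :
    ws p m t + ws p m (-t) = Fintype.card ι := by
  unfold ws
  rw [← Finset.sum_add_distrib, Finset.sum_congr rfl fun i _ =>
    wt_add (m := m) (p := p i) one_ndvd one_ndvd (two_ndvd (hp i)) t]
  simp

end

section
variable {m : ℕ} [NeZero m] {K : Type} [Field K] [NumberField K] [IsCyclotomicExtension {m} ℚ K]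

theorem ztm_pow_inj {u v : (ZMod m)ˣ}
    (h : zt m K ^ (u : ZMod m).val = zt m K ^ (v : ZMod m).val) : u = v := by
  have := (zt_prim m K).pow_inj (ZMod.val_lt _) (ZMod.val_lt _) h
  exact Units.ext (ZMod.val_injective m this)

/-- a type fixed on the ray is fixed by translation -/
theorem fix_of_xw (W : (ZMod m)ˣ → ℕ) (u : (ZMod m)ˣ) (N : ℕ) (hN : N ≠ 0)
    (h : ∀ β : 𝓞 K, β ≠ 0 → β - 1 ∈ span {((N : ℕ) : 𝓞 K)} →
      xw m K W β = xw m K W (sa m K u β)) (hN1 : span {((N : ℕ) : 𝓞 K)} ≠ ⊤) (t : (ZMod m)ˣ) :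
    W (u * t) = W t := by
  classical
  have hN0 : ((N : ℕ) : 𝓞 K) ≠ 0 := Nat.cast_ne_zero.2 hN
  let f : (ZMod m)ˣ → 𝓞 K := fun v => -(((N : ℕ) : 𝓞 K) * zt m K ^ (v : ZMod m).val)
  have hf : Function.Injective f := by
    intro v w h
    exact ztm_pow_inj (mul_left_cancel₀ hN0 (neg_injective h))
  let P : Polynomial (𝓞 K) := ∏ t : (ZMod m)ˣ, (Polynomial.X - Polynomial.C (f t⁻¹)) ^ W t
  let Q : Polynomial (𝓞 K) := ∏ t : (ZMod m)ˣ, (Polynomial.X - Polynomial.C (f (t⁻¹ * u))) ^ W t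
  have hPQ : P = Q := by
    apply Polynomial.eq_of_infinite_eval_eq
    refine Set.Infinite.mono (s := Set.range fun T : ℕ => (1 : 𝓞 K) + ((N : ℕ) : 𝓞 K) * (T : 𝓞 K))
      ?_ ?_
    · rintro _ ⟨T, rfl⟩
      rw [Set.mem_ofPred_eq]
      set β : 𝓞 K := 1 + ((N : ℕ) : 𝓞 K) * (T + zt m K) with hβ
      have h1 : β - 1 ∈ span {((N : ℕ) : 𝓞 K)} := by
        rw [Ideal.mem_span_singleton, hβ]
        exact ⟨T + zt m K, by ring⟩
      have h0 : β ≠ 0 := by
        have := coprime_ne hN1 _ (coprime_span h1)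
        rwa [Ne, Ideal.span_singleton_eq_bot] at this
      have h2 := h β h0 h1
      have hs : ∀ v : (ZMod m)ˣ, sa m K v β = (1 : 𝓞 K) + ((N : ℕ) : 𝓞 K) * (T : 𝓞 K) - f v := by
        intro v
        rw [hβ, map_add, map_mul, map_add, map_one, map_natCast, map_natCast, sa_zt]
        simp only [f]
        ring
      unfold xw at h2
      have h3 : ∀ t : (ZMod m)ˣ, sa m K t⁻¹ (sa m K u β) = sa m K (t⁻¹ * u) β := fun t =>
        (sa_mul m K _ _ _).symm
      simp only [h3] at h2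
      simp only [hs] at h2
      simp only [P, Q]
      rw [Polynomial.eval_prod, Polynomial.eval_prod]
      simp only [Polynomial.eval_pow, Polynomial.eval_sub, Polynomial.eval_X, Polynomial.eval_C]
      exact h2
    · apply Set.infinite_range_of_injective
      intro a b h
      have h1 : ((N : ℕ) : 𝓞 K) * (a : 𝓞 K) = ((N : ℕ) : 𝓞 K) * (b : 𝓞 K) := by
        simpa using h
      exact_mod_cast mul_left_cancel₀ hN0 h1
  -- multiplicities
  have hroot : ∀ (g : (ZMod m)ˣ → (ZMod m)ˣ), Function.Injective g → ∀ s : (ZMod m)ˣ,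
      Polynomial.rootMultiplicity (f (g s))
        (∏ t : (ZMod m)ˣ, (Polynomial.X - Polynomial.C (f (g t))) ^ W t) = W s := by
    intro g hg s
    have hne : ∏ t : (ZMod m)ˣ, (Polynomial.X - Polynomial.C (f (g t))) ^ W t ≠ 0 :=
      Finset.prod_ne_zero_iff.2 fun t _ => pow_ne_zero _ (Polynomial.X_sub_C_ne_zero _)
    rw [← Polynomial.count_roots, Polynomial.roots_prod _ _ hne, Multiset.count_bind]
    simp only [Polynomial.roots_pow, Polynomial.roots_X_sub_C, Multiset.count_nsmul,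
      Multiset.count_singleton]
    change ∑ t : (ZMod m)ˣ, W t * (if f (g s) = f (g t) then 1 else 0) = W s
    rw [Finset.sum_eq_single s]
    · rw [if_pos rfl, mul_one]
    · intro t _ hts
      rw [if_neg, mul_zero]
      intro h4
      exact hts (hg (hf h4)).symm
    · intro h4
      exact absurd (Finset.mem_univ _) h4
  have h1 := hroot (fun t => t⁻¹) inv_injective t
  have h2 := hroot (fun t => t⁻¹ * u) (fun a b h => inv_injective (mul_right_cancel h)) (u * t)
  have e : (u * t)⁻¹ * u = t⁻¹ := by rw [mul_inv_rev, inv_mul_cancel_right]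
  beta_reduce at h1 h2
  rw [e] at h2
  rw [← h2, ← h1]
  change Polynomial.rootMultiplicity (f t⁻¹) Q = Polynomial.rootMultiplicity (f t⁻¹) P
  rw [hPQ]

/-- **The type at infinity is not invariant under the Galois group.** -/
theorem exists_nontriv {W : (ZMod m)ˣ → ℕ} {c : ℕ} (hW : ∀ t, W t + W (-t) = c)
    {u : (ZMod m)ˣ} (hu : ¬ ∀ t, W (u * t) = W t) (τ : K →+* ℂ) {N : ℕ} (hN : N ≠ 0)
    (hN1 : span {((N : ℕ) : 𝓞 K)} ≠ ⊤) :
    ∃ β : 𝓞 K, β ≠ 0 ∧ β - 1 ∈ span {((N : ℕ) : 𝓞 K)} ∧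
      (chinf m K W τ β : ℂ) * conj (chinf m K W τ (sa m K u β) : ℂ) ≠ 1 := by
  by_contra hcon
  push Not at hcon
  apply hu
  refine fix_of_xw (K := K) W u N hN (fun β h0 h1 => ?_) hN1
  have h := hcon β h0 h1
  have e1 : (chinf m K W τ β : ℂ) = (chinf m K W τ (sa m K u β) : ℂ) := by
    have h3 : (chinf m K W τ (sa m K u β) : ℂ) * conj (chinf m K W τ (sa m K u β) : ℂ) = 1 := by
      rw [Complex.mul_conj, Complex.normSq_eq_norm_sq, Circle.norm_coe]
      simp
    have h4 : conj (chinf m K W τ (sa m K u β) : ℂ) ≠ 0 := right_ne_zero_of_mul_eq_one h3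
    exact mul_right_cancel₀ h4 (h.trans h3.symm)
  unfold chinf at e1
  have hx1 : xw m K W β ≠ 0 := xw_ne h0
  have hx2 : xw m K W (sa m K u β) ≠ 0 := xw_ne (sa_ne (u := u) h0)
  rw [coe_cz (emb_ne τ hx1), coe_cz (emb_ne τ hx2)] at e1
  have hn : ‖τ (xw m K W β : K)‖ = ‖τ (xw m K W (sa m K u β) : K)‖ := by
    have a1 := HD.norm_sq m K τ (xw m K W β)
    have a2 := HD.norm_sq m K τ (xw m K W (sa m K u β))
    rw [xw_norm hW, norm_prod m K] at a1 a2
    have a3 : ∏ v : (ZMod m)ˣ, sa m K v (sa m K u β) = ∏ v : (ZMod m)ˣ, sa m K v β := by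
      refine Fintype.prod_equiv (Equiv.mulRight u) _ _ fun v => ?_
      rw [← sa_mul]
      rfl
    rw [a3, a1] at a2
    have a4 : ‖τ (xw m K W β : K)‖ ^ 2 = ‖τ (xw m K W (sa m K u β) : K)‖ ^ 2 := by
      exact_mod_cast a2
    exact (pow_left_inj₀ (_root_.norm_nonneg _) (_root_.norm_nonneg _) two_ne_zero).1 a4
  rw [hn] at e1
  have hz : ((‖τ (xw m K W (sa m K u β) : K)‖ : ℝ) : ℂ) ≠ 0 := by
    rw [Ne, Complex.ofReal_eq_zero, norm_eq_zero]
    exact emb_ne τ hx2
  have e2 := (div_left_inj' hz).1 e1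
  exact RingOfIntegers.ext (τ.injective e2)

end

end Pool.Agent.NH35.HD
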