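import Pool.Agent.NH35.HD.Second
import Pool.Agent.Y149.PK.Main

/-! The correlation of a bounded function with the product of the traces. -/

set_option autoImplicit false
set_option linter.unusedSectionVars false
open Filter Topology
open Pool.Agent.H341R2 (E lam lam_tendsto)
open Pool.Agent.Y149.PK (E_add' E_smul E_fsum E_mono abs_E_le lam_pos)

namespace Pool.Agent.NH35.HD

section
variable {ι : Type} {p : ι → ℕ} {k : ι → ℤ}

theorem prod_get {α M : Type} [CommMonoid M] (S : List α) (f : α → M) :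
    ∏ j : Fin S.length, f (S.get j) = (S.map f).prod := by
  rw [← List.prod_ofFn]
  congr 1
  rw [← Function.comp_def f S.get, ← List.map_ofFn, List.ofFn_get]

theorem fprod_pos (hC : IsCurveFamily p k) (S : List ι) :
    0 < (S.map fun i => ((p i : ℝ) - 1)).prod := by
  induction S with
  | nil => simp
  | cons i S ih =>
      rw [List.map_cons, List.prod_cons]
      refine mul_pos ?_ ih
      have h1 : (1 : ℝ) < p i := by exact_mod_cast (hC.prime i).one_lt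
      linarith

/-- **Correlation with a bounded function.** -/
theorem corr (hC : IsCurveFamily p k) {S : List ι} (hS : S ≠ []) (hnd : (S.map p).Nodup)
    (φ : Nat.Primes → ℝ) {b : ℝ} (hφ : ∀ ℓ, |φ ℓ| ≤ b) (T' : Nat.Primes → ℝ)
    (hT' : ∀ ℓ, |T' ℓ| ≤ |(S.map fun i => TT (p i) (k i) ℓ).prod|) {η : ℝ} (hη : 0 < η) :
    ∀ᶠ ε : ℝ in 𝓝[>] 0, |E ε (fun ℓ => φ ℓ * T' ℓ)| ≤
      (b / Real.sqrt (S.map fun i => ((p i : ℝ) - 1)).prod + η) * lam ε := by
  classical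
  have hb : 0 ≤ b := (abs_nonneg _).trans (hφ ⟨2, Nat.prime_two⟩)
  -- the index type
  let q : Fin S.length → ℕ := fun j => p (S.get j)
  let c : Fin S.length → ℤ := fun j => k (S.get j)
  have hq : ∀ j, Fact (q j).Prime := fun j => ⟨hC.prime _⟩
  have hinj : Function.Injective q := by
    intro i j h
    have h1 : (S.map p).get (i.cast (List.length_map _).symm) =
        (S.map p).get (j.cast (List.length_map _).symm) := by
      have h' : p (S.get i) = p (S.get j) := h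
      simpa using h'
    have h2 := List.nodup_iff_injective_get.1 hnd h1
    exact Fin.ext (by simpa using congrArg Fin.val h2)
  set m : ℕ := ∏ j, q j with hm
  have hm0 : NeZero m := ⟨Finset.prod_ne_zero_iff.2 fun j _ => (hq j).out.ne_zero⟩
  have hqm : ∀ j, Fact (q j ∣ m) := fun j => ⟨Finset.dvd_prod_of_mem _ (Finset.mem_univ j)⟩
  have hne : Nonempty (Fin S.length) := Fin.pos_iff_nonempty.1 (List.length_pos_iff.2 hS)
  obtain ⟨K, _, _, _⟩ : ∃ (K : Type) (_ : Field K) (_ : NumberField K),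
      IsCyclotomicExtension {m} ℚ K :=
    ⟨CyclotomicField m ℚ, inferInstance, inferInstance, CyclotomicField.isCyclotomicExtension m ℚ⟩
  obtain ⟨⟨B, hB⟩, C2, h2⟩ := second hinj hm (fun j => hC.odd _) c (fun j => hC.ndvd _) K
  obtain ⟨C1, h1⟩ := first m K
  set T : Nat.Primes → ℝ := fun ℓ => ∏ j, TT (q j) (c j) ℓ with hT
  have hTe : ∀ ℓ, T ℓ = (S.map fun i => TT (p i) (k i) ℓ).prod := fun ℓ =>
    prod_get S fun i => TT (p i) (k i) ℓ
  set f : ℝ := (S.map fun i => ((p i : ℝ) - 1)).prod with hf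
  have hf0 : 0 < f := fprod_pos hC S
  have hfm : (m.totient : ℝ) = f := by
    have e1 : m.totient = ∏ j, (q j - 1) := tot_prod hinj Finset.univ
    rw [e1, Nat.cast_prod, hf, ← prod_get S fun i => ((p i : ℝ) - 1)]
    refine Finset.prod_congr rfl fun j _ => ?_
    rw [Nat.cast_sub (hq j).out.one_le, Nat.cast_one]
  have hT0 : ∀ ℓ : Nat.Primes, ¬ m ∣ (ℓ : ℕ) - 1 → T ℓ = 0 := by
    intro ℓ h
    have hex : ∃ j, ¬ q j ∣ (ℓ : ℕ) - 1 := by
      by_contra hcon
      push Not at hcon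
      apply h
      have e : m = ∏ r ∈ Finset.univ.image q, r := by
        rw [Finset.prod_image fun a _ b _ h => hinj h]
      refine (dvd_of_eq e).trans (Finset.prod_primes_dvd _ ?_ ?_)
      · intro r hr
        obtain ⟨i, -, rfl⟩ := Finset.mem_image.1 hr
        exact (hq i).out.prime
      · intro r hr
        obtain ⟨i, -, rfl⟩ := Finset.mem_image.1 hr
        exact hcon i
    obtain ⟨j, hj⟩ := hex
    exact Finset.prod_eq_zero (Finset.mem_univ j) (TT_zero _ hj)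
  have hT'le : ∀ ℓ, |T' ℓ| ≤ |T ℓ| := fun ℓ => (hT' ℓ).trans_eq (by rw [hTe])
  by_cases hb0 : b = 0
  · have e : (fun ℓ => φ ℓ * T' ℓ) = fun _ => (0 : ℝ) := by
      funext ℓ
      have h3 := hφ ℓ
      rw [hb0] at h3
      rw [abs_nonpos_iff.1 h3, zero_mul]
    rw [e, hb0, zero_div, zero_add]
    filter_upwards [lam_pos] with ε h3
    have h4 : E ε (fun _ : Nat.Primes => (0 : ℝ)) = 0 := by
      unfold E
      simp
    rw [h4, abs_zero]
    positivity
  have hbp : 0 < b := lt_of_le_of_ne hb (Ne.symm hb0)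
  have hsf : 0 < Real.sqrt f := Real.sqrt_pos.2 hf0
  set t : ℝ := Real.sqrt f / b with ht
  have ht0 : 0 < t := div_pos hsf hbp
  have hTb2 : ∀ ℓ, |T ℓ ^ 2| ≤ B ^ 2 := fun ℓ => by
    rw [abs_pow]
    exact pow_le_pow_left₀ (abs_nonneg _) (hB ℓ) 2
  have hprodb : ∀ ℓ, |φ ℓ * T' ℓ| ≤ b * B := fun ℓ => by
    rw [abs_mul]
    exact mul_le_mul (hφ ℓ) ((hT'le ℓ).trans (hB ℓ)) (abs_nonneg _) hb
  -- the pointwise bound
  have key : ∀ ℓ : Nat.Primes, 2 * |φ ℓ * T' ℓ| ≤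
      (t * b ^ 2) * (if m ∣ (ℓ : ℕ) - 1 then 1 else 0) + t⁻¹ * T ℓ ^ 2 := by
    intro ℓ
    by_cases h : m ∣ (ℓ : ℕ) - 1
    · rw [if_pos h, mul_one, abs_mul]
      have e1 : |φ ℓ| ≤ b := hφ ℓ
      have e2 := hT'le ℓ
      have e3 : 2 * (|φ ℓ| * |T' ℓ|) ≤ 2 * (b * |T ℓ|) :=
        mul_le_mul_of_nonneg_left (mul_le_mul e1 e2 (abs_nonneg _) hb) two_pos.le
      refine e3.trans ?_
      have e4 : 0 ≤ t * (b - t⁻¹ * |T ℓ|) ^ 2 := by positivity
      have e5 : t * (b - t⁻¹ * |T ℓ|) ^ 2 = t * b ^ 2 + t⁻¹ * |T ℓ| ^ 2 - 2 * (b * |T ℓ|) := by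
        field_simp
        ring
      rw [e5, sq_abs] at e4
      linarith
    · have e1 : T ℓ = 0 := hT0 ℓ h
      have e2 : T' ℓ = 0 := by
        have := hT'le ℓ
        rw [e1, abs_zero] at this
        exact abs_nonpos_iff.1 this
      rw [if_neg h, e1, e2]
      simp
  have hsum : Tendsto (fun ε : ℝ => (b / Real.sqrt f) *
      (W540.BE.EP (W540.BE.nm K) ε (fun _ => 1) / lam ε + ((C1 + C2) / 2) / lam ε))
      (𝓝[>] 0) (𝓝 ((b / Real.sqrt f) * (1 + 0))) :=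
    ((W540.BE.EP_one K).add (lam_tendsto.const_div_atTop _)).const_mul _
  rw [add_zero, mul_one] at hsum
  filter_upwards [hsum.eventually_lt_const (lt_add_of_pos_right _ hη), lam_pos,
    self_mem_nhdsWithin, Ioc_mem_nhdsGT (zero_lt_one' ℝ)] with ε g1 g2 g3 g4
  have hε : (0 : ℝ) < ε := g3
  have k1 : 2 * |E ε (fun ℓ => φ ℓ * T' ℓ)| ≤
      (t * b ^ 2) * E ε (fun ℓ => if m ∣ (ℓ : ℕ) - 1 then 1 else 0) +
        t⁻¹ * E ε (fun ℓ => T ℓ ^ 2) := by
    have hind : ∀ ℓ : Nat.Primes, |(t * b ^ 2) * (if m ∣ (ℓ : ℕ) - 1 then (1 : ℝ) else 0)| ≤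
        |t * b ^ 2| * 1 := fun ℓ => by
      rw [abs_mul]
      refine mul_le_mul_of_nonneg_left ?_ (abs_nonneg _)
      split_ifs <;> simp
    have hind2 : ∀ ℓ : Nat.Primes, |t⁻¹ * T ℓ ^ 2| ≤ |t⁻¹| * B ^ 2 := fun ℓ => by
      rw [abs_mul]
      exact mul_le_mul_of_nonneg_left (hTb2 ℓ) (abs_nonneg _)
    have hR : E ε (fun ℓ : Nat.Primes => (t * b ^ 2) * (if m ∣ (ℓ : ℕ) - 1 then (1 : ℝ) else 0) +
        t⁻¹ * T ℓ ^ 2) = (t * b ^ 2) * E ε (fun ℓ => if m ∣ (ℓ : ℕ) - 1 then 1 else 0) +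
        t⁻¹ * E ε (fun ℓ => T ℓ ^ 2) := by
      rw [E_add' hε hind hind2, E_smul, E_smul]
    have hRb : ∀ ℓ : Nat.Primes, |(t * b ^ 2) * (if m ∣ (ℓ : ℕ) - 1 then (1 : ℝ) else 0) +
        t⁻¹ * T ℓ ^ 2| ≤ |t * b ^ 2| * 1 + |t⁻¹| * B ^ 2 := fun ℓ =>
      (abs_add_le _ _).trans (add_le_add (hind ℓ) (hind2 ℓ))
    have hL : ∀ s : ℝ, |s| = 1 → 2 * (s * E ε (fun ℓ => φ ℓ * T' ℓ)) ≤
        (t * b ^ 2) * E ε (fun ℓ => if m ∣ (ℓ : ℕ) - 1 then 1 else 0) +
          t⁻¹ * E ε (fun ℓ => T ℓ ^ 2) := by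
      intro s hs
      rw [← hR, ← E_smul, ← E_smul]
      refine E_mono (B := 2 * (b * B)) hε (fun ℓ => ?_) hRb fun ℓ => ?_
      · rw [abs_mul, abs_mul, hs, one_mul, abs_two]
        exact mul_le_mul_of_nonneg_left (hprodb ℓ) two_pos.le
      · refine le_trans ?_ (key ℓ)
        refine mul_le_mul_of_nonneg_left ?_ two_pos.le
        refine (le_abs_self _).trans ?_
        rw [abs_mul, hs, one_mul]
    rcases abs_cases (E ε (fun ℓ => φ ℓ * T' ℓ)) with h | h
    · rw [h.1]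
      have := hL 1 abs_one
      rwa [one_mul] at this
    · rw [h.1]
      have := hL (-1) (by simp)
      rwa [neg_one_mul] at this
  have k2 := h2 ε hε g4.2
  have k3 := h1 ε hε
  rw [hfm] at k3
  have k4 : E ε (fun ℓ => if m ∣ (ℓ : ℕ) - 1 then 1 else 0) ≤
      (W540.BE.EP (W540.BE.nm K) ε (fun _ => 1) + C1) / f := by
    rw [le_div_iff₀ hf0, mul_comm]
    exact k3
  set P := W540.BE.EP (W540.BE.nm K) ε (fun _ => 1) with hP
  have hsq : Real.sqrt f * Real.sqrt f = f := Real.mul_self_sqrt hf0.le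
  have e1 : (t * b ^ 2) * ((P + C1) / f) = (b / Real.sqrt f) * (P + C1) := by
    have hbs : Real.sqrt f * b ^ 2 / b / f = b / Real.sqrt f := by
      rw [div_div, div_eq_div_iff (mul_ne_zero hb0 hf0.ne') hsf.ne']
      nlinarith
    rw [ht]
    calc Real.sqrt f / b * b ^ 2 * ((P + C1) / f) =
        (Real.sqrt f * b ^ 2 / b / f) * (P + C1) := by ring
      _ = _ := by rw [hbs]
  have e2 : t⁻¹ = b / Real.sqrt f := by rw [ht, inv_div]
  have k5 : 2 * |E ε (fun ℓ => φ ℓ * T' ℓ)| ≤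
      (b / Real.sqrt f) * (P + C1) + (b / Real.sqrt f) * (P + C2) := by
    refine k1.trans (add_le_add ?_ ?_)
    · rw [← e1]
      exact mul_le_mul_of_nonneg_left k4 (by positivity)
    · rw [e2]
      exact mul_le_mul_of_nonneg_left k2 (by positivity)
  have k6 : |E ε (fun ℓ => φ ℓ * T' ℓ)| ≤ (b / Real.sqrt f) * (P + (C1 + C2) / 2) := by
    linarith
  refine k6.trans ?_
  have k7 : (b / Real.sqrt f) * (P + (C1 + C2) / 2) =
      ((b / Real.sqrt f) * (P / lam ε + ((C1 + C2) / 2) / lam ε)) * lam ε := by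
    field_simp
  rw [k7]
  exact mul_le_mul_of_nonneg_right g1.le g2.le

end

end Pool.Agent.NH35.HD
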