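import Pool.Agent.NH35.HC.Hk
import Pool.Agent.NH35.HC.Grp

/-! The Galois action on the integers of a cyclotomic field. -/

set_option autoImplicit false
set_option linter.unusedSectionVars false
open NumberField NumberField.InfinitePlace IsDedekindDomain
open Module nonZeroDivisors Ideal IsCyclotomicExtension
open scoped ComplexConjugate

namespace Pool.Agent.NH35.HD
open Pool.Agent.NH35.HC (sg coe_sg)

section
variable (m : ℕ) [NeZero m] (K : Type) [Field K] [NumberField K]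
  [IsCyclotomicExtension {m} ℚ K]

/-- the automorphism `ζ ↦ ζ^u` -/
noncomputable def gal (u : (ZMod m)ˣ) : K ≃ₐ[ℚ] K :=
  (IsCyclotomicExtension.Rat.galEquivZMod m K).symm u

/-- the automorphism `ζ ↦ ζ^u` of the ring of integers -/
noncomputable def sa (u : (ZMod m)ˣ) : 𝓞 K ≃+* 𝓞 K := sg (gal m K u).toRingEquiv

/-- the root of unity -/
noncomputable def zt : 𝓞 K := (zeta_spec m ℚ K).toInteger

theorem zt_prim : IsPrimitiveRoot (zt m K) m := (zeta_spec m ℚ K).toInteger_isPrimitiveRoot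

theorem coe_sa (u : (ZMod m)ˣ) (x : 𝓞 K) : ((sa m K u x : 𝓞 K) : K) = gal m K u (x : K) := rfl

theorem gal_mul (u v : (ZMod m)ˣ) (x : K) : gal m K (u * v) x = gal m K u (gal m K v x) := by
  unfold gal
  rw [map_mul]
  rfl

theorem gal_one (x : K) : gal m K 1 x = x := by
  unfold gal
  rw [map_one]
  rfl

theorem sa_mul (u v : (ZMod m)ˣ) (x : 𝓞 K) : sa m K (u * v) x = sa m K u (sa m K v x) :=
  RingOfIntegers.ext (gal_mul m K u v x)

theorem sa_one (x : 𝓞 K) : sa m K 1 x = x := RingOfIntegers.ext (gal_one m K x)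

theorem gal_root (u : (ZMod m)ˣ) {z : K} (h : z ^ m = 1) :
    gal m K u z = z ^ (u : ZMod m).val := by
  rw [IsCyclotomicExtension.Rat.galEquivZMod_apply_of_pow_eq m K (gal m K u) h]
  unfold gal
  rw [MulEquiv.apply_symm_apply]

theorem sa_root (u : (ZMod m)ˣ) {z : 𝓞 K} (h : z ^ m = 1) :
    sa m K u z = z ^ (u : ZMod m).val := by
  apply RingOfIntegers.ext
  rw [coe_sa, gal_root m K u (z := (z : K))]
  · exact (map_pow (algebraMap (𝓞 K) K) z _).symm
  · have h2 := congrArg (algebraMap (𝓞 K) K) h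
    rw [map_pow, map_one] at h2
    exact h2

theorem sa_zt (u : (ZMod m)ˣ) : sa m K u (zt m K) = zt m K ^ (u : ZMod m).val :=
  sa_root m K u (zt_prim m K).pow_eq_one

variable {m K} in
theorem sa_ne {u : (ZMod m)ˣ} {x : 𝓞 K} (hx : x ≠ 0) : sa m K u x ≠ 0 :=
  (map_ne_zero_iff _ (sa m K u).injective).2 hx

theorem hom_ext {R : Type} [Field R] (f g : K →+* R) (h : f (zt m K : K) = g (zt m K : K)) :
    f = g := by
  have : CharZero R := charZero_of_injective_ringHom f.injective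
  have hz : IsPrimitiveRoot (zt m K : K) m := zeta_spec m ℚ K
  let _ : Algebra ℚ R := DivisionRing.toRatAlgebra
  have e : f.toRatAlgHom = g.toRatAlgHom := by
    apply (hz.powerBasis ℚ).algHom_ext
    rw [IsPrimitiveRoot.powerBasis_gen]
    exact h
  ext x
  exact DFunLike.congr_fun e x

theorem emb_conj (τ : K →+* ℂ) (x : 𝓞 K) :
    τ ((sa m K (-1) x : 𝓞 K) : K) = conj (τ (x : K)) := by
  have h : τ.comp ((gal m K (-1)).toRingEquiv : K →+* K) = (starRingEnd ℂ).comp τ := by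
    apply hom_ext m K
    have hzm : (zt m K : K) ^ m = 1 := (zeta_spec m ℚ K).pow_eq_one
    rw [RingHom.comp_apply, RingHom.comp_apply]
    change τ (gal m K (-1) (zt m K : K)) = conj (τ (zt m K : K))
    rw [gal_root m K _ hzm, map_pow]
    have h1 : (τ (zt m K : K)) ^ m = 1 := by rw [← map_pow, hzm, map_one]
    have h2 : τ (zt m K : K) * conj (τ (zt m K : K)) = 1 := by
      rw [Complex.mul_conj, Complex.normSq_eq_norm_sq,
        Complex.norm_eq_one_of_pow_eq_one h1 (NeZero.ne m)]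
      simp
    have h3 : τ (zt m K : K) * τ (zt m K : K) ^ (((-1 : (ZMod m)ˣ) : ZMod m)).val = 1 := by
      rw [← pow_succ']
      have h4 : m ∣ (((-1 : (ZMod m)ˣ) : ZMod m)).val + 1 := by
        rw [← ZMod.natCast_eq_zero_iff]
        push_cast
        rw [ZMod.natCast_zmod_val]
        simp
      obtain ⟨k, hk⟩ := h4
      rw [hk, pow_mul, h1, one_pow]
    have h0 : τ (zt m K : K) ≠ 0 := left_ne_zero_of_mul_eq_one h2
    exact mul_left_cancel₀ h0 (h3.trans h2.symm)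
  exact DFunLike.congr_fun h (x : K)

theorem norm_sq (τ : K →+* ℂ) (x : 𝓞 K) :
    τ ((x * sa m K (-1) x : 𝓞 K) : K) = ((‖τ (x : K)‖ ^ 2 : ℝ) : ℂ) := by
  rw [show ((x * sa m K (-1) x : 𝓞 K) : K) = (x : K) * ((sa m K (-1) x : 𝓞 K) : K) by simp,
    map_mul, emb_conj, Complex.mul_conj, Complex.normSq_eq_norm_sq]

/-- the absolute norm as a product over the Galois group -/
theorem norm_prod (x : 𝓞 K) : ((Algebra.norm ℤ x : ℤ) : 𝓞 K) = ∏ u : (ZMod m)ˣ, sa m K u x := by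
  have : IsGalois ℚ K := IsCyclotomicExtension.isGalois {m} ℚ K
  apply RingOfIntegers.ext
  have h1 := Algebra.norm_eq_prod_automorphisms ℚ (x : K)
  rw [← Algebra.coe_norm_int] at h1
  have h2 : (algebraMap ℚ K) ((Algebra.norm ℤ x : ℤ) : ℚ) =
      (((Algebra.norm ℤ x : ℤ) : 𝓞 K) : K) := by
    rw [map_intCast]
    exact (map_intCast (algebraMap (𝓞 K) K) _).symm
  rw [← h2, h1]
  change _ = algebraMap (𝓞 K) K (∏ u : (ZMod m)ˣ, sa m K u x)
  rw [map_prod]
  exact (Fintype.prod_equiv ((IsCyclotomicExtension.Rat.galEquivZMod m K).symm.toEquiv) _ _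
    fun u => rfl).symm

variable {m K}

theorem sa_inv (u : (ZMod m)ˣ) (x : 𝓞 K) : sa m K u⁻¹ (sa m K u x) = x := by
  rw [← sa_mul, inv_mul_cancel, sa_one]

theorem sa_inv' (u : (ZMod m)ˣ) (x : 𝓞 K) : sa m K u (sa m K u⁻¹ x) = x := by
  rw [← sa_mul, mul_inv_cancel, sa_one]

theorem mem_map_sa (u : (ZMod m)ˣ) (I : Ideal (𝓞 K)) (x : 𝓞 K) :
    x ∈ I.map (sa m K u) ↔ sa m K u⁻¹ x ∈ I := by
  rw [Ideal.mem_map_of_equiv]
  constructor
  · rintro ⟨y, hy, rfl⟩
    rwa [sa_inv]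
  · intro h
    exact ⟨_, h, sa_inv' u x⟩

theorem map_map_sa (u v : (ZMod m)ˣ) (I : Ideal (𝓞 K)) :
    (I.map (sa m K v)).map (sa m K u) = I.map (sa m K (u * v)) := by
  ext x
  rw [mem_map_sa, mem_map_sa, mem_map_sa, ← sa_mul, mul_inv_rev]

theorem map_sa_one (I : Ideal (𝓞 K)) : I.map (sa m K 1) = I := by
  ext x
  rw [mem_map_sa, inv_one, sa_one]

theorem map_sa_inj (u : (ZMod m)ˣ) {I I' : Ideal (𝓞 K)}
    (h : I.map (sa m K u) = I'.map (sa m K u)) : I = I' := by
  have h1 := congrArg (fun J : Ideal (𝓞 K) => J.map (sa m K u⁻¹)) h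
  simp only [map_map_sa, inv_mul_cancel, map_sa_one] at h1
  exact h1

theorem absNorm_map_sa (u : (ZMod m)ˣ) (I : Ideal (𝓞 K)) :
    absNorm (I.map (sa m K u)) = absNorm I := by
  rw [Ideal.absNorm_apply, Ideal.absNorm_apply, Submodule.cardQuot_apply,
    Submodule.cardQuot_apply]
  exact Nat.card_congr (Ideal.quotientEquiv I (I.map (sa m K u)) (sa m K u) rfl).toEquiv.symm

theorem absNorm_nat (n : ℕ) : absNorm (span {(n : 𝓞 K)}) = n ^ Fintype.card (ZMod m)ˣ := by
  rw [Ideal.absNorm_span_singleton]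
  have h1 := norm_prod m K (n : 𝓞 K)
  simp only [map_natCast, Finset.prod_const, Finset.card_univ] at h1
  have h2 : Algebra.norm ℤ (n : 𝓞 K) = ((n ^ Fintype.card (ZMod m)ˣ : ℕ) : ℤ) := by
    exact_mod_cast h1
  rw [h2, Int.natAbs_natCast]

theorem emb_ne (τ : K →+* ℂ) {x : 𝓞 K} (hx : x ≠ 0) : τ (x : K) ≠ 0 :=
  (map_ne_zero τ).2 (RingOfIntegers.coe_ne_zero_iff.mpr hx)

end

end Pool.Agent.NH35.HD
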