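import Pool.Agent.NH35.HD.Wt

/-! Hecke characters from multiplicative relations. -/

set_option autoImplicit false
set_option linter.unusedSectionVars false
open NumberField NumberField.InfinitePlace IsDedekindDomain
open Module nonZeroDivisors Ideal IsCyclotomicExtension
open scoped ComplexConjugate

namespace Pool.Agent.NH35.HD
open Pool.Agent.NH35.HC (Hk coprime_span exists_ext_monoid)

/-- `z / |z|` as an element of the circle -/
noncomputable def czz (z : ℂ) (h : z ≠ 0) : Circle where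
  val := z / ‖z‖
  property := mem_sphere_zero_iff_norm.2 <| by
    rw [norm_div, Complex.norm_real, norm_norm, div_self (norm_ne_zero_iff.2 h)]

open Classical in
/-- `z / |z|` as an element of the circle, `1` for `z = 0` -/
noncomputable def cz (z : ℂ) : Circle := if h : z ≠ 0 then czz z h else 1

theorem coe_cz {z : ℂ} (h : z ≠ 0) : (cz z : ℂ) = z / ‖z‖ := by
  have e : cz z = czz z h := dif_pos h
  rw [e]
  rfl

theorem cz_mul {z w : ℂ} (hz : z ≠ 0) (hw : w ≠ 0) : cz (z * w) = cz z * cz w := by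
  apply Circle.ext
  rw [Circle.coe_mul, coe_cz hz, coe_cz hw, coe_cz (mul_ne_zero hz hw), norm_mul]
  push_cast
  rw [mul_div_mul_comm]

theorem cz_one : cz 1 = 1 := by
  apply Circle.ext
  rw [coe_cz one_ne_zero]
  simp

theorem cz_norm_one {z : ℂ} (h : ‖z‖ = 1) : (cz z : ℂ) = z := by
  have h0 : z ≠ 0 := by
    rintro rfl
    rw [norm_zero] at h
    exact zero_ne_one h
  rw [coe_cz h0, h]
  simp

theorem cz_lip {z w : ℂ} (hz : z ≠ 0) (hw : w ≠ 0) {δ : ℝ} (h : ‖w - z‖ ≤ δ * ‖z‖) :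
    ‖(cz w : ℂ) - cz z‖ ≤ 2 * δ := by
  have hz' : 0 < ‖z‖ := norm_pos_iff.2 hz
  have hw' : 0 < ‖w‖ := norm_pos_iff.2 hw
  have hzc : ((‖z‖ : ℝ) : ℂ) ≠ 0 := by exact_mod_cast hz'.ne'
  have hwc : ((‖w‖ : ℝ) : ℂ) ≠ 0 := by exact_mod_cast hw'.ne'
  rw [coe_cz hw, coe_cz hz]
  have e1 : w / ‖w‖ - z / ‖z‖ = (w - z) / ‖z‖ + (w / ‖w‖) * ((‖z‖ - ‖w‖) / ‖z‖ : ℝ) := by
    push_cast
    field_simp
    ring
  rw [e1]
  refine (norm_add_le _ _).trans ?_
  have e2 : ‖(w - z) / (‖z‖ : ℂ)‖ ≤ δ := by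
    rw [norm_div, Complex.norm_real, norm_norm, div_le_iff₀ hz']
    exact h
  have e3 : ‖(w / (‖w‖ : ℂ)) * (((‖z‖ - ‖w‖) / ‖z‖ : ℝ) : ℂ)‖ ≤ δ := by
    rw [norm_mul, norm_div, Complex.norm_real, norm_norm, div_self hw'.ne', one_mul,
      Complex.norm_real, norm_div, norm_norm, div_le_iff₀ hz', Real.norm_eq_abs, abs_sub_comm]
    exact (abs_norm_sub_norm_le _ _).trans h
  linarith

theorem prod_lip {ι : Type} (S : Finset ι) (a b : ι → Circle) {δ : ι → ℝ}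
    (h : ∀ i ∈ S, ‖(a i : ℂ) - b i‖ ≤ δ i) :
    ‖((∏ i ∈ S, a i : Circle) : ℂ) - (∏ i ∈ S, b i : Circle)‖ ≤ ∑ i ∈ S, δ i := by
  classical
  induction S using Finset.induction_on with
  | empty => simp
  | insert i S hi ih =>
      rw [Finset.prod_insert hi, Finset.prod_insert hi, Finset.sum_insert hi]
      have h1 := ih fun j hj => h j (Finset.mem_insert_of_mem hj)
      have h2 := h i (Finset.mem_insert_self _ _)
      have e1 : ((a i * ∏ j ∈ S, a j : Circle) : ℂ) - (b i * ∏ j ∈ S, b j : Circle) =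
          ((a i : ℂ) - b i) * (∏ j ∈ S, a j : Circle) +
            (b i : ℂ) * (((∏ j ∈ S, a j : Circle) : ℂ) - (∏ j ∈ S, b j : Circle)) := by
        rw [Circle.coe_mul, Circle.coe_mul]
        ring
      rw [e1]
      refine (norm_add_le _ _).trans ?_
      rw [norm_mul, norm_mul, Circle.norm_coe, Circle.norm_coe, mul_one, one_mul]
      linarith

theorem pow_lip (n : ℕ) (a b : Circle) {δ : ℝ} (h : ‖(a : ℂ) - b‖ ≤ δ) :
    ‖((a ^ n : Circle) : ℂ) - (b ^ n : Circle)‖ ≤ n * δ := by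
  have h1 := prod_lip (Finset.range n) (fun _ => a) (fun _ => b) (δ := fun _ => δ) fun _ _ => h
  simpa using h1

section
variable {m : ℕ} [NeZero m] {K : Type} [Field K] [NumberField K]
  [IsCyclotomicExtension {m} ℚ K]

variable (m K) in
/-- the type at infinity -/
noncomputable def chinf (W : (ZMod m)ˣ → ℕ) (τ : K →+* ℂ) (x : 𝓞 K) : Circle :=
  cz (τ ((xw m K W x : 𝓞 K) : K))

variable {W : (ZMod m)ˣ → ℕ}

theorem chinf_mul (τ : K →+* ℂ) {x y : 𝓞 K} (hx : x ≠ 0) (hy : y ≠ 0) :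
    chinf m K W τ (x * y) = chinf m K W τ x * chinf m K W τ y := by
  unfold chinf
  rw [xw_mul, ← cz_mul (emb_ne τ (xw_ne hx)) (emb_ne τ (xw_ne hy)), ← map_mul]
  rfl

theorem cz_prod (τ : K →+* ℂ) {ι : Type} (S : Finset ι) (f : ι → 𝓞 K) (hf : ∀ i ∈ S, f i ≠ 0) :
    cz (τ ((∏ i ∈ S, f i : 𝓞 K) : K)) = ∏ i ∈ S, cz (τ (f i : K)) := by
  classical
  induction S using Finset.induction_on with
  | empty =>
      rw [Finset.prod_empty, Finset.prod_empty]
      have : ((1 : 𝓞 K) : K) = 1 := map_one (algebraMap (𝓞 K) K)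
      rw [this, map_one, cz_one]
  | insert t S ht ih =>
      have h1 := hf t (Finset.mem_insert_self _ _)
      have h2 : ∀ i ∈ S, f i ≠ 0 := fun i hi => hf i (Finset.mem_insert_of_mem hi)
      rw [Finset.prod_insert ht, Finset.prod_insert ht, ← ih h2]
      have e : ((f t * ∏ i ∈ S, f i : 𝓞 K) : K) = (f t : K) * ((∏ i ∈ S, f i : 𝓞 K) : K) :=
        map_mul (algebraMap (𝓞 K) K) _ _
      rw [e, map_mul, cz_mul (emb_ne τ h1) (emb_ne τ (Finset.prod_ne_zero_iff.2 h2))]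

theorem cz_pow (τ : K →+* ℂ) {x : 𝓞 K} (hx : x ≠ 0) (n : ℕ) :
    cz (τ ((x ^ n : 𝓞 K) : K)) = cz (τ (x : K)) ^ n := by
  have h := cz_prod τ (Finset.range n) (fun _ => x) fun _ _ => hx
  simpa using h

theorem chinf_prod (τ : K →+* ℂ) {x : 𝓞 K} (hx : x ≠ 0) :
    chinf m K W τ x = ∏ t : (ZMod m)ˣ, cz (τ (sa m K t⁻¹ x : K)) ^ W t := by
  unfold chinf xw
  rw [cz_prod τ _ _ fun i _ => pow_ne_zero _ (sa_ne hx)]
  exact Finset.prod_congr rfl fun t _ => cz_pow τ (sa_ne hx) _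

theorem chinf_lip (τ : K →+* ℂ) : ∃ L : ℝ, 0 ≤ L ∧ ∀ x x' : 𝓞 K, x ≠ 0 → x' ≠ 0 → ∀ δ : ℝ, 0 ≤ δ →
    (∀ w : InfinitePlace K, w ((x' : K) - (x : K)) ≤ δ * w (x : K)) →
    ‖(chinf m K W τ x' : ℂ) - chinf m K W τ x‖ ≤ L * δ := by
  refine ⟨∑ t : (ZMod m)ˣ, (W t : ℝ) * 2, by positivity, fun x x' hx hx' δ hδ hw => ?_⟩
  rw [chinf_prod τ hx, chinf_prod τ hx', Finset.sum_mul]
  refine prod_lip _ _ _ fun t _ => ?_
  rw [mul_assoc]
  refine pow_lip _ _ _ (cz_lip (emb_ne τ (sa_ne hx)) (emb_ne τ (sa_ne hx')) ?_)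
  have h1 := hw (InfinitePlace.mk (τ.comp ((gal m K t⁻¹).toRingEquiv : K →+* K)))
  rw [InfinitePlace.apply, InfinitePlace.apply, map_sub] at h1
  exact h1

end

section
variable {K : Type} [Field K] [NumberField K]

/-- the ideal as a unit of the group of fractional ideals -/
noncomputable def ui (I : Ideal (𝓞 K)) (h : I ≠ ⊥) : (FractionalIdeal (𝓞 K)⁰ K)ˣ :=
  Units.mk0 (I : FractionalIdeal (𝓞 K)⁰ K) (FractionalIdeal.coeIdeal_ne_zero.2 h)

theorem ui_mul {I I' : Ideal (𝓞 K)} (h : I ≠ ⊥) (h' : I' ≠ ⊥) (h2 : I * I' ≠ ⊥) :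
    ui (I * I') h2 = ui I h * ui I' h' := by
  apply Units.ext
  unfold ui
  rw [Units.val_mul, Units.val_mk0, Units.val_mk0, Units.val_mk0, FractionalIdeal.coeIdeal_mul]

/-- a multiplicative relation between ideals and points of the circle -/
structure MRel (R : Ideal (𝓞 K) → Circle → Prop) : Prop where
  top : R ⊤ 1
  mul : ∀ I I' c c', R I c → R I' c' → R (I * I') (c * c')
  uniq : ∀ I c c', I ≠ ⊥ → R I c → R I c' → c = c'

theorem exists_psi {R : Ideal (𝓞 K) → Circle → Prop} (hR : MRel R) :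
    ∃ ψ : (FractionalIdeal (𝓞 K)⁰ K)ˣ →* Circle,
    ∀ (I : Ideal (𝓞 K)) (h : I ≠ ⊥) (c : Circle), R I c → ψ (ui I h) = c := by
  classical
  let P : Submonoid (FractionalIdeal (𝓞 K)⁰ K)ˣ :=
    { carrier := {g | ∃ (I : Ideal (𝓞 K)) (h : I ≠ ⊥) (c : Circle), g = ui I h ∧ R I c}
      mul_mem' := by
        rintro g g' ⟨I, h, x, rfl, hx⟩ ⟨I', h', x', rfl, hx'⟩
        exact ⟨I * I', mul_ne_zero h h', x * x', (ui_mul h h' _).symm, hR.mul _ _ _ _ hx hx'⟩
      one_mem' := by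
        refine ⟨⊤, top_ne_bot, 1, ?_, hR.top⟩
        apply Units.ext
        unfold ui
        rw [Units.val_mk0, Units.val_one, FractionalIdeal.coeIdeal_top] }
  have hP : ∀ g : P, ∃ (I : Ideal (𝓞 K)) (h : I ≠ ⊥) (c : Circle), (g : _) = ui I h ∧ R I c :=
    fun g => g.2
  choose I hI x hg hx using hP
  have huniq : ∀ (g : P) (I' : Ideal (𝓞 K)) (h' : I' ≠ ⊥) (x' : Circle),
      (g : (FractionalIdeal (𝓞 K)⁰ K)ˣ) = ui I' h' → R I' x' → x' = x g := by
    intro g I' h' x' h1 h2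
    have h3 := congrArg Units.val (h1.symm.trans (hg g))
    unfold ui at h3
    rw [Units.val_mk0, Units.val_mk0, FractionalIdeal.coeIdeal_inj] at h3
    subst h3
    exact hR.uniq _ _ _ h' h2 (hx g)
  let g : P →* Circle :=
    { toFun := x
      map_one' := by
        refine (huniq 1 ⊤ top_ne_bot 1 ?_ hR.top).symm
        apply Units.ext
        unfold ui
        rw [Units.val_mk0, FractionalIdeal.coeIdeal_top]
        rfl
      map_mul' := by
        intro y z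
        refine (huniq (y * z) (I y * I z) (mul_ne_zero (hI y) (hI z)) _ ?_
          (hR.mul _ _ _ _ (hx y) (hx z))).symm
        rw [ui_mul (hI y) (hI z), ← hg y, ← hg z]
        rfl }
  obtain ⟨ψ, hψ⟩ := exists_ext_monoid P g
  refine ⟨ψ, fun I' h' x' hx' => ?_⟩
  have hmem : ui I' h' ∈ P := ⟨I', h', x', rfl, hx'⟩
  have h1 := hψ ⟨ui I' h', hmem⟩
  have h2 := huniq ⟨ui I' h', hmem⟩ I' h' x' rfl hx'
  rw [h1, h2]
  rfl

theorem coprime_ne {N : Ideal (𝓞 K)} (hN : N ≠ ⊤) (I : Ideal (𝓞 K)) (h : IsCoprime I N) :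
    I ≠ ⊥ := by
  rintro rfl
  rw [Ideal.isCoprime_iff_sup_eq, bot_sup_eq] at h
  exact hN h

/-- **Construction of Hecke characters.** -/
theorem exists_hecke {R : Ideal (𝓞 K) → Circle → Prop} (hR : MRel R) {N : Ideal (𝓞 K)}
    (hN0 : N ≠ ⊥) (hN1 : N ≠ ⊤) {ci : 𝓞 K → Circle}
    (hmul : ∀ x y, x ≠ 0 → y ≠ 0 → ci (x * y) = ci x * ci y)
    (hlip : ∃ L : ℝ, 0 ≤ L ∧ ∀ x x' : 𝓞 K, x ≠ 0 → x' ≠ 0 → ∀ δ : ℝ, 0 ≤ δ →
      (∀ w : InfinitePlace K, w ((x' : K) - (x : K)) ≤ δ * w (x : K)) →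
      ‖(ci x' : ℂ) - ci x‖ ≤ L * δ)
    (hprin : ∀ α : 𝓞 K, α ≠ 0 → α - 1 ∈ N → R (span {α}) (ci α)) :
    ∃ χ : Ideal (𝓞 K) → ℂ, Hk χ N (fun x => (ci x : ℂ)) ∧
    ∀ (I : Ideal (𝓞 K)) (c : Circle), IsCoprime I N → R I c → χ I = (c : ℂ) := by
  classical
  obtain ⟨ψ, hψ⟩ := exists_psi hR
  let χ : Ideal (𝓞 K) → ℂ := fun I =>
    if h : IsCoprime I N then (ψ (ui I (coprime_ne hN1 I h)) : ℂ) else 0
  have hχ : ∀ I (h : IsCoprime I N), χ I = (ψ (ui I (coprime_ne hN1 I h)) : ℂ) :=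
    fun I h => dif_pos h
  refine ⟨χ, ⟨hN0, fun I hI => dif_neg hI, fun I hI => ?_, fun I I' => ?_, fun α h0 h1 => ?_,
    fun x y hx hy => ?_, fun x _ => Circle.norm_coe _, hlip⟩, fun I x hI hx => ?_⟩
  · rw [hχ I hI, Circle.norm_coe]
  · by_cases h : IsCoprime (I * I') N
    · have h1 := IsCoprime.mul_left_iff.1 h
      rw [hχ _ h, hχ _ h1.1, hχ _ h1.2, ui_mul (coprime_ne hN1 I h1.1) (coprime_ne hN1 I' h1.2),
        map_mul, Circle.coe_mul]
    · rw [show χ (I * I') = 0 from dif_neg h]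
      have h1 : ¬ IsCoprime I N ∨ ¬ IsCoprime I' N := by
        by_contra h2
        push Not at h2
        exact h (IsCoprime.mul_left_iff.2 h2)
      rcases h1 with h1 | h1
      · rw [show χ I = 0 from dif_neg h1, zero_mul]
      · rw [show χ I' = 0 from dif_neg h1, mul_zero]
  · have h2 : IsCoprime (span {α}) N := coprime_span h1
    rw [hχ _ h2, hψ _ _ _ (hprin α h0 h1)]
  · rw [hmul x y hx hy, Circle.coe_mul]
  · rw [hχ _ hI, hψ _ _ _ hx]

/-- products of Hecke characters -/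
theorem hk_mul {χ χ' : Ideal (𝓞 K) → ℂ} {N N' : Ideal (𝓞 K)} {ci ci' : 𝓞 K → ℂ}
    (h : Hk χ N ci) (h' : Hk χ' N' ci') :
    Hk (fun I => χ I * χ' I) (N * N') (fun x => ci x * ci' x) := by
  refine ⟨mul_ne_zero h.m0 h'.m0, fun I hI => ?_, fun I hI => ?_, fun I I' => ?_,
    fun α h0 h1 => ?_, fun x y hx hy => ?_, fun x hx => ?_, ?_⟩
  · have h1 : ¬ IsCoprime I N ∨ ¬ IsCoprime I N' := by
      by_contra h2
      push Not at h2
      exact hI (IsCoprime.mul_right h2.1 h2.2)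
    rcases h1 with h1 | h1
    · rw [h.zero I h1, zero_mul]
    · rw [h'.zero I h1, mul_zero]
  · have h1 := IsCoprime.mul_right_iff.1 hI
    rw [norm_mul, h.one I h1.1, h'.one I h1.2, mul_one]
  · rw [h.mul, h'.mul]
    ring
  · have a1 : N * N' ≤ N := Ideal.mul_le_left
    have a2 : N * N' ≤ N' := Ideal.mul_le_right
    have e1 : α - 1 ∈ N := a1 h1
    have e2 : α - 1 ∈ N' := a2 h1
    rw [h.prin α h0 e1, h'.prin α h0 e2]
  · rw [h.imul x y hx hy, h'.imul x y hx hy]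
    ring
  · rw [norm_mul, h.ione x hx, h'.ione x hx, mul_one]
  · obtain ⟨L, hL0, hL⟩ := h.lip
    obtain ⟨L', hL0', hL'⟩ := h'.lip
    refine ⟨L + L', by positivity, fun x x' hx hx' δ hδ hw => ?_⟩
    have h1 := hL x x' hx hx' δ hδ hw
    have h2 := hL' x x' hx hx' δ hδ hw
    have e1 : ci x' * ci' x' - ci x * ci' x =
        (ci x' - ci x) * ci' x' + ci x * (ci' x' - ci' x) := by ring
    rw [e1]
    refine (norm_add_le _ _).trans ?_
    rw [norm_mul, norm_mul, h.ione x hx, h'.ione x' hx', mul_one, one_mul, add_mul]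
    exact add_le_add h1 h2

end

end Pool.Agent.NH35.HD
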