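import Pool.Agent.NH35.HD.Cs
import Pool.Agent.Y149.PK.Comb

/-! The products of a variety with several curves. -/

set_option autoImplicit false
set_option linter.unusedSectionVars false
open Filter Topology Finset Polynomial
open Pool.Agent.H341R2 (E lam lam_tendsto)
open Pool.Agent.Y149.PK
open Pool.Agent.Y149.CM (LFun nt kunneth)

namespace Pool.Agent.NH35.HD

section
variable {ι : Type} {p : ι → ℕ} {k : ι → ℤ}

/-- the normalised trace on `H¹`, cut off at the exceptional primes -/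
noncomputable def TC (p : ℕ) (k : ℤ) (ℓ : Nat.Primes) : ℝ :=
  if |TT p k ℓ| ≤ (p : ℝ) - 1 then TT p k ℓ else 0

/-- the normalised traces on the cohomology groups -/
noncomputable def TF (p : ι → ℕ) (k : ι → ℤ) (e : ι) (c : ℕ) (ℓ : Nat.Primes) : ℝ :=
  tE c + vE c * TC (p e) (k e) ℓ

/-- the product of the traces on `H¹` -/
noncomputable def TP (p : ι → ℕ) (k : ι → ℤ) (S : List ι) (ℓ : Nat.Primes) : ℝ :=
  (S.map fun i => TC (p i) (k i) ℓ).prod

theorem TC_le {p : ℕ} (hp : 1 ≤ p) (k : ℤ) (ℓ : Nat.Primes) : |TC p k ℓ| ≤ (p : ℝ) - 1 := by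
  unfold TC
  split_ifs with h
  · exact h
  · rw [abs_zero]
    have : (1 : ℝ) ≤ p := by exact_mod_cast hp
    linarith

theorem TC_le' (p : ℕ) (k : ℤ) (ℓ : Nat.Primes) : |TC p k ℓ| ≤ |TT p k ℓ| := by
  unfold TC
  split_ifs with h
  · exact le_rfl
  · rw [abs_zero]
    exact abs_nonneg _

theorem TP_le (S : List ι) (ℓ : Nat.Primes) :
    |TP p k S ℓ| ≤ |(S.map fun i => TT (p i) (k i) ℓ).prod| := by
  unfold TP
  induction S with
  | nil => simp
  | cons i S ih =>
      rw [List.map_cons, List.map_cons, List.prod_cons, List.prod_cons, abs_mul, abs_mul]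
      exact mul_le_mul (TC_le' _ _ _) ih (abs_nonneg _) (abs_nonneg _)

theorem TP_bdd (hC : IsCurveFamily p k) (S : List ι) (ℓ : Nat.Primes) :
    |TP p k S ℓ| ≤ (S.map fun i => ((p i : ℝ) - 1)).prod := by
  unfold TP
  induction S with
  | nil => simp
  | cons i S ih =>
      rw [List.map_cons, List.map_cons, List.prod_cons, List.prod_cons, abs_mul]
      have h1 : (1 : ℝ) ≤ p i := by exact_mod_cast (hC.prime i).one_le
      exact mul_le_mul (TC_le (hC.prime i).one_le _ _) ih (abs_nonneg _) (by linarith)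

theorem tE_nonneg (c : ℕ) : 0 ≤ tE c := by
  unfold tE
  split_ifs <;> norm_num

theorem vE_nonneg (c : ℕ) : 0 ≤ vE c := by
  unfold vE
  split_ifs <;> norm_num

theorem te_ve (c : ℕ) : tE c + vE c ≤ 1 := by
  unfold tE vE
  split_ifs with h1 h2
  · omega
  · norm_num
  · norm_num
  · norm_num

theorem bettiC_eq {p : ℕ} (hp : 1 ≤ p) (c : ℕ) :
    (bettiC p c : ℝ) = tE c + vE c * ((p : ℝ) - 1) := by
  unfold bettiC tE vE
  split_ifs with h1 h2
  · omega
  · simp
  · rw [Nat.cast_sub hp]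
    simp
  · simp

theorem weightC_eq (p : ℕ) (c : ℕ) :
    weightC p c = tE c + vE c * (1 / Real.sqrt ((p : ℝ) - 1)) := by
  unfold weightC tE vE
  split_ifs with h1 h2
  · omega
  · simp
  · simp
  · simp

theorem weightC_nonneg (p : ℕ) (c : ℕ) : 0 ≤ weightC p c := by
  rw [weightC_eq]
  have := tE_nonneg c
  have := vE_nonneg c
  positivity

theorem TF_le (hC : IsCurveFamily p k) (e : ι) (c : ℕ) (ℓ : Nat.Primes) :
    |TF p k e c ℓ| ≤ (bettiC (p e) c : ℝ) := by
  rw [bettiC_eq (hC.prime e).one_le]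
  unfold TF
  refine (abs_add_le _ _).trans (add_le_add ?_ ?_)
  · rw [abs_of_nonneg (tE_nonneg c)]
  · rw [abs_mul, abs_of_nonneg (vE_nonneg c)]
    exact mul_le_mul_of_nonneg_left (TC_le (hC.prime e).one_le _ _) (vE_nonneg c)

/-- the dimensions as real numbers -/
theorem QQ_cast (z : ℕ → ℕ) (τ : ι → ℕ → ℕ) (l : List ι) (n : ℕ) :
    ((QQ z τ l n : ℕ) : ℝ) = QQ (fun c => (z c : ℝ)) (fun e c => (τ e c : ℝ)) l n := by
  induction l generalizing n with
  | nil => rfl
  | cons e l ih =>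
      rw [QQ, QQ]
      push_cast
      exact Finset.sum_congr rfl fun x _ => by rw [ih]

theorem QQ_nonneg {z : ℕ → ℝ} {τ : ι → ℕ → ℝ} (hz : ∀ c, 0 ≤ z c) (hτ : ∀ e c, 0 ≤ τ e c)
    (l : List ι) (n : ℕ) : 0 ≤ QQ z τ l n := by
  induction l generalizing n with
  | nil => exact hz n
  | cons e l ih => exact Finset.sum_nonneg fun x _ => mul_nonneg (ih _) (hτ _ _)

variable {Z : ℕ → Nat.Primes → ℝ} {b : ℕ → ℝ}

theorem PP_bd {T : ι → ℕ → Nat.Primes → ℝ} {N : ι → ℕ → ℝ} (hT : ∀ e c ℓ, |T e c ℓ| ≤ N e c)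
    (hZ : ∀ n ℓ, |Z n ℓ| ≤ b n) (l : List ι) (n : ℕ) (ℓ : Nat.Primes) :
    |PP Z T l n ℓ| ≤ QQ b N l n := by
  induction l generalizing n with
  | nil => exact hZ n ℓ
  | cons e l ih =>
      rw [PP, QQ]
      refine (Finset.abs_sum_le_sum_abs _ _).trans (Finset.sum_le_sum fun x _ => ?_)
      rw [abs_mul]
      exact mul_le_mul (ih x.1) (hT e x.2 ℓ) (abs_nonneg _) ((abs_nonneg _).trans (ih x.1))

theorem PP_cons (e : ι) (l : List ι) (n : ℕ) (ℓ : Nat.Primes) :
    PP Z (TF p k) (e :: l) n ℓ = ∑ x ∈ antidiagonal n,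
      (tE x.2 * PP Z (TF p k) l x.1 ℓ + vE x.2 * (PP Z (TF p k) l x.1 ℓ * TP p k [e] ℓ)) := by
  rw [PP]
  refine Finset.sum_congr rfl fun x _ => ?_
  unfold TF TP
  simp
  ring

theorem TP_PP_cons (S : List ι) (e : ι) (l : List ι) (n : ℕ) (ℓ : Nat.Primes) :
    PP Z (TF p k) (e :: l) n ℓ * TP p k S ℓ = ∑ x ∈ antidiagonal n,
      (tE x.2 * (PP Z (TF p k) l x.1 ℓ * TP p k S ℓ) +
        vE x.2 * (PP Z (TF p k) l x.1 ℓ * TP p k (e :: S) ℓ)) := by
  rw [PP_cons, Finset.sum_mul]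
  refine Finset.sum_congr rfl fun x _ => ?_
  unfold TP
  simp
  ring

/-- the mean of a linear combination -/
theorem E_comb {ε : ℝ} (hε : 0 < ε) {κ : Type} (A : Finset κ) (s t : κ → ℝ)
    (φ ψ : κ → Nat.Primes → ℝ) (B B' : κ → ℝ) (hφ : ∀ x p, |φ x p| ≤ B x)
    (hψ : ∀ x p, |ψ x p| ≤ B' x) :
    E ε (fun p => ∑ x ∈ A, (s x * φ x p + t x * ψ x p)) =
      ∑ x ∈ A, (s x * E ε (φ x) + t x * E ε (ψ x)) := by
  have h1 : ∀ x p, |s x * φ x p| ≤ |s x| * B x := fun x p => by
    rw [abs_mul]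
    exact mul_le_mul_of_nonneg_left (hφ x p) (abs_nonneg _)
  have h2 : ∀ x p, |t x * ψ x p| ≤ |t x| * B' x := fun x p => by
    rw [abs_mul]
    exact mul_le_mul_of_nonneg_left (hψ x p) (abs_nonneg _)
  rw [E_fsum hε A _ (fun x => |s x| * B x + |t x| * B' x) fun x _ p =>
    (abs_add_le _ _).trans (add_le_add (h1 x p) (h2 x p))]
  refine Finset.sum_congr rfl fun x _ => ?_
  rw [E_add' hε (h1 x) (h2 x), E_smul, E_smul]

theorem PP_TP_bd (hC : IsCurveFamily p k) (hZ : ∀ n ℓ, |Z n ℓ| ≤ b n) (S l : List ι) (n : ℕ)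
    (ℓ : Nat.Primes) : |PP Z (TF p k) l n ℓ * TP p k S ℓ| ≤
      QQ b (fun e c => (bettiC (p e) c : ℝ)) l n * (S.map fun i => ((p i : ℝ) - 1)).prod := by
  rw [abs_mul]
  have h1 := PP_bd (TF_le hC) hZ l n ℓ
  exact mul_le_mul h1 (TP_bdd hC S ℓ) (abs_nonneg _) ((abs_nonneg _).trans h1)

/-- **The mixed means.** -/
theorem mixed (hC : IsCurveFamily p k) (hZ : ∀ n ℓ, |Z n ℓ| ≤ b n) (l : List ι) :
    ∀ (S : List ι), S ≠ [] → ((S ++ l).map p).Nodup → ∀ (n : ℕ) (η : ℝ), 0 < η →
    ∀ᶠ ε : ℝ in 𝓝[>] 0, |E ε (fun ℓ => PP Z (TF p k) l n ℓ * TP p k S ℓ)| ≤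
      (QQ b (fun e c => weightC (p e) c) l n /
        Real.sqrt (S.map fun i => ((p i : ℝ) - 1)).prod + η) * lam ε := by
  induction l with
  | nil =>
      intro S hS hnd n η hη
      rw [List.append_nil] at hnd
      exact corr hC hS hnd (Z n) (hZ n) _ (TP_le S) hη
  | cons e l ih =>
      intro S hS hnd n η hη
      have hnd1 : ((S ++ l).map p).Nodup := by
        refine List.Nodup.sublist ?_ hnd
        exact ((List.Sublist.refl S).append (List.sublist_cons_self e l)).map p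
      have hnd2 : (((e :: S) ++ l).map p).Nodup := by
        have h1 : ((e :: S) ++ l).Perm (S ++ e :: l) := List.perm_middle.symm
        exact (h1.map p).nodup_iff.2 hnd
      set f : ℝ := (S.map fun i => ((p i : ℝ) - 1)).prod with hf
      have hf0 : 0 < f := fprod_pos hC S
      have hp1 : (0 : ℝ) < (p e : ℝ) - 1 := by
        have h1 : (1 : ℝ) < p e := by exact_mod_cast (hC.prime e).one_lt
        linarith
      set η' : ℝ := η / (n + 1) with hη'
      have hη0 : 0 < η' := by positivity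
      have h1 : ∀ᶠ ε : ℝ in 𝓝[>] 0, ∀ a ∈ Finset.range (n + 1),
          |E ε (fun ℓ => PP Z (TF p k) l a ℓ * TP p k S ℓ)| ≤
          (QQ b (fun e c => weightC (p e) c) l a / Real.sqrt f + η') * lam ε := by
        rw [Filter.eventually_all_finset]
        exact fun a _ => ih S hS hnd1 a η' hη0
      have h2 : ∀ᶠ ε : ℝ in 𝓝[>] 0, ∀ a ∈ Finset.range (n + 1),
          |E ε (fun ℓ => PP Z (TF p k) l a ℓ * TP p k (e :: S) ℓ)| ≤
          (QQ b (fun e c => weightC (p e) c) l a /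
            Real.sqrt ((e :: S).map fun i => ((p i : ℝ) - 1)).prod + η') * lam ε := by
        rw [Filter.eventually_all_finset]
        exact fun a _ => ih (e :: S) (List.cons_ne_nil _ _) hnd2 a η' hη0
      filter_upwards [h1, h2, lam_pos, self_mem_nhdsWithin] with ε g1 g2 g3 g4
      have hε : (0 : ℝ) < ε := g4
      have e1 : (fun ℓ => PP Z (TF p k) (e :: l) n ℓ * TP p k S ℓ) = fun ℓ =>
          ∑ x ∈ antidiagonal n, (tE x.2 * (PP Z (TF p k) l x.1 ℓ * TP p k S ℓ) +
            vE x.2 * (PP Z (TF p k) l x.1 ℓ * TP p k (e :: S) ℓ)) := by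
        funext ℓ
        exact TP_PP_cons S e l n ℓ
      rw [e1, E_comb hε (antidiagonal n) (fun x => tE x.2) (fun x => vE x.2)
        (fun x ℓ => PP Z (TF p k) l x.1 ℓ * TP p k S ℓ)
        (fun x ℓ => PP Z (TF p k) l x.1 ℓ * TP p k (e :: S) ℓ) _ _
        (fun x ℓ => PP_TP_bd hC hZ S l x.1 ℓ) (fun x ℓ => PP_TP_bd hC hZ (e :: S) l x.1 ℓ)]
      have hsq : Real.sqrt ((e :: S).map fun i => ((p i : ℝ) - 1)).prod =
          Real.sqrt ((p e : ℝ) - 1) * Real.sqrt f := by
        rw [List.map_cons, List.prod_cons, Real.sqrt_mul hp1.le]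
      rw [hsq] at g2
      have hmem : ∀ x ∈ antidiagonal n, x.1 ∈ Finset.range (n + 1) := fun x hx => by
        have := mem_antidiagonal.1 hx
        exact Finset.mem_range.2 (by omega)
      have hbound : ∀ x ∈ antidiagonal n,
          |tE x.2 * E ε (fun ℓ => PP Z (TF p k) l x.1 ℓ * TP p k S ℓ) +
            vE x.2 * E ε (fun ℓ => PP Z (TF p k) l x.1 ℓ * TP p k (e :: S) ℓ)| ≤
          (QQ b (fun e c => weightC (p e) c) l x.1 * weightC (p e) x.2 / Real.sqrt f + η') *
            lam ε := by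
        intro x hx
        have a1 := g1 x.1 (hmem x hx)
        have a2 := g2 x.1 (hmem x hx)
        have t0 := tE_nonneg x.2
        have v0 := vE_nonneg x.2
        have tv := te_ve x.2
        refine (abs_add_le _ _).trans ?_
        rw [abs_mul, abs_mul, abs_of_nonneg t0, abs_of_nonneg v0]
        have b1 := mul_le_mul_of_nonneg_left a1 t0
        have b2 := mul_le_mul_of_nonneg_left a2 v0
        rw [weightC_eq]
        set Q := QQ b (fun e c => weightC (p e) c) l x.1
        have e3 : (Q * (tE x.2 + vE x.2 * (1 / Real.sqrt ((p e : ℝ) - 1))) / Real.sqrt f + η') *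
            lam ε = tE x.2 * ((Q / Real.sqrt f + η') * lam ε) +
            vE x.2 * ((Q / (Real.sqrt ((p e : ℝ) - 1) * Real.sqrt f) + η') * lam ε) +
            (1 - (tE x.2 + vE x.2)) * (η' * lam ε) := by
          rw [← div_div]
          ring
        rw [e3]
        have b3 : 0 ≤ (1 - (tE x.2 + vE x.2)) * (η' * lam ε) :=
          mul_nonneg (by linarith) (by positivity)
        linarith
      refine (Finset.abs_sum_le_sum_abs _ _).trans ((Finset.sum_le_sum hbound).trans_eq ?_)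
      rw [← Finset.sum_mul, Finset.sum_add_distrib, ← Finset.sum_div, Finset.sum_const,
        Finset.Nat.card_antidiagonal, nsmul_eq_mul]
      congr 2
      rw [hη']
      push_cast
      field_simp

/-- **The means of the traces of the product.** -/
theorem mean (hC : IsCurveFamily p k) (hZ : ∀ n ℓ, |Z n ℓ| ≤ b n) (l : List ι) :
    (l.map p).Nodup → ∀ (n : ℕ) (η : ℝ), 0 < η →
    ∀ᶠ ε : ℝ in 𝓝[>] 0, |E ε (PP Z (TF p k) l n) - QQ (fun c => E ε (Z c)) (fun _ => tE) l n| ≤
      (QQ b (fun e c => weightC (p e) c) l n - QQ b (fun _ => tE) l n + η) * lam ε := by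
  induction l with
  | nil =>
      intro _ n η hη
      filter_upwards [lam_pos] with ε g1
      rw [PP, QQ, QQ, QQ, sub_self, sub_self, abs_zero, zero_add]
      positivity
  | cons e l ih =>
      intro hnd n η hη
      have hnd1 : (l.map p).Nodup := by
        rw [List.map_cons, List.nodup_cons] at hnd
        exact hnd.2
      have hp1 : (0 : ℝ) < (p e : ℝ) - 1 := by
        have h1 : (1 : ℝ) < p e := by exact_mod_cast (hC.prime e).one_lt
        linarith
      set η' : ℝ := η / (n + 1) with hη'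
      have hη0 : 0 < η' := by positivity
      have h1 : ∀ᶠ ε : ℝ in 𝓝[>] 0, ∀ a ∈ Finset.range (n + 1),
          |E ε (PP Z (TF p k) l a) - QQ (fun c => E ε (Z c)) (fun _ => tE) l a| ≤
          (QQ b (fun e c => weightC (p e) c) l a - QQ b (fun _ => tE) l a + η') * lam ε := by
        rw [Filter.eventually_all_finset]
        exact fun a _ => ih hnd1 a η' hη0
      have h2 : ∀ᶠ ε : ℝ in 𝓝[>] 0, ∀ a ∈ Finset.range (n + 1),
          |E ε (fun ℓ => PP Z (TF p k) l a ℓ * TP p k [e] ℓ)| ≤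
          (QQ b (fun e c => weightC (p e) c) l a /
            Real.sqrt ([e].map fun i => ((p i : ℝ) - 1)).prod + η') * lam ε := by
        rw [Filter.eventually_all_finset]
        exact fun a _ => mixed hC hZ l [e] (List.cons_ne_nil _ _) (by simpa using hnd) a η' hη0
      filter_upwards [h1, h2, lam_pos, self_mem_nhdsWithin] with ε g1 g2 g3 g4
      have hε : (0 : ℝ) < ε := g4
      have e1 : PP Z (TF p k) (e :: l) n = fun ℓ =>
          ∑ x ∈ antidiagonal n, (tE x.2 * PP Z (TF p k) l x.1 ℓ +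
            vE x.2 * (PP Z (TF p k) l x.1 ℓ * TP p k [e] ℓ)) := by
        funext ℓ
        exact PP_cons e l n ℓ
      rw [e1, E_comb hε (antidiagonal n) (fun x => tE x.2) (fun x => vE x.2)
        (fun x ℓ => PP Z (TF p k) l x.1 ℓ)
        (fun x ℓ => PP Z (TF p k) l x.1 ℓ * TP p k [e] ℓ) _ _
        (fun x ℓ => PP_bd (TF_le hC) hZ l x.1 ℓ) (fun x ℓ => PP_TP_bd hC hZ [e] l x.1 ℓ)]
      have hsq : Real.sqrt ([e].map fun i => ((p i : ℝ) - 1)).prod =
          Real.sqrt ((p e : ℝ) - 1) := by simp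
      rw [hsq] at g2
      have hmem : ∀ x ∈ antidiagonal n, x.1 ∈ Finset.range (n + 1) := fun x hx => by
        have := mem_antidiagonal.1 hx
        exact Finset.mem_range.2 (by omega)
      rw [QQ, ← Finset.sum_sub_distrib]
      have hbound : ∀ x ∈ antidiagonal n,
          |(tE x.2 * E ε (fun ℓ => PP Z (TF p k) l x.1 ℓ) +
            vE x.2 * E ε (fun ℓ => PP Z (TF p k) l x.1 ℓ * TP p k [e] ℓ)) -
            QQ (fun c => E ε (Z c)) (fun _ => tE) l x.1 * tE x.2| ≤
          (QQ b (fun e c => weightC (p e) c) l x.1 * weightC (p e) x.2 -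
            QQ b (fun _ => tE) l x.1 * tE x.2 + η') * lam ε := by
        intro x hx
        have a1 := g1 x.1 (hmem x hx)
        have a2 := g2 x.1 (hmem x hx)
        have t0 := tE_nonneg x.2
        have v0 := vE_nonneg x.2
        have tv := te_ve x.2
        have e2 : (tE x.2 * E ε (fun ℓ => PP Z (TF p k) l x.1 ℓ) +
            vE x.2 * E ε (fun ℓ => PP Z (TF p k) l x.1 ℓ * TP p k [e] ℓ)) -
            QQ (fun c => E ε (Z c)) (fun _ => tE) l x.1 * tE x.2 =
            tE x.2 * (E ε (PP Z (TF p k) l x.1) - QQ (fun c => E ε (Z c)) (fun _ => tE) l x.1) +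
            vE x.2 * E ε (fun ℓ => PP Z (TF p k) l x.1 ℓ * TP p k [e] ℓ) := by ring
        rw [e2]
        refine (abs_add_le _ _).trans ?_
        rw [abs_mul, abs_mul, abs_of_nonneg t0, abs_of_nonneg v0]
        have b1 := mul_le_mul_of_nonneg_left a1 t0
        have b2 := mul_le_mul_of_nonneg_left a2 v0
        rw [weightC_eq]
        set Q := QQ b (fun e c => weightC (p e) c) l x.1
        set Q' := QQ b (fun _ => tE) l x.1
        have e3 : (Q * (tE x.2 + vE x.2 * (1 / Real.sqrt ((p e : ℝ) - 1))) - Q' * tE x.2 + η') *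
            lam ε = tE x.2 * ((Q - Q' + η') * lam ε) +
            vE x.2 * ((Q / Real.sqrt ((p e : ℝ) - 1) + η') * lam ε) +
            (1 - (tE x.2 + vE x.2)) * (η' * lam ε) := by ring
        rw [e3]
        have b3 : 0 ≤ (1 - (tE x.2 + vE x.2)) * (η' * lam ε) :=
          mul_nonneg (by linarith) (by positivity)
        linarith
      refine (Finset.abs_sum_le_sum_abs _ _).trans ((Finset.sum_le_sum hbound).trans_eq ?_)
      rw [← Finset.sum_mul, Finset.sum_add_distrib, Finset.sum_sub_distrib, Finset.sum_const,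
        Finset.Nat.card_antidiagonal, nsmul_eq_mul, QQ, QQ]
      congr 2
      rw [hη']
      push_cast
      field_simp

/-- **One more curve.** -/
theorem mean_one (hC : IsCurveFamily p k) (hZ : ∀ n ℓ, |Z n ℓ| ≤ b n) (e : ι) (l : List ι)
    (n : ℕ) (η : ℝ) (hη : 0 < η) :
    ∀ᶠ ε : ℝ in 𝓝[>] 0, |E ε (PP Z (TF p k) (e :: l) n) -
      ∑ x ∈ antidiagonal n, E ε (PP Z (TF p k) l x.1) * tE x.2| ≤
      (QQ b (fun e c => (bettiC (p e) c : ℝ)) l (n - 1) / Real.sqrt ((p e : ℝ) - 1) + η) *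
        lam ε := by
  have h2 := corr hC (S := [e]) (List.cons_ne_nil _ _) (by simp)
    (PP Z (TF p k) l (n - 1)) (PP_bd (TF_le hC) hZ l (n - 1)) (TP p k [e]) (TP_le [e]) hη
  have hsq : Real.sqrt ([e].map fun i => ((p i : ℝ) - 1)).prod =
      Real.sqrt ((p e : ℝ) - 1) := by simp
  rw [hsq] at h2
  filter_upwards [h2, lam_pos, self_mem_nhdsWithin] with ε g2 g3 g4
  have hε : (0 : ℝ) < ε := g4
  have e1 : PP Z (TF p k) (e :: l) n = fun ℓ =>
      ∑ x ∈ antidiagonal n, (tE x.2 * PP Z (TF p k) l x.1 ℓ +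
        vE x.2 * (PP Z (TF p k) l x.1 ℓ * TP p k [e] ℓ)) := by
    funext ℓ
    exact PP_cons e l n ℓ
  rw [e1, E_comb hε (antidiagonal n) (fun x => tE x.2) (fun x => vE x.2)
    (fun x ℓ => PP Z (TF p k) l x.1 ℓ)
    (fun x ℓ => PP Z (TF p k) l x.1 ℓ * TP p k [e] ℓ) _ _
    (fun x ℓ => PP_bd (TF_le hC) hZ l x.1 ℓ) (fun x ℓ => PP_TP_bd hC hZ [e] l x.1 ℓ),
    Finset.sum_add_distrib]
  have e2 : ∑ x ∈ antidiagonal n, tE x.2 * E ε (fun ℓ => PP Z (TF p k) l x.1 ℓ) =
      ∑ x ∈ antidiagonal n, E ε (PP Z (TF p k) l x.1) * tE x.2 :=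
    Finset.sum_congr rfl fun x _ => mul_comm _ _
  rw [e2, add_sub_cancel_left]
  have hpos : 0 ≤ (QQ b (fun e c => (bettiC (p e) c : ℝ)) l (n - 1) /
      Real.sqrt ((p e : ℝ) - 1) + η) * lam ε := (abs_nonneg _).trans g2
  rcases Nat.eq_zero_or_pos n with hn | hn
  · rw [Finset.sum_eq_zero, abs_zero]
    · exact hpos
    · intro x hx
      have h3 := mem_antidiagonal.1 hx
      unfold vE
      rw [if_neg (by omega), zero_mul]
  · rw [Finset.sum_eq_single (n - 1, 1)]
    · simpa [vE] using g2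
    · intro x hx hne
      have h3 := mem_antidiagonal.1 hx
      unfold vE
      rw [if_neg, zero_mul]
      intro h4
      apply hne
      ext
      · simp; omega
      · simpa using h4
    · intro h
      exact absurd (HasAntidiagonal.mem_antidiagonal.2 (by simp; omega)) h

end

end Pool.Agent.NH35.HD
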