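import Pool.Agent.NH35.HD.Stick

/-! The `p`-th power of the Gauss sum and its residues. -/

set_option autoImplicit false
set_option linter.unusedSectionVars false
open NumberField NumberField.InfinitePlace IsDedekindDomain
open Module nonZeroDivisors Ideal IsCyclotomicExtension
open scoped ComplexConjugate

namespace Pool.Agent.NH35.HD

section
variable {m : ℕ} [NeZero m] {K : Type} [Field K] [NumberField K] [IsCyclotomicExtension {m} ℚ K]
  {p : ℕ} [Fact p.Prime] [hpm : Fact (p ∣ m)]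

theorem iw_add (W W' : (ZMod m)ˣ → ℕ) (I : Ideal (𝓞 K)) :
    iw m K (fun t => W t + W' t) I = iw m K W I * iw m K W' I := by
  unfold iw
  rw [← Finset.prod_mul_distrib]
  exact Finset.prod_congr rfl fun t _ => pow_add _ _ _

theorem Rel.add {W W' : (ZMod m)ˣ → ℕ} {c c' : ℕ} {I : Ideal (𝓞 K)} {x x' : 𝓞 K}
    (h : Rel p W c I x) (h' : Rel p W' c' I x') :
    Rel p (fun t => W t + W' t) (c + c') I (x * x') := by
  refine ⟨?_, ?_, ?_⟩
  · rw [iw_add, ← h.sp, ← h'.sp, Ideal.span_singleton_mul_span_singleton]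
  · rw [map_mul, pow_add, ← h.nrm, ← h'.nrm]
    ring
  · have e : x * x' - 1 = (x - 1) * x' + (x' - 1) := by ring
    rw [e]
    exact dvd_add (h.cg.mul_right _) h'.cg

theorem Rel.conj {W : (ZMod m)ˣ → ℕ} {c : ℕ} {I : Ideal (𝓞 K)} {x : 𝓞 K}
    (h : Rel p W c I x) : Rel p (fun t => W (-t)) c I (HD.sa m K (-1) x) := by
  refine ⟨?_, ?_, ?_⟩
  · have h1 : (span {x}).map (HD.sa m K (-1)) = (iw m K W I).map (HD.sa m K (-1)) := by rw [h.sp]
    rw [Ideal.map_span, Set.image_singleton] at h1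
    rw [h1]
    unfold iw
    rw [show (∏ t : (ZMod m)ˣ, I.map (HD.sa m K t⁻¹) ^ W t).map (HD.sa m K (-1)) =
      Ideal.mapHom (HD.sa m K (-1)) (∏ t : (ZMod m)ˣ, I.map (HD.sa m K t⁻¹) ^ W t) from rfl,
      map_prod]
    refine Fintype.prod_equiv (Equiv.neg _) _ _ fun t => ?_
    rw [map_pow, Equiv.neg_apply]
    change (I.map (HD.sa m K t⁻¹)).map (HD.sa m K (-1)) ^ W t = I.map (HD.sa m K (-t)⁻¹) ^ W (- -t)
    rw [neg_neg, map_map_sa, inv_neg, neg_one_mul]
  · rw [← h.nrm, ← sa_mul, neg_mul_neg, one_mul, sa_one, mul_comm]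
  · have h1 := map_dvd (HD.sa m K (-1)) h.cg
    rw [map_pow, map_sub, map_sub, map_one, sa_proot (p := p) _ (zp_prim m p K).pow_eq_one] at h1
    refine dvd_trans ?_ h1
    refine pow_dvd_pow_of_dvd ?_ 2
    simpa using sub_dvd_pow_sub_pow (zp m p K) 1 (om m p (-1) : ZMod p).val

theorem Rel.prod {ι : Type} [DecidableEq ι] (S : Finset ι) (W : ι → (ZMod m)ˣ → ℕ) {I : Ideal (𝓞 K)}
    (x : ι → 𝓞 K) (h : ∀ i ∈ S, Rel p (W i) 1 I (x i)) :
    Rel p (fun t => ∑ i ∈ S, W i t) S.card I (∏ i ∈ S, x i) := by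
  induction S using Finset.induction_on with
  | empty =>
      refine ⟨?_, ?_, ?_⟩
      · unfold iw
        rw [Finset.prod_empty, Ideal.span_singleton_one]
        simp only [Finset.sum_empty, pow_zero, Finset.prod_const_one]
        exact Ideal.one_eq_top.symm
      · simp
      · simp
  | insert i S hi ih =>
      have h1 := h i (Finset.mem_insert_self _ _)
      have h2 := ih fun j hj => h j (Finset.mem_insert_of_mem hj)
      have h3 := h1.add h2
      rw [Finset.prod_insert hi, Finset.card_insert_of_notMem hi, add_comm]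
      have e : (fun t => ∑ i ∈ insert i S, W i t) = fun t => W i t + ∑ i ∈ S, W i t := by
        funext t
        rw [Finset.sum_insert hi]
      rw [e]
      exact h3

/-- the exponents of the `p`-th power of the Gauss sum -/
def wg (m p : ℕ) [NeZero m] [Fact p.Prime] [Fact (p ∣ m)] (t : (ZMod m)ˣ) : ℕ :=
  (wt m p 1 1 t + wt m p 1 1 (-t)) + ∑ j ∈ Finset.Ico 1 (p - 1), wt m p 1 j t

theorem ico_ndvd {j : ℕ} (hj : j ∈ Finset.Ico 1 (p - 1)) : ¬ p ∣ j ∧ ¬ p ∣ 1 + j := by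
  rw [Finset.mem_Ico] at hj
  exact ⟨fun h => by have := Nat.le_of_dvd (by omega) h; omega,
    fun h => by have := Nat.le_of_dvd (by omega) h; omega⟩

theorem one_ndvd : ¬ p ∣ 1 := fun h => (Fact.out : p.Prime).one_lt.ne' (Nat.dvd_one.1 h)

theorem two_ndvd (hp : p ≠ 2) : ¬ p ∣ 1 + 1 := fun h =>
  hp ((Nat.prime_dvd_prime_iff_eq Fact.out Nat.prime_two).1 h)

theorem wg_add (hp : p ≠ 2) (t : (ZMod m)ˣ) : wg m p t + wg m p (-t) = p := by
  have h2 : 2 < p := lt_of_le_of_ne (Fact.out : p.Prime).two_le (Ne.symm hp)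
  unfold wg
  rw [neg_neg]
  have h1 := wt_add (m := m) (p := p) one_ndvd one_ndvd (two_ndvd hp) t
  have h3 : ∑ j ∈ Finset.Ico 1 (p - 1), wt m p 1 j t + ∑ j ∈ Finset.Ico 1 (p - 1), wt m p 1 j (-t) =
      p - 2 := by
    rw [← Finset.sum_add_distrib, Finset.sum_congr rfl fun j hj =>
      wt_add (m := m) (p := p) one_ndvd (ico_ndvd hj).1 (ico_ndvd hj).2 t]
    simp
    omega
  omega

variable {F : Type} [Field F] [Fintype F] {χ : MulChar F (𝓞 K)}

variable (m p) in
/-- the `p`-th power of the Gauss sum, up to the sign -/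
noncomputable def gg (χ : MulChar F (𝓞 K)) : 𝓞 K :=
  (jj 1 1 χ * sa m K (-1) (jj 1 1 χ)) * ∏ j ∈ Finset.Ico 1 (p - 1), jj 1 j χ

theorem rel_gg (hp : p ≠ 2) (π : 𝓞 K →+* F) (hmF : ((m : ℕ) : F) ≠ 0)
    (hF : (Fintype.card F).Prime) {I : Ideal (𝓞 K)} (hI : ∀ x, x ∈ I ↔ π x = 0)
    (hI0 : I ≠ ⊥) (hIp : I.IsPrime) (hIn : absNorm I = Fintype.card F)
    (hχ : χ ^ p = 1) (hχ2 : ∀ y : F, π (χ y) = y ^ ((Fintype.card F - 1) / p)) :
    Rel p (wg m p) p I (gg m p χ) := by
  classical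
  have h2 : 2 < p := lt_of_le_of_ne (Fact.out : p.Prime).two_le (Ne.symm hp)
  have h1 := rel_jj (m := m) hp π hmF hF hI hI0 hIp hIn hχ hχ2 one_ndvd one_ndvd (two_ndvd hp)
  have h3 := Rel.prod (Finset.Ico 1 (p - 1)) (fun j => wt m p 1 j) (I := I)
    (fun j => jj 1 j χ) fun j hj =>
      rel_jj (m := m) hp π hmF hF hI hI0 hIp hIn hχ hχ2 one_ndvd (ico_ndvd hj).1 (ico_ndvd hj).2
  have h4 := (h1.add h1.conj).add h3
  have e : 1 + 1 + (Finset.Ico 1 (p - 1)).card = p := by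
    rw [Nat.card_Ico]
    omega
  rw [e] at h4
  exact h4

/-- **The residue of the `p`-th power of the Gauss sum.** -/
theorem gg_res (hp : p ≠ 2) (π : 𝓞 K →+* F) (hpF : ((p : ℕ) : F) ≠ 0)
    (hχ : χ ^ p = 1) (hχ2 : ∀ y : F, π (χ y) = y ^ ((Fintype.card F - 1) / p)) {q : ℕ}
    (hq : q.Prime) (hqp : q ≠ p) (hqF : ((q : ℕ) : F) ≠ 0) {k : Type} [Field k] [CharP k q]
    (ρ : 𝓞 K →+* k) :
    ρ (gg m p χ) ^ ((q ^ (p - 1) - 1) / p) = ρ (χ (q : F)) := by
  classical
  have hpr : p.Prime := Fact.out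
  have hp2 : 2 < p := lt_of_le_of_ne hpr.two_le (Ne.symm hp)
  have hfq : Fact q.Prime := ⟨hq⟩
  -- the congruence
  have hQ : p ∣ q ^ (p - 1) - 1 := by
    have h1 : (q : ZMod p) ^ (p - 1) = 1 := by
      apply ZMod.pow_card_sub_one_eq_one
      rw [Ne, ZMod.natCast_eq_zero_iff]
      intro h
      exact hqp ((Nat.prime_dvd_prime_iff_eq hpr hq).1 h).symm
    rw [← ZMod.natCast_eq_zero_iff, Nat.cast_sub (Nat.one_le_pow _ _ hq.pos), Nat.cast_pow, h1,
      Nat.cast_one, sub_self]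
  set n := (q ^ (p - 1) - 1) / p with hn
  have hnp : n * p = q ^ (p - 1) - 1 := Nat.div_mul_cancel hQ
  have hQ1 : q ^ (p - 1) = n * p + 1 := by
    rw [hnp]
    exact (Nat.sub_add_cancel (Nat.one_le_pow _ _ hq.pos)).symm
  -- the characteristic
  have hchark : ringChar k = q := (ringChar.eq k q)
  have hchar : ringChar k ≠ ringChar F := by
    rw [hchark]
    intro h
    apply hqF
    rw [h]
    exact CharP.cast_eq_zero F (ringChar F)
  let ψ := AddChar.FiniteField.primitiveChar F k hchar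
  let A := CyclotomicField ψ.n k
  let ρ' : 𝓞 K →+* A := (algebraMap k A).comp ρ
  have hAq : CharP A q := charP_of_injective_algebraMap (algebraMap k A).injective q
  have hpA : ((p : ℕ) : A) ≠ 0 := by
    intro h
    rw [CharP.cast_eq_zero_iff A q] at h
    exact hqp ((Nat.prime_dvd_prime_iff_eq hq hpr).1 h)
  let χ' : MulChar F A := χ.ringHomComp ρ'
  have hχ' : ∀ y, χ' y = ρ' (χ y) := fun y => rfl
  have hχ'p : χ' ^ p = 1 := by
    have : χ' ^ p = (χ ^ p).ringHomComp ρ' := MulChar.ringHomComp_pow χ ρ' p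
    rw [this, hχ, MulChar.ringHomComp_one]
  have hinj : ∀ a b : 𝓞 K, a ^ p = 1 → b ^ p = 1 → ρ' a = ρ' b → a = b := by
    intro a b ha hb hab
    obtain ⟨i, hi, rfl⟩ := (zp_prim m p K).eq_pow_of_pow_eq_one ha
    obtain ⟨j, hj, rfl⟩ := (zp_prim m p K).eq_pow_of_pow_eq_one hb
    have hz : IsPrimitiveRoot (ρ' (zp m p K)) p := by
      have h2 : ρ' (zp m p K) ≠ 1 := by
        intro h
        obtain ⟨z, hz⟩ := dvd_p1 (m := m) (p := p) (K := K)
        have h3 := congrArg ρ' hz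
        rw [map_mul, map_sub, map_one, h, sub_self, zero_mul, map_natCast] at h3
        exact hpA h3
      have h3 : ρ' (zp m p K) ^ p = 1 := by
        rw [← map_pow, (zp_prim m p K).pow_eq_one, map_one]
      exact IsPrimitiveRoot.iff_orderOf.2 (orderOf_eq_prime h3 h2)
    rw [map_pow, map_pow] at hab
    rw [hz.pow_inj hi hj hab]
  have hχ'1 : χ' ≠ 1 := by
    intro h
    apply chi_ne_one (zp_prim m p K) π hpF hχ2
    refine MulChar.ext fun y => ?_
    rw [MulChar.one_apply_coe]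
    apply hinj _ _ (chi_pow hχ y.ne_zero) (one_pow _)
    rw [← hχ', h, MulChar.one_apply_coe, map_one]
  have hord : orderOf χ' = p := orderOf_eq_prime hχ'p hχ'1
  -- the Gauss sum
  set g : A := gaussSum χ' ψ.char with hg
  have hiter : ∀ r : ℕ, g ^ (q ^ r) = gaussSum (χ' ^ (q ^ r)) (ψ.char ^ (q ^ r)) := by
    intro r
    induction r with
    | zero => simp [hg]
    | succ r ih =>
        rw [pow_succ, pow_mul, ih, gaussSum_frob q, ← pow_mul, ← pow_mul]
  have hχQ : χ' ^ (q ^ (p - 1)) = χ' := by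
    rw [hQ1, pow_succ, mul_comm n p, pow_mul, hχ'p, one_pow, one_mul]
  have hgQ : χ' (((q ^ (p - 1) : ℕ)) : F) * g ^ (q ^ (p - 1)) = g := by
    rw [hiter, hχQ, AddChar.pow_mulShift]
    have hu : IsUnit (((q ^ (p - 1) : ℕ)) : F) := by
      rw [isUnit_iff_ne_zero]
      push_cast
      exact pow_ne_zero _ hqF
    have h1 := gaussSum_mulShift χ' ψ.char hu.unit
    rw [IsUnit.unit_spec] at h1
    exact h1
  have hcardA : ((Fintype.card F : ℕ) : A) ≠ 0 := by
    intro h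
    rw [CharP.cast_eq_zero_iff A q] at h
    obtain ⟨r, hr, hc⟩ := FiniteField.card F (ringChar F)
    rw [hc] at h
    have h3 := (Nat.prime_dvd_prime_iff_eq hq hr).1 (hq.dvd_of_dvd_pow h)
    exact hchar (hchark.trans h3)
  have hg0 : g ≠ 0 := gaussSum_ne_zero_of_nontrivial hcardA hχ'1 ψ.prim
  have hg1 : χ' (((q ^ (p - 1) : ℕ)) : F) * g ^ (n * p) = 1 := by
    rw [hQ1, pow_succ, ← mul_assoc] at hgQ
    rw [← hQ1] at hgQ
    have h1 : (χ' (((q ^ (p - 1) : ℕ)) : F) * g ^ (n * p)) * g = 1 * g := by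
      rw [one_mul]
      exact hgQ
    exact mul_right_cancel₀ hg0 h1
  -- the `p`-th power
  have hneg : χ' (-1) = 1 := by
    obtain ⟨r, hr⟩ := hpr.odd_of_ne_two hp
    have h1 : χ' (-1) ^ p = 1 := by
      rw [hχ', ← map_pow, chi_pow hχ (by simp), map_one]
    have h2 : χ' (-1) ^ 2 = 1 := by rw [← map_pow]; simp
    rw [hr, pow_succ, pow_mul, h2, one_pow, one_mul] at h1
    exact h1
  have hgp : g ^ p = -ρ' (gg m p χ) := by
    have h1 := gaussSum_pow_eq_prod_jacobiSum (χ := χ') (ψ := ψ.char)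
      (by rw [hord]; exact hpr.two_le) ψ.prim
    rw [hord, hneg, one_mul] at h1
    have h2 : ∀ i ∈ Finset.Ico 1 (p - 1), jacobiSum χ' (χ' ^ i) = -ρ' (jj 1 i χ) := by
      intro i _
      unfold jj
      rw [map_neg, neg_neg, pow_one, ← jacobiSum_ringHomComp, ← MulChar.ringHomComp_pow]
    have h3 : ((Fintype.card F : ℕ) : A) = ρ' (jj 1 1 χ * sa m K (-1) (jj 1 1 χ)) := by
      rw [jj_norm π hpF hχ hχ2 one_ndvd one_ndvd (two_ndvd hp), map_natCast]
    have h4 : (-1 : A) ^ (p - 1 - 1) = -1 := by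
      obtain ⟨r, hr⟩ := hpr.odd_of_ne_two hp
      apply Odd.neg_one_pow
      exact ⟨r - 1, by omega⟩
    calc g ^ p = _ := h1
      _ = ρ' (jj 1 1 χ * sa m K (-1) (jj 1 1 χ)) *
          ∏ i ∈ Finset.Ico 1 (p - 1), (-1 * ρ' (jj 1 i χ)) := by
          rw [h3]
          congr 1
          exact Finset.prod_congr rfl fun i hi => by rw [h2 i hi, neg_one_mul]
      _ = -ρ' (gg m p χ) := by
          rw [Finset.prod_mul_distrib, Finset.prod_const, Nat.card_Ico, h4]
          unfold gg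
          rw [map_mul ρ' (jj 1 1 χ * _), map_prod]
          ring
  -- conclusion
  have hsign : (-1 : A) ^ n = 1 := by
    rcases hq.eq_two_or_odd' with h2 | h2
    · have : CharP A 2 := h2 ▸ hAq
      have h3 : (-1 : A) = 1 := CharTwo.neg_eq 1
      rw [h3, one_pow]
    · apply Even.neg_one_pow
      have h3 : Even (n * p) := by
        rw [hnp]
        exact Nat.Odd.sub_odd (h2.pow) odd_one
      rcases Nat.even_mul.1 h3 with h4 | h4
      · exact h4
      · exact absurd h4 (Nat.not_even_iff_odd.2 (hpr.odd_of_ne_two hp))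
  have hfin : ρ' (gg m p χ) ^ n = ρ' (χ (q : F)) := by
    have h1 : ρ' (gg m p χ) = -g ^ p := by rw [hgp, neg_neg]
    have h2 : ρ' (gg m p χ) ^ n = g ^ (n * p) := by
      rw [h1, neg_pow, hsign, one_mul, ← pow_mul, mul_comm]
    have h3 : χ' (((q ^ (p - 1) : ℕ)) : F) * ρ' (χ (q : F)) = 1 := by
      push_cast
      rw [← hχ', map_pow, ← pow_succ, Nat.sub_add_cancel hpr.one_le, hχ', ← map_pow,
        chi_pow hχ hqF, map_one]
    have h4 : χ' (((q ^ (p - 1) : ℕ)) : F) ≠ 0 := left_ne_zero_of_mul_eq_one hg1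
    rw [h2]
    exact mul_left_cancel₀ h4 (hg1.trans h3.symm)
  apply (algebraMap k A).injective
  rw [map_pow]
  exact hfin

end

end Pool.Agent.NH35.HD
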