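import Pool.Agent.NH35.HD.Gauss

/-! The Hecke characters of the Jacobi sums and of the residue symbols. -/

set_option autoImplicit false
set_option linter.unusedSectionVars false
open NumberField NumberField.InfinitePlace IsDedekindDomain
open Module nonZeroDivisors Ideal IsCyclotomicExtension
open scoped ComplexConjugate

namespace Pool.Agent.NH35.HD
open Pool.Agent.NH35.HC (Hk coprime_span)

/-- a place of degree one with its residue field -/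
structure Pl (m : ℕ) {K : Type} [Field K] [NumberField K] {F : Type} [Field F] [Fintype F]
    (π : 𝓞 K →+* F) (I : Ideal (𝓞 K)) : Prop where
  mF : ((m : ℕ) : F) ≠ 0
  pr : (Fintype.card F).Prime
  ker : ∀ x, x ∈ I ↔ π x = 0
  ne : I ≠ ⊥
  max : I.IsMaximal
  nm : absNorm I = Fintype.card F

/-- the residue character of a place -/
structure Rc (p : ℕ) {K : Type} [Field K] [NumberField K] {F : Type} [Field F] [Fintype F]
    (π : 𝓞 K →+* F) (χ : MulChar F (𝓞 K)) : Prop where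
  pow : χ ^ p = 1
  red : ∀ y : F, π (χ y) = y ^ ((Fintype.card F - 1) / p)

section
variable {m : ℕ} [NeZero m] {K : Type} [Field K] [NumberField K] [IsCyclotomicExtension {m} ℚ K]
  {p : ℕ} [Fact p.Prime] [hpm : Fact (p ∣ m)] {F : Type} [Field F] [Fintype F]

theorem Pl.pF {π : 𝓞 K →+* F} {I : Ideal (𝓞 K)} (h : Pl m π I) (p : ℕ) [hpm : Fact (p ∣ m)] :
    ((p : ℕ) : F) ≠ 0 := by
  intro h1
  obtain ⟨k, hk⟩ := hpm.out
  apply h.mF
  rw [hk, Nat.cast_mul, h1, zero_mul]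

theorem Pl.coprime {π : 𝓞 K →+* F} {I : Ideal (𝓞 K)} (h : Pl m π I) {M : ℕ}
    (hM : ((M : ℕ) : F) ≠ 0) : IsCoprime I (span {((M : ℕ) : 𝓞 K)}) := by
  rw [Ideal.isCoprime_iff_sup_eq]
  by_contra h1
  have h2 := h.max.eq_of_le h1 le_sup_left
  apply hM
  rw [← map_natCast π, ← h.ker, h2]
  exact Ideal.mem_sup_right (Ideal.mem_span_singleton_self _)

theorem norm_root {x : 𝓞 K} {n : ℕ} (hn : n ≠ 0) (h : x ^ n = 1) (τ : K →+* ℂ) :
    ‖τ (x : K)‖ = 1 := by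
  have h1 : (τ (x : K)) ^ n = 1 := by
    have h2 := congrArg (fun y : 𝓞 K => τ (algebraMap (𝓞 K) K y)) h
    simp only [map_pow, map_one] at h2
    exact h2
  exact Complex.norm_eq_one_of_pow_eq_one h1 hn

/-- **The Hecke character of the Jacobi sums.** -/
theorem exists_jac (m : ℕ) [NeZero m] (K : Type) [Field K] [NumberField K]
    [IsCyclotomicExtension {m} ℚ K] (p : ℕ) [Fact p.Prime] [hpm : Fact (p ∣ m)] (hp : p ≠ 2)
    (τ : K →+* ℂ) {a b : ℕ} (ha : ¬ p ∣ a) (hb : ¬ p ∣ b) (hab : ¬ p ∣ a + b) :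
    ∃ ψ : Ideal (𝓞 K) → ℂ,
    Hk ψ (span {((p : ℕ) : 𝓞 K)}) (fun x => (chinf m K (wt m p a b) τ x : ℂ)) ∧
    ∀ (F : Type) [Field F] [Fintype F] (π : 𝓞 K →+* F) (I : Ideal (𝓞 K)) (χ : MulChar F (𝓞 K)),
      Pl m π I → Rc p π χ →
      ψ I = τ ((jj a b χ : 𝓞 K) : K) / ((Real.sqrt (Fintype.card F) : ℝ) : ℂ) := by
  have hpr : p.Prime := Fact.out
  have hR : MRel (fun (I : Ideal (𝓞 K)) (c : Circle) =>
      ∃ x : 𝓞 K, Rel p (wt m p a b) 1 I x ∧ c = cz (τ (x : K)) ∧ x ≠ 0) := by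
    refine ⟨⟨1, Rel.top, ?_, one_ne_zero⟩, ?_, ?_⟩
    · have : ((1 : 𝓞 K) : K) = 1 := map_one (algebraMap (𝓞 K) K)
      rw [this, map_one, cz_one]
    · rintro I I' _ _ ⟨x, hx, rfl, hx0⟩ ⟨x', hx', rfl, hx0'⟩
      refine ⟨x * x', hx.mul hx', ?_, mul_ne_zero hx0 hx0'⟩
      have : ((x * x' : 𝓞 K) : K) = (x : K) * (x' : K) := map_mul (algebraMap (𝓞 K) K) _ _
      rw [this, map_mul, cz_mul (emb_ne τ hx0) (emb_ne τ hx0')]
    · rintro I _ _ hI ⟨x, hx, rfl, -⟩ ⟨x', hx', rfl, -⟩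
      rw [hx.unique hI hx']
  have hN0 : span {((p : ℕ) : 𝓞 K)} ≠ ⊥ := by
    rw [Ne, Ideal.span_singleton_eq_bot]
    exact Nat.cast_ne_zero.2 hpr.ne_zero
  have hN1 : span {((p : ℕ) : 𝓞 K)} ≠ ⊤ := by
    rw [Ne, Ideal.span_singleton_eq_top]
    exact p_not_unit hpr
  obtain ⟨ψ, hk, hψ⟩ := exists_hecke hR hN0 hN1 (ci := chinf m K (wt m p a b) τ)
    (fun x y hx hy => chinf_mul τ hx hy) (chinf_lip τ) (fun α h0 h1 =>
      ⟨_, Rel.prin hp (wt_add ha hb hab) (norm_nonneg (wt_add (m := m) (p := p) ha hb hab) α)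
        (Ideal.mem_span_singleton.1 h1), rfl, xw_ne h0⟩)
  refine ⟨ψ, hk, fun F _ _ π I χ hπ hχ => ?_⟩
  have h1 := rel_jj (m := m) hp π hπ.mF hπ.pr hπ.ker hπ.ne hπ.max.isPrime hπ.nm hχ.pow hχ.red ha hb
    hab
  have h2 := h1.ne hπ.ne
  rw [hψ I _ (hπ.coprime (hπ.pF p)) ⟨_, h1, rfl, h2⟩, coe_cz (emb_ne τ h2)]
  have h3 := h1.norm_sq τ
  rw [hπ.nm, pow_one] at h3
  rw [← h3, Real.sqrt_sq (_root_.norm_nonneg _)]

/-- the Hecke character of the residue symbol of a prime -/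
theorem exists_kum (m : ℕ) [NeZero m] (K : Type) [Field K] [NumberField K]
    [IsCyclotomicExtension {m} ℚ K] (p : ℕ) [Fact p.Prime] [hpm : Fact (p ∣ m)] (hp : p ≠ 2)
    (τ : K →+* ℂ) {q : ℕ} (hq : q.Prime) (hqp : q ≠ p) :
    ∃ κ : Ideal (𝓞 K) → ℂ,
    Hk κ (span {((p * q : ℕ) : 𝓞 K)}) (fun _ => 1) ∧
    ∀ (F : Type) [Field F] [Fintype F] (π : 𝓞 K →+* F) (I : Ideal (𝓞 K)) (χ : MulChar F (𝓞 K)),
      Pl m π I → Rc p π χ → ((q : ℕ) : F) ≠ 0 → κ I = τ ((χ (q : F) : 𝓞 K) : K) := by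
  have hpr : p.Prime := Fact.out
  -- a prime above `q`
  obtain ⟨Q, hQm, hQ⟩ := Ideal.exists_le_maximal (span {((q : ℕ) : 𝓞 K)}) (by
    rw [Ne, Ideal.span_singleton_eq_top]
    exact p_not_unit hq)
  have hqQ : ((q : ℕ) : 𝓞 K) ∈ Q := (Ideal.span_singleton_le_iff_mem _).1 hQ
  have hQ0 : Q ≠ ⊥ := by
    rintro rfl
    rw [Ideal.mem_bot] at hqQ
    exact hq.ne_zero (by exact_mod_cast hqQ)
  let _ : Field (𝓞 K ⧸ Q) := Ideal.Quotient.field Q
  have : Finite (𝓞 K ⧸ Q) := Ideal.finiteQuotientOfFreeOfNeBot _ hQ0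
  let _ : Fintype (𝓞 K ⧸ Q) := Fintype.ofFinite _
  set ρ : 𝓞 K →+* 𝓞 K ⧸ Q := Ideal.Quotient.mk Q with hρ
  have hq0 : ((q : ℕ) : 𝓞 K ⧸ Q) = 0 := by
    rw [← map_natCast ρ]
    exact Ideal.Quotient.eq_zero_iff_mem.2 hqQ
  have hchar : CharP (𝓞 K ⧸ Q) q := by
    have h1 : ringChar (𝓞 K ⧸ Q) ∣ q := (ringChar.spec _ q).1 hq0
    rcases (Nat.dvd_prime hq).1 h1 with h2 | h2
    · exact absurd h2 (CharP.ringChar_ne_one)
    · rw [← h2]
      exact ringChar.charP _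
  have hpk : ((p : ℕ) : 𝓞 K ⧸ Q) ≠ 0 := by
    intro h
    rw [CharP.cast_eq_zero_iff (𝓞 K ⧸ Q) q] at h
    exact hqp ((Nat.prime_dvd_prime_iff_eq hq hpr).1 h)
  set n := (q ^ (p - 1) - 1) / p with hn
  have hone : cz (τ ((1 : 𝓞 K) : K)) = 1 := by
    have : ((1 : 𝓞 K) : K) = 1 := map_one (algebraMap (𝓞 K) K)
    rw [this, map_one, cz_one]
  have hR : MRel (fun (I : Ideal (𝓞 K)) (c : Circle) =>
      ∃ g z : 𝓞 K, Rel p (wg m p) p I g ∧ z ^ p = 1 ∧ ρ z = ρ g ^ n ∧ c = cz (τ (z : K))) := by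
    refine ⟨⟨1, 1, Rel.top, one_pow _, by rw [map_one, one_pow], hone.symm⟩, ?_, ?_⟩
    · rintro I I' _ _ ⟨g, z, hg, hz, hgz, rfl⟩ ⟨g', z', hg', hz', hgz', rfl⟩
      refine ⟨g * g', z * z', hg.mul hg', by rw [mul_pow, hz, hz', one_mul],
        by rw [map_mul, hgz, hgz', map_mul, mul_pow], ?_⟩
      have h0 : z ≠ 0 := by
        rintro rfl
        rw [zero_pow hpr.ne_zero] at hz
        exact zero_ne_one hz
      have h0' : z' ≠ 0 := by
        rintro rfl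
        rw [zero_pow hpr.ne_zero] at hz'
        exact zero_ne_one hz'
      have : ((z * z' : 𝓞 K) : K) = (z : K) * (z' : K) := map_mul (algebraMap (𝓞 K) K) _ _
      rw [this, map_mul, cz_mul (emb_ne τ h0) (emb_ne τ h0')]
    · rintro I _ _ hI ⟨g, z, hg, hz, hgz, rfl⟩ ⟨g', z', hg', hz', hgz', rfl⟩
      have h1 := hg.unique hI hg'
      subst h1
      rw [root_inj (zp_prim m p K) ρ hpk hz hz' (hgz.trans hgz'.symm)]
  have hpq : ((p * q : ℕ) : 𝓞 K) = ((p : ℕ) : 𝓞 K) * ((q : ℕ) : 𝓞 K) := Nat.cast_mul _ _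
  have hN0 : span {((p * q : ℕ) : 𝓞 K)} ≠ ⊥ := by
    rw [Ne, Ideal.span_singleton_eq_bot]
    exact Nat.cast_ne_zero.2 (mul_ne_zero hpr.ne_zero hq.ne_zero)
  have hN1 : span {((p * q : ℕ) : 𝓞 K)} ≠ ⊤ := by
    rw [Ne, Ideal.span_singleton_eq_top, hpq]
    intro h
    exact p_not_unit hpr (isUnit_of_mul_isUnit_left h)
  obtain ⟨κ, hk, hκ⟩ := exists_hecke hR hN0 hN1 (ci := fun _ => 1)
    (fun x y _ _ => (one_mul _).symm)
    ⟨0, le_rfl, fun x x' _ _ δ _ _ => by simp⟩ (fun α h0 h1 => by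
      rw [Ideal.mem_span_singleton, hpq] at h1
      refine ⟨_, 1, Rel.prin hp (wg_add hp) (norm_nonneg (wt_add (m := m) (p := p) one_ndvd one_ndvd
        (two_ndvd hp)) α) (dvd_of_mul_right_dvd h1), one_pow _, ?_, hone.symm⟩
      have h2 : ((q : ℕ) : 𝓞 K) ∣ xw m K (wg m p) α - 1 :=
        xw_cong (fun u => map_natCast _ _) (dvd_of_mul_left_dvd h1)
      have h3 : ρ (xw m K (wg m p) α) = 1 := by
        rw [← sub_eq_zero, ← map_one ρ, ← map_sub]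
        exact Ideal.Quotient.eq_zero_iff_mem.2 (Ideal.mem_of_dvd _ h2 hqQ)
      rw [h3, one_pow, map_one])
  refine ⟨κ, ?_, fun F _ _ π I χ hπ hχ hqF => ?_⟩
  · simpa using hk
  · have h1 := rel_gg (m := m) hp π hπ.mF hπ.pr hπ.ker hπ.ne hπ.max.isPrime hπ.nm hχ.pow hχ.red
    have h2 := gg_res (m := m) hp π (hπ.pF p) hχ.pow hχ.red hq hqp hqF ρ
    have h3 : (χ (q : F)) ^ p = 1 := chi_pow hχ.pow hqF
    have h4 : IsCoprime I (span {((p * q : ℕ) : 𝓞 K)}) := by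
      apply hπ.coprime
      rw [Nat.cast_mul]
      exact mul_ne_zero (hπ.pF p) hqF
    rw [hκ I _ h4 ⟨_, _, h1, h3, h2.symm, rfl⟩, cz_norm_one (norm_root hpr.ne_zero h3 τ)]

/-- **The Hecke character of the residue symbol.** -/
theorem exists_kummer (m : ℕ) [NeZero m] (K : Type) [Field K] [NumberField K]
    [IsCyclotomicExtension {m} ℚ K] (p : ℕ) [Fact p.Prime] [hpm : Fact (p ∣ m)] (hp : p ≠ 2)
    (τ : K →+* ℂ) (c : ℕ) (hc : ¬ p ∣ c) :
    ∃ (κ : Ideal (𝓞 K) → ℂ) (M : ℕ), M ≠ 0 ∧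
    Hk κ (span {((M : ℕ) : 𝓞 K)}) (fun _ => 1) ∧
    ∀ (F : Type) [Field F] [Fintype F] (π : 𝓞 K →+* F) (I : Ideal (𝓞 K)) (χ : MulChar F (𝓞 K)),
      Pl m π I → Rc p π χ → ((M : ℕ) : F) ≠ 0 → κ I = τ ((χ (c : F) : 𝓞 K) : K) := by
  have hpr : p.Prime := Fact.out
  induction c using Nat.recOnMul with
  | zero => exact absurd (dvd_zero p) hc
  | one =>
      refine ⟨fun _ => 1, 1, one_ne_zero, ⟨?_, fun I hI => ?_, fun _ _ => by simp,
        fun _ _ => by simp, fun _ _ _ => rfl, fun _ _ _ _ => by simp, fun _ _ => by simp,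
        ⟨0, le_rfl, fun x x' _ _ δ _ _ => by simp⟩⟩, fun F _ _ π I χ _ _ _ => ?_⟩
      · rw [Nat.cast_one, Ideal.span_singleton_one]
        exact top_ne_bot
      · exfalso
        apply hI
        rw [Nat.cast_one, Ideal.span_singleton_one]
        rw [Ideal.isCoprime_iff_sup_eq, sup_top_eq]
      · rw [Nat.cast_one, map_one]
        have : ((1 : 𝓞 K) : K) = 1 := map_one (algebraMap (𝓞 K) K)
        rw [this, map_one]
  | prime q hq =>
      have hqp : q ≠ p := by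
        rintro rfl
        exact hc dvd_rfl
      obtain ⟨κ, hk, hκ⟩ := exists_kum m K p hp τ hq hqp
      refine ⟨κ, p * q, mul_ne_zero hpr.ne_zero hq.ne_zero, hk, fun F _ _ π I χ hπ hχ hM => ?_⟩
      rw [Nat.cast_mul] at hM
      exact hκ F π I χ hπ hχ (right_ne_zero_of_mul hM)
  | mul a b iha ihb =>
      obtain ⟨κ, M, hM0, hk, hκ⟩ := iha fun h => hc (h.mul_right _)
      obtain ⟨κ', M', hM0', hk', hκ'⟩ := ihb fun h => hc (h.mul_left _)
      refine ⟨fun I => κ I * κ' I, M * M', mul_ne_zero hM0 hM0', ?_,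
        fun F _ _ π I χ hπ hχ hM => ?_⟩
      · have h1 := hk_mul hk hk'
        rw [Ideal.span_singleton_mul_span_singleton, ← Nat.cast_mul] at h1
        simpa using h1
      · rw [Nat.cast_mul] at hM
        change κ I * κ' I = _
        rw [hκ F π I χ hπ hχ (left_ne_zero_of_mul hM), hκ' F π I χ hπ hχ (right_ne_zero_of_mul hM),
          Nat.cast_mul, map_mul, ← map_mul τ]
        rfl

end

end Pool.Agent.NH35.HD
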