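import Pool.Agent.NH35.HD.Fin

/-! The orders of the `L`-functions of the products. -/

set_option autoImplicit false
set_option linter.unusedSectionVars false
open Filter Topology Finset Polynomial
open Pool.Agent.H341R2 (E lam lam_tendsto)
open Pool.Agent.Y149.PK
open Pool.Agent.Y149.CM (LFun nt kunneth)

namespace Pool.Agent.NH35.HD

section
variable {p : ℕ} {k : ℤ} {ℓ : Nat.Primes} {γ : ℕ → Multiset ℂ}

theorem sqrt_pos (ℓ : Nat.Primes) : 0 < Real.sqrt (ℓ : ℕ) :=
  Real.sqrt_pos.2 (by exact_mod_cast ℓ.2.pos)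

theorem IsFrobC.vg (h : IsFrobC p k ℓ γ) {N : ℕ → ℕ} (hN : ∀ c, bettiC p c ≤ N c) :
    VG N ℓ γ := by
  refine ⟨fun a z hz => ?_, fun a => ?_⟩
  · match a with
    | 0 =>
        rw [h.zero, Multiset.mem_singleton] at hz
        rw [hz]
        simp
    | 1 =>
        rw [pow_one]
        exact h.weight z hz
    | 2 =>
        rw [h.two, Multiset.mem_singleton] at hz
        rw [hz, Real.sq_sqrt (Nat.cast_nonneg _)]
        simp
    | (c + 3) =>
        rw [h.vanish _ (by omega)] at hz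
        exact absurd hz (Multiset.notMem_zero z)
  · refine le_trans ?_ (hN a)
    match a with
    | 0 => rw [h.zero]; simp [bettiC]
    | 1 => rw [h.card]; simp [bettiC]
    | 2 => rw [h.two]; simp [bettiC]
    | (c + 3) => rw [h.vanish _ (by omega)]; simp

theorem IsFrobC.sum_one (h : IsFrobC p k ℓ γ) :
    (γ 1).sum / ((Real.sqrt (ℓ : ℕ) : ℝ) : ℂ) = ((TT p k ℓ : ℝ) : ℂ) := by
  have : Fact (ℓ : ℕ).Prime := ⟨ℓ.2⟩
  have h1 := h.count (ZMod (ℓ : ℕ)) 1 (by rw [Nat.card_zmod, pow_one])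
  simp only [pow_one, Multiset.map_id'] at h1
  unfold TT
  push_cast
  rw [h1]
  congr 1
  ring

theorem IsFrobC.tt_le (hp : 1 ≤ p) (h : IsFrobC p k ℓ γ) : |TT p k ℓ| ≤ (p : ℝ) - 1 := by
  have h1 := h.sum_one
  have h2 : ‖((TT p k ℓ : ℝ) : ℂ)‖ = |TT p k ℓ| := by
    rw [Complex.norm_real, Real.norm_eq_abs]
  rw [← h2, ← h1, norm_div, Complex.norm_real, Real.norm_of_nonneg (Real.sqrt_nonneg _),
    div_le_iff₀ (sqrt_pos ℓ)]
  have h3 := Pool.Agent.Y149.CM.norm_msum (γ 1) (fun z => z) (Real.sqrt (ℓ : ℕ))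
    (fun z hz => (h.weight z hz).le)
  rw [Multiset.map_id', h.card, Nat.cast_sub hp, Nat.cast_one] at h3
  exact h3

theorem IsFrobC.tc (hp : 1 ≤ p) (h : IsFrobC p k ℓ γ) : TC p k ℓ = TT p k ℓ := by
  unfold TC
  rw [if_pos (h.tt_le hp)]

theorem IsFrobC.nt_eq (hp : 1 ≤ p) (h : IsFrobC p k ℓ γ) (c : ℕ) :
    nt ℓ γ c = ((tE c + vE c * TC p k ℓ : ℝ) : ℂ) := by
  unfold nt
  have hs : ((Real.sqrt (ℓ : ℕ) : ℝ) : ℂ) ≠ 0 := by exact_mod_cast (sqrt_pos ℓ).ne'
  match c with
  | 0 => simp [h.zero, tE, vE]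
  | 1 =>
      rw [pow_one, h.sum_one, h.tc hp]
      simp [tE, vE]
  | 2 =>
      have h1 : ((Real.sqrt (ℓ : ℕ) : ℝ) : ℂ) ^ 2 = ((ℓ : ℕ) : ℂ) := by
        rw [← Complex.ofReal_pow, Real.sq_sqrt (Nat.cast_nonneg _)]
        simp
      rw [h.two, Multiset.sum_singleton, h1, div_self]
      · simp [tE, vE]
      · exact_mod_cast ℓ.2.ne_zero
  | (c + 3) =>
      rw [h.vanish _ (by omega)]
      simp [tE, vE]

end

section
variable {ι : Type} {p : ι → ℕ} {k : ι → ℤ} {γ : ι → Nat.Primes → ℕ → Multiset ℂ}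
  {β : Nat.Primes → ℕ → Multiset ℂ} {N0 : ℕ → ℕ}

/-- the `L`-function of the product -/
theorem link (hC : IsCurveFamily p k) (hβ : ∀ᶠ ℓ in cofinite, VG N0 ℓ (β ℓ))
    (hγ : ∀ i, ∀ᶠ ℓ : Nat.Primes in cofinite, IsFrobC (p i) (k i) ℓ (γ i ℓ))
    (l : List ι) {n : ℕ} {B : Nat.Primes → ℂ[X]}
    (hB : IsEuler n (fun ℓ => frobProd (β ℓ) (fun e => γ e ℓ) l n) B) :
    ∃ C : ℝ, ∀ᶠ ε : ℝ in 𝓝[>] 0, LFun B ((n : ℂ) / 2 + 1 + ε) ≠ 0 ∧
      |Real.log ‖LFun B ((n : ℂ) / 2 + 1 + ε)‖ - E ε (PP (ZZ N0 β) (TF p k) l n)| ≤ C := by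
  classical
  have h1 : ∀ᶠ ℓ : Nat.Primes in cofinite, ∀ e ∈ l, IsFrobC (p e) (k e) ℓ (γ e ℓ) := by
    have h2 : ∀ᶠ ℓ : Nat.Primes in cofinite, ∀ e ∈ l.toFinset,
        IsFrobC (p e) (k e) ℓ (γ e ℓ) := by
      rw [Filter.eventually_all_finset]
      exact fun e _ => hγ e
    exact h2.mono fun p h e he => h e (List.mem_toFinset.2 he)
  let N : ℕ → ℕ := fun _ => 1 + ∑ e ∈ l.toFinset, p e
  have hN : ∀ e ∈ l, ∀ c, bettiC (p e) c ≤ N c := by
    intro e he c
    have h2 : p e ≤ ∑ e ∈ l.toFinset, p e :=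
      Finset.single_le_sum (f := p) (fun _ _ => Nat.zero_le _) (List.mem_toFinset.2 he)
    simp only [N]
    unfold bettiC
    split_ifs <;> omega
  refine log_gen hB (Mb := dimY N0 N l.length n)
    (C0 := QQ (fun c => (N0 c : ℝ)) (fun e c => (bettiC (p e) c : ℝ)) l n) ?_ ?_ ?_
  · filter_upwards [hβ, h1] with ℓ g1 g2
    exact frobProd_VG g1 l (fun e he => (g2 e he).vg (hN e he)) n
  · exact fun ℓ => PP_bd (TF_le hC) (ZZ_le N0 β) l n ℓ
  · filter_upwards [hβ, h1] with ℓ g1 g2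
    exact (nt_frobProd_re (T := TF p k) (ZZ_eq g1) l
      (fun e he c => (g2 e he).nt_eq (hC.prime e).one_le c) n).symm

theorem size_lim (hC : IsCurveFamily p k) (hβ : ∀ᶠ ℓ in cofinite, VG N0 ℓ (β ℓ))
    (hγ : ∀ i, ∀ᶠ ℓ : Nat.Primes in cofinite, IsFrobC (p i) (k i) ℓ (γ i ℓ))
    (l : List ι) {n : ℕ} {B : Nat.Primes → ℂ[X]}
    (hB : IsEuler n (fun ℓ => frobProd (β ℓ) (fun e => γ e ℓ) l n) B) :
    Tendsto (fun ε : ℝ => size n B ε - E ε (PP (ZZ N0 β) (TF p k) l n) / lam ε)
      (𝓝[>] 0) (𝓝 0) :=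
  size_sub (fun ℓ => PP_bd (TF_le hC) (ZZ_le N0 β) l n ℓ) (link hC hβ hγ l hB)

theorem QQ_div {z : ℕ → ℝ} (τ : ι → ℕ → ℝ) (l : List ι) (n : ℕ) (c : ℝ) :
    QQ (fun a => z a / c) τ l n = QQ z τ l n / c := by
  induction l generalizing n with
  | nil => rfl
  | cons e l ih =>
      rw [QQ, QQ, Finset.sum_div]
      exact Finset.sum_congr rfl fun x _ => by rw [ih]; ring

variable {B : List ι → ℕ → Nat.Primes → ℂ[X]}

/-- **The size of the `L`-function of the product.** -/
theorem main_size (hC : IsCurveFamily p k) (hβ : ∀ᶠ ℓ in cofinite, VG N0 ℓ (β ℓ))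
    (hγ : ∀ i, ∀ᶠ ℓ : Nat.Primes in cofinite, IsFrobC (p i) (k i) ℓ (γ i ℓ))
    (hB : ∀ l n, IsEuler n (fun ℓ => frobProd (β ℓ) (fun e => γ e ℓ) l n) (B l n))
    {l : List ι} (hl : (l.map p).Nodup) (n : ℕ) {η : ℝ} (hη : 0 < η) :
    ∀ᶠ ε : ℝ in 𝓝[>] 0, |size n (B l n) ε -
      evenPart (fun c => size c (B [] c) ε) l.length n| ≤ err N0 p l n + η := by
  have h1 := mean hC (ZZ_le N0 β) l hl n (η / 2) (by positivity)
  have h2 := size_lim hC hβ hγ l (hB l n)
  have h3 := QQ_tendsto (z := fun c ε => size c (B [] c) ε)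
    (z' := fun c ε => E ε (ZZ N0 β c) / lam ε) (fun _ : ι => tE) l n
    fun c _ => size_lim hC hβ hγ [] (hB [] c)
  have h4 := (h2.sub h3).abs
  rw [sub_zero, abs_zero] at h4
  filter_upwards [h1, h4.eventually_lt_const (show (0 : ℝ) < η / 2 by positivity), lam_pos]
    with ε g1 g2 g3
  rw [QQ_const, bnd_even] at g2
  have e1 : QQ (fun c => E ε (ZZ N0 β c) / lam ε) (fun _ : ι => tE) l n =
      QQ (fun c => E ε (ZZ N0 β c)) (fun _ : ι => tE) l n / lam ε := QQ_div _ l n _
  rw [e1] at g2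
  have e2 : err N0 p l n = QQ (fun c => (N0 c : ℝ)) (fun i c => weightC (p i) c) l n -
      QQ (fun c => (N0 c : ℝ)) (fun _ => tE) l n := by
    unfold err
    rw [QQ_const, bnd_even]
  rw [e2]
  set X := E ε (PP (ZZ N0 β) (TF p k) l n)
  set Y := QQ (fun c => E ε (ZZ N0 β c)) (fun _ : ι => tE) l n
  have g5 : |X / lam ε - Y / lam ε| ≤ QQ (fun c => (N0 c : ℝ)) (fun i c => weightC (p i) c) l n -
      QQ (fun c => (N0 c : ℝ)) (fun _ => tE) l n + η / 2 := by
    rw [← sub_div, abs_div, abs_of_pos g3, div_le_iff₀ g3]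
    exact g1
  rw [abs_le] at *
  have g6 := abs_lt.1 g2
  constructor <;> linarith [g5.1, g5.2, g6.1, g6.2]

/-- one more curve -/
theorem one_size (hC : IsCurveFamily p k) (hβ : ∀ᶠ ℓ in cofinite, VG N0 ℓ (β ℓ))
    (hγ : ∀ i, ∀ᶠ ℓ : Nat.Primes in cofinite, IsFrobC (p i) (k i) ℓ (γ i ℓ))
    (hB : ∀ l n, IsEuler n (fun ℓ => frobProd (β ℓ) (fun e => γ e ℓ) l n) (B l n))
    (i : ι) (l : List ι) (n : ℕ) {η : ℝ} (hη : 0 < η) :
    ∀ᶠ ε : ℝ in 𝓝[>] 0, |size n (B (i :: l) n) ε -
      evenPart (fun c => size c (B l c) ε) 1 n| ≤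
        (dimC N0 p l (n - 1) : ℝ) / Real.sqrt ((p i : ℝ) - 1) + η := by
  have h1 := mean_one hC (ZZ_le N0 β) i l n (η / 2) (by positivity)
  have h2 := size_lim hC hβ hγ (i :: l) (hB (i :: l) n)
  have h3 := QQ_tendsto (z := fun c ε => size c (B l c) ε)
    (z' := fun c ε => E ε (PP (ZZ N0 β) (TF p k) l c) / lam ε) (fun _ : ι => tE) [i] n
    fun c _ => size_lim hC hβ hγ l (hB l c)
  have h4 := (h2.sub h3).abs
  rw [sub_zero, abs_zero] at h4
  filter_upwards [h1, h4.eventually_lt_const (show (0 : ℝ) < η / 2 by positivity), lam_pos]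
    with ε g1 g2 g3
  rw [QQ_const, bnd_even, List.length_singleton] at g2
  have e1 : QQ (fun c => E ε (PP (ZZ N0 β) (TF p k) l c) / lam ε) (fun _ : ι => tE) [i] n =
      (∑ x ∈ antidiagonal n, E ε (PP (ZZ N0 β) (TF p k) l x.1) * tE x.2) / lam ε := by
    rw [QQ, Finset.sum_div]
    refine Finset.sum_congr rfl fun x _ => ?_
    rw [QQ]
    ring
  rw [e1] at g2
  have e2 : (dimC N0 p l (n - 1) : ℝ) =
      QQ (fun c => (N0 c : ℝ)) (fun e c => (bettiC (p e) c : ℝ)) l (n - 1) := QQ_cast _ _ _ _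
  rw [e2]
  set X := E ε (PP (ZZ N0 β) (TF p k) (i :: l) n)
  set Y := ∑ x ∈ antidiagonal n, E ε (PP (ZZ N0 β) (TF p k) l x.1) * tE x.2
  have g5 : |X / lam ε - Y / lam ε| ≤
      QQ (fun c => (N0 c : ℝ)) (fun e c => (bettiC (p e) c : ℝ)) l (n - 1) /
        Real.sqrt ((p i : ℝ) - 1) + η / 2 := by
    rw [← sub_div, abs_div, abs_of_pos g3, div_le_iff₀ g3]
    exact g1
  rw [abs_le] at *
  have g6 := abs_lt.1 g2
  constructor <;> linarith [g5.1, g5.2, g6.1, g6.2]

theorem evenPart_lim {z : ℕ → ℝ → ℝ} {r : ℕ → ℤ} (j n : ℕ)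
    (h : ∀ c, c ≤ n → Even (n - c) → Tendsto (z c) (𝓝[>] 0) (𝓝 (r c))) :
    Tendsto (fun ε => evenPart (fun c => z c ε) j n) (𝓝[>] 0) (𝓝 (evenPart r j n : ℤ)) := by
  have h1 : ((evenPart r j n : ℤ) : ℝ) = evenPart (fun a => (r a : ℝ)) j n :=
    (evenPart_cast_int r j n).symm
  rw [h1]
  unfold evenPart
  refine tendsto_finsetSum _ fun a ha => ?_
  have h2 := Finset.mem_range.1 ha
  refine (h (n - 2 * a) (Nat.sub_le _ _) ?_).const_mul _
  have h3 : n - (n - 2 * a) = 2 * a := by omega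
  rw [h3]
  exact even_two_mul a

/-- the orders of the products -/
theorem main_order (hC : IsCurveFamily p k) (hβ : ∀ᶠ ℓ in cofinite, VG N0 ℓ (β ℓ))
    (hγ : ∀ i, ∀ᶠ ℓ : Nat.Primes in cofinite, IsFrobC (p i) (k i) ℓ (γ i ℓ))
    (hB : ∀ l n, IsEuler n (fun ℓ => frobProd (β ℓ) (fun e => γ e ℓ) l n) (B l n))
    {l : List ι} (hl : (l.map p).Nodup) {n : ℕ} {r₀ : ℕ → ℤ} {r : ℤ}
    (h₀ : ∀ c, c ≤ n → Even (n - c) → HasOrder c (B [] c) (-(r₀ c)))
    (hr : HasOrder n (B l n) (-r)) : |(r : ℝ) - evenPart r₀ l.length n| ≤ err N0 p l n := by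
  refine le_of_forall_pos_le_add fun η hη => ?_
  have h1 := main_size hC hβ hγ hB hl n hη
  have h2 := ((size_order hr).sub (evenPart_lim (z := fun c ε => size c (B [] c) ε)
    l.length n fun c hc he => size_order (h₀ c hc he))).abs
  exact le_of_tendsto h2 h1

theorem evenPart_nil (z : ℕ → ℝ) (n : ℕ) : evenPart z 0 n = z n := by
  have h := bnd_even z 0 n
  rw [← h]
  rfl

theorem one_order (hC : IsCurveFamily p k) (hβ : ∀ᶠ ℓ in cofinite, VG N0 ℓ (β ℓ))
    (hγ : ∀ i, ∀ᶠ ℓ : Nat.Primes in cofinite, IsFrobC (p i) (k i) ℓ (γ i ℓ))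
    (hB : ∀ l n, IsEuler n (fun ℓ => frobProd (β ℓ) (fun e => γ e ℓ) l n) (B l n))
    (i : ι) (l : List ι) {n : ℕ} {r₀ r₂ r : ℤ} (hd : dimC N0 p l (n - 1) ^ 2 < p i - 1)
    (h₀ : HasOrder n (B l n) (-r₀)) (h₂ : 2 ≤ n → HasOrder (n - 2) (B l (n - 2)) (-r₂))
    (hr : HasOrder n (B (i :: l) n) (-r)) : r = r₀ + if 2 ≤ n then r₂ else 0 := by
  have hlim : Tendsto (fun ε => evenPart (fun c => size c (B l c) ε) 1 n) (𝓝[>] 0)
      (𝓝 (r₀ + if 2 ≤ n then r₂ else 0 : ℤ)) := by
    simp only [evenPart_succ, evenPart_nil]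
    split_ifs with h2
    · push_cast
      exact (size_order h₀).add (size_order (h₂ h2))
    · simp only [add_zero]
      exact size_order h₀
  have h1 : |(r : ℝ) - (r₀ + if 2 ≤ n then r₂ else 0 : ℤ)| ≤
      (dimC N0 p l (n - 1) : ℝ) / Real.sqrt ((p i : ℝ) - 1) := by
    refine le_of_forall_pos_le_add fun η hη => ?_
    have h1 := one_size hC hβ hγ hB i l n hη
    have h2 := ((size_order hr).sub hlim).abs
    exact le_of_tendsto h2 h1
  have hp1 : (1 : ℝ) < p i := by exact_mod_cast (hC.prime i).one_lt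
  have hsq : 0 < Real.sqrt ((p i : ℝ) - 1) := Real.sqrt_pos.2 (by linarith)
  have h2 : (dimC N0 p l (n - 1) : ℝ) / Real.sqrt ((p i : ℝ) - 1) < 1 := by
    rw [div_lt_one hsq]
    refine Real.lt_sqrt_of_sq_lt ?_
    have h3 : ((dimC N0 p l (n - 1) ^ 2 : ℕ) : ℝ) < ((p i - 1 : ℕ) : ℝ) := by exact_mod_cast hd
    rw [Nat.cast_sub (hC.prime i).one_le, Nat.cast_one, Nat.cast_pow] at h3
    exact h3
  have h3 : |((r - (r₀ + if 2 ≤ n then r₂ else 0) : ℤ) : ℝ)| < 1 := by
    rw [Int.cast_sub]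
    exact h1.trans_lt h2
  have h4 : |r - (r₀ + if 2 ≤ n then r₂ else 0)| < 1 := by exact_mod_cast h3
  have h5 := Int.abs_lt_one_iff.1 h4
  omega

/-- the dimensions are bounded by the total Betti numbers -/
theorem dimC_le (b : ℕ → ℕ) {D : ℕ} (hb : ∀ c, D < c → b c = 0) (hp : ∀ i, 1 ≤ p i)
    (l : List ι) (n : ℕ) :
    dimC b p l n ≤ (∑ c ∈ Finset.range (D + 1), b c) * (l.map fun i => p i + 1).prod := by
  unfold dimC
  have key : ∀ l : List ι, ∀ A : Finset ℕ, ∑ a ∈ A, QQ b (fun i c => bettiC (p i) c) l a ≤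
      (∑ c ∈ Finset.range (D + 1), b c) * (l.map fun i => p i + 1).prod := by
    intro l
    induction l with
    | nil =>
        intro A
        rw [List.map_nil, List.prod_nil, mul_one]
        calc ∑ a ∈ A, QQ b (fun i c => bettiC (p i) c) [] a = ∑ a ∈ A, b a := rfl
          _ ≤ ∑ a ∈ A ∪ Finset.range (D + 1), b a :=
              Finset.sum_le_sum_of_subset Finset.subset_union_left
          _ = ∑ c ∈ Finset.range (D + 1), b c := by
              symm
              refine Finset.sum_subset Finset.subset_union_right fun a _ ha => hb a ?_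
              rw [Finset.mem_range] at ha
              omega
    | cons e l ih =>
        intro A
        rw [List.map_cons, List.prod_cons]
        have h1 : ∀ a, QQ b (fun i c => bettiC (p i) c) (e :: l) a ≤
            QQ b (fun i c => bettiC (p i) c) l a +
            (p e - 1) * (if 1 ≤ a then QQ b (fun i c => bettiC (p i) c) l (a - 1) else 0) +
            (if 2 ≤ a then QQ b (fun i c => bettiC (p i) c) l (a - 2) else 0) := by
          intro a
          rw [QQ]
          match a with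
          | 0 => simp [bettiC]
          | 1 =>
              rw [Finset.Nat.sum_antidiagonal_succ']
              refine le_of_eq ?_
              simp [bettiC]
              ring
          | (a + 2) =>
              rw [Finset.Nat.sum_antidiagonal_succ', Finset.Nat.sum_antidiagonal_succ',
                if_pos (by omega), if_pos (by omega)]
              have h2 : ∑ x ∈ antidiagonal a, QQ b (fun i c => bettiC (p i) c) l x.1 *
                  bettiC (p e) (x.2 + 1 + 1) = QQ b (fun i c => bettiC (p i) c) l a := by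
                rw [Finset.sum_eq_single (a, 0)]
                · simp [bettiC]
                · intro x hx hne
                  have h3 : bettiC (p e) (x.2 + 1 + 1) = 0 := by
                    unfold bettiC
                    rw [if_neg, if_neg (by omega)]
                    intro h4
                    have h5 := mem_antidiagonal.1 hx
                    apply hne
                    ext
                    · simp; omega
                    · simp; omega
                  rw [h3, mul_zero]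
                · intro h
                  exact absurd (HasAntidiagonal.mem_antidiagonal.2 (by simp)) h
              rw [h2]
              have e1 : a + 2 - 1 = a + 1 := by omega
              have e2 : a + 2 - 2 = a := by omega
              rw [e1, e2]
              have e3 : bettiC (p e) 0 = 1 := by simp [bettiC]
              have e4 : bettiC (p e) (0 + 1) = p e - 1 := by simp [bettiC]
              simp only [e3, e4]
              have e5 : QQ b (fun i c => bettiC (p i) c) l (a + 1) * (p e - 1) =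
                  (p e - 1) * QQ b (fun i c => bettiC (p i) c) l (a + 1) := mul_comm _ _
              rw [mul_one, show a + 1 + 1 = a + 2 from rfl]
              omega
        set Q := QQ b (fun i c => bettiC (p i) c) l with hQ
        have s1 : ∑ a ∈ A, (if 1 ≤ a then Q (a - 1) else 0) ≤
            (∑ c ∈ Finset.range (D + 1), b c) * (l.map fun i => p i + 1).prod := by
          rw [← Finset.sum_filter]
          have h2 : ∑ a ∈ A.filter (fun a => 1 ≤ a), Q (a - 1) =
              ∑ a ∈ (A.filter (fun a => 1 ≤ a)).image (fun a => a - 1), Q a := by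
            rw [Finset.sum_image]
            intro x hx y hy hxy
            have hx' := (Finset.mem_filter.1 hx).2
            have hy' := (Finset.mem_filter.1 hy).2
            simp only at hxy
            omega
          rw [h2]
          exact ih _
        have s2 : ∑ a ∈ A, (if 2 ≤ a then Q (a - 2) else 0) ≤
            (∑ c ∈ Finset.range (D + 1), b c) * (l.map fun i => p i + 1).prod := by
          rw [← Finset.sum_filter]
          have h2 : ∑ a ∈ A.filter (fun a => 2 ≤ a), Q (a - 2) =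
              ∑ a ∈ (A.filter (fun a => 2 ≤ a)).image (fun a => a - 2), Q a := by
            rw [Finset.sum_image]
            intro x hx y hy hxy
            have hx' := (Finset.mem_filter.1 hx).2
            have hy' := (Finset.mem_filter.1 hy).2
            simp only at hxy
            omega
          rw [h2]
          exact ih _
        set W := (∑ c ∈ Finset.range (D + 1), b c) * (l.map fun i => p i + 1).prod with hW
        calc ∑ a ∈ A, QQ b (fun i c => bettiC (p i) c) (e :: l) a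
            ≤ ∑ a ∈ A, (Q a + (p e - 1) * (if 1 ≤ a then Q (a - 1) else 0) +
              (if 2 ≤ a then Q (a - 2) else 0)) := Finset.sum_le_sum fun a _ => h1 a
          _ = ∑ a ∈ A, Q a + (p e - 1) * ∑ a ∈ A, (if 1 ≤ a then Q (a - 1) else 0) +
              ∑ a ∈ A, (if 2 ≤ a then Q (a - 2) else 0) := by
              rw [Finset.sum_add_distrib, Finset.sum_add_distrib, Finset.mul_sum]
          _ ≤ W + (p e - 1) * W + W :=
              add_le_add (add_le_add (ih A) (Nat.mul_le_mul_left _ s1)) s2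
          _ = (p e + 1) * W := by
              obtain ⟨c, hc⟩ := Nat.exists_eq_add_of_le (hp e)
              rw [hc, Nat.add_sub_cancel_left]
              ring
          _ = _ := by rw [hW]; ring
  have h1 := key l {n}
  rwa [Finset.sum_singleton] at h1

end

end Pool.Agent.NH35.HD
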