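import Pool.Agent.NH35.HD.Cnt

/-! The product of the Hecke characters of the curves. -/

set_option autoImplicit false
set_option linter.unusedSectionVars false
open NumberField NumberField.InfinitePlace IsDedekindDomain
open Module nonZeroDivisors Ideal IsCyclotomicExtension
open scoped ComplexConjugate

namespace Pool.Agent.NH35.HD
open Pool.Agent.NH35.HC (Hk coprime_span)

/-- the principal character -/
theorem hk_prin {K : Type} [Field K] [NumberField K] {n : ℕ} (hn : n ≠ 0) :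
    ∃ χ : Ideal (𝓞 K) → ℂ, Hk χ (span {((n : ℕ) : 𝓞 K)}) (fun _ => 1) ∧
      ∀ I, IsCoprime I (span {((n : ℕ) : 𝓞 K)}) → χ I = 1 := by
  classical
  refine ⟨fun I => if IsCoprime I (span {((n : ℕ) : 𝓞 K)}) then 1 else 0,
    ⟨?_, fun I hI => if_neg hI, fun I hI => ?_, fun I I' => ?_,
    fun α _ h1 => if_pos (coprime_span h1), fun _ _ _ _ => by simp, fun _ _ => by simp,
    ⟨0, le_rfl, fun x x' _ _ δ _ _ => by simp⟩⟩, fun I hI => if_pos hI⟩
  · rw [Ne, Ideal.span_singleton_eq_bot]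
    exact Nat.cast_ne_zero.2 hn
  · rw [if_pos hI]
    simp
  · by_cases h : IsCoprime (I * I') (span {((n : ℕ) : 𝓞 K)})
    · have h1 := IsCoprime.mul_left_iff.1 h
      rw [if_pos h, if_pos h1.1, if_pos h1.2, one_mul]
    · have h1 : ¬ IsCoprime I (span {((n : ℕ) : 𝓞 K)}) ∨
          ¬ IsCoprime I' (span {((n : ℕ) : 𝓞 K)}) := by
        by_contra h2
        push Not at h2
        exact h (IsCoprime.mul_left_iff.2 h2)
      rw [if_neg h]
      rcases h1 with h1 | h1
      · rw [if_neg h1, zero_mul]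
      · rw [if_neg h1, mul_zero]

section
variable {ι : Type} [Fintype ι] [DecidableEq ι] {p : ι → ℕ} [hpr : ∀ i, Fact (p i).Prime]
  {m : ℕ} [NeZero m] [hpm : ∀ i, Fact (p i ∣ m)]

theorem exists_psi_aux (K : Type) [Field K] [NumberField K]
    [IsCyclotomicExtension {m} ℚ K] (hp : ∀ i, p i ≠ 2) (τ : K →+* ℂ) (k : ι → ℤ)
    (hk : ∀ i, ¬ (p i : ℤ) ∣ k i) {n : ℕ} (hn : n ≠ 0) (S : Finset ι) :
    ∃ (Ψ : Ideal (𝓞 K) → ℂ) (M : ℕ), M ≠ 0 ∧ n ∣ M ∧
    Hk Ψ (span {((M : ℕ) : 𝓞 K)}) (fun x => ∏ i ∈ S, (chinf m K (wt m (p i) 1 1) τ x : ℂ)) ∧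
    ∀ (F : Type) [Field F] [Fintype F] (π : 𝓞 K →+* F) (I : Ideal (𝓞 K))
      (χ : ι → MulChar F (𝓞 K)), Pl m π I → (∀ i, Rc (p i) π (χ i)) → ((M : ℕ) : F) ≠ 0 →
      Ψ I = ∏ i ∈ S, (τ ((χ i (4 * (k i : F)) * jj 1 1 (χ i) : 𝓞 K) : K) /
        ((Real.sqrt (Fintype.card F) : ℝ) : ℂ)) := by
  induction S using Finset.induction_on with
  | empty =>
      obtain ⟨χ, h1, h2⟩ := hk_prin (K := K) hn
      refine ⟨χ, n, hn, dvd_rfl, by simpa using h1, fun F _ _ π I χ hπ hχ hM => ?_⟩
      rw [h2 I (hπ.coprime hM), Finset.prod_empty]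
  | insert i S hi ih =>
      obtain ⟨Ψ, M, hM0, hnM, hΨ, hval⟩ := ih
      obtain ⟨ψ, hψ, hψv⟩ := exists_jac m K (p i) (hp i) τ one_ndvd one_ndvd (two_ndvd (hp i))
      have h4 : ¬ p i ∣ 4 * (k i).natAbs := by
        intro h
        rcases (Nat.Prime.dvd_mul (hpr i).out).1 h with h | h
        · have h3 : p i ∣ 2 ^ 2 := h
          exact hp i ((Nat.prime_dvd_prime_iff_eq (hpr i).out Nat.prime_two).1
            ((hpr i).out.dvd_of_dvd_pow h3))
        · exact hk i (Int.natCast_dvd.2 h)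
      obtain ⟨κ, M', hM0', hκ, hκv⟩ := exists_kummer m K (p i) (hp i) τ (4 * (k i).natAbs) h4
      refine ⟨fun I => (κ I * ψ I) * Ψ I, (M' * p i) * M,
        mul_ne_zero (mul_ne_zero hM0' (hpr i).out.ne_zero) hM0, hnM.mul_left _, ?_,
        fun F _ _ π I χ hπ hχ hM => ?_⟩
      · have h5 := hk_mul (hk_mul hκ hψ) hΨ
        rw [Ideal.span_singleton_mul_span_singleton, Ideal.span_singleton_mul_span_singleton,
          ← Nat.cast_mul, ← Nat.cast_mul] at h5
        have e : (fun x : 𝓞 K => ∏ j ∈ insert i S, (chinf m K (wt m (p j) 1 1) τ x : ℂ)) =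
            fun x => (1 * (chinf m K (wt m (p i) 1 1) τ x : ℂ)) *
              ∏ j ∈ S, (chinf m K (wt m (p j) 1 1) τ x : ℂ) := by
          funext x
          rw [Finset.prod_insert hi, one_mul]
        rw [e]
        exact h5
      · rw [Nat.cast_mul, Nat.cast_mul] at hM
        have a1 := hval F π I χ hπ hχ (right_ne_zero_of_mul hM)
        have a2 := hψv F π I (χ i) hπ (hχ i)
        have a3 := hκv F π I (χ i) hπ (hχ i) (left_ne_zero_of_mul (left_ne_zero_of_mul hM))
        have e4 : χ i ((4 * (k i).natAbs : ℕ) : F) = χ i (4 * (k i : F)) := by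
          rcases Int.natAbs_eq (k i) with h | h
          · have h6 := congrArg (Int.cast : ℤ → F) h
            rw [Int.cast_natCast] at h6
            rw [h6, Nat.cast_mul]
            rfl
          · have h6 := congrArg (Int.cast : ℤ → F) h
            rw [Int.cast_neg, Int.cast_natCast] at h6
            have h7 : 4 * (k i : F) = (-1) * ((4 * (k i).natAbs : ℕ) : F) := by
              rw [h6]
              push_cast
              ring
            rw [h7, map_mul, chi_neg (hp i) (hχ i).pow, one_mul]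
        change (κ I * ψ I) * Ψ I = _
        rw [Finset.prod_insert hi, a1, a2, a3, e4]
        congr 1
        rw [← mul_div_assoc, ← map_mul]
        rfl

theorem chinf_ws {K : Type} [Field K] [NumberField K] [IsCyclotomicExtension {m} ℚ K]
    (τ : K →+* ℂ) {x : 𝓞 K} (hx : x ≠ 0) :
    (chinf m K (ws p m) τ x : ℂ) = ∏ i, (chinf m K (wt m (p i) 1 1) τ x : ℂ) := by
  have h1 : xw m K (ws p m) x = ∏ i, xw m K (wt m (p i) 1 1) x := by
    unfold xw
    rw [Finset.prod_comm]
    refine Finset.prod_congr rfl fun t _ => ?_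
    unfold ws
    rw [← Finset.prod_pow_eq_pow_sum]
  unfold chinf
  rw [h1, cz_prod τ _ _ fun i _ => xw_ne hx]
  exact map_prod Circle.coeHom _ _

end

end Pool.Agent.NH35.HD
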