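import Pool.Agent.NH35.HD.Cz

/-! The residue character and its Jacobi sums. -/

set_option autoImplicit false
set_option linter.unusedSectionVars false
open NumberField NumberField.InfinitePlace IsDedekindDomain
open Module nonZeroDivisors Ideal IsCyclotomicExtension
open scoped ComplexConjugate

namespace Pool.Agent.NH35.HD

section gen
variable {p : ℕ} [Fact p.Prime] {K : Type} [Field K] [NumberField K]
  {F : Type} [Field F] [Fintype F] {ζ : 𝓞 K} (hζ : IsPrimitiveRoot ζ p)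

include hζ

theorem map_zt (π : 𝓞 K →+* F) (hpF : ((p : ℕ) : F) ≠ 0) : IsPrimitiveRoot (π ζ) p := by
  have hpr : p.Prime := Fact.out
  have h1 : ζ - 1 ∣ ((p : ℕ) : 𝓞 K) := by
    obtain ⟨z, -, hz⟩ := hζ.self_sub_one_pow_dvd_order (k := 1) hpr.one_lt
    exact ⟨z, by rw [hz]; ring⟩
  have h2 : π ζ ≠ 1 := by
    intro h
    obtain ⟨z, hz⟩ := h1
    have h3 := congrArg π hz
    rw [map_mul, map_sub, map_one, h, sub_self, zero_mul, map_natCast] at h3
    exact hpF h3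
  have h3 : π ζ ^ p = 1 := by rw [← map_pow, hζ.pow_eq_one, map_one]
  exact IsPrimitiveRoot.iff_orderOf.2 (orderOf_eq_prime h3 h2)

theorem p_dvd (π : 𝓞 K →+* F) (hpF : ((p : ℕ) : F) ≠ 0) : p ∣ Fintype.card F - 1 := by
  classical
  have h1 := map_zt hζ π hpF
  have h2 : π ζ ^ (Fintype.card F - 1) = 1 := by
    apply FiniteField.pow_card_sub_one_eq_one
    exact h1.ne_zero (Fact.out : p.Prime).ne_zero
  exact h1.dvd_of_pow_eq_one _ h2

/-- two roots of unity congruent modulo a prime not above `p` are equal -/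
theorem root_inj (π : 𝓞 K →+* F) (hpF : ((p : ℕ) : F) ≠ 0) {a b : 𝓞 K} (ha : a ^ p = 1)
    (hb : b ^ p = 1) (h : π a = π b) : a = b := by
  obtain ⟨i, hi, rfl⟩ := hζ.eq_pow_of_pow_eq_one ha
  obtain ⟨j, hj, rfl⟩ := hζ.eq_pow_of_pow_eq_one hb
  rw [map_pow, map_pow] at h
  rw [(map_zt hζ π hpF).pow_inj hi hj h]

theorem root_lift (π : 𝓞 K →+* F) (hpF : ((p : ℕ) : F) ≠ 0) {y : F} (hy : y ^ p = 1) :
    ∃ a : 𝓞 K, a ^ p = 1 ∧ π a = y := by
  obtain ⟨i, hi, rfl⟩ := (map_zt hζ π hpF).eq_pow_of_pow_eq_one hy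
  refine ⟨ζ ^ i, ?_, map_pow _ _ _⟩
  rw [← pow_mul, mul_comm, pow_mul, hζ.pow_eq_one, one_pow]

/-- the residue character -/
theorem exists_res (π : 𝓞 K →+* F) (hpF : ((p : ℕ) : F) ≠ 0) :
    ∃ χ : MulChar F (𝓞 K), χ ^ p = 1 ∧ ∀ y : F, π (χ y) = y ^ ((Fintype.card F - 1) / p) := by
  classical
  have hpr : p.Prime := Fact.out
  set k := (Fintype.card F - 1) / p with hk
  have hkp : k * p = Fintype.card F - 1 := Nat.div_mul_cancel (p_dvd hζ π hpF)
  have hcard : 1 < Fintype.card F := Fintype.one_lt_card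
  have hk0 : k ≠ 0 := by
    intro h
    rw [h, zero_mul] at hkp
    omega
  have h1 : ∀ y : Fˣ, ∃ a : 𝓞 K, a ^ p = 1 ∧ π a = (y : F) ^ k := by
    intro y
    apply root_lift hζ π hpF
    rw [← pow_mul, hkp]
    exact FiniteField.pow_card_sub_one_eq_one _ y.ne_zero
  choose f hf1 hf2 using h1
  have hfm : ∀ y z, f (y * z) = f y * f z := by
    intro y z
    apply root_inj hζ π hpF (hf1 _)
    · rw [mul_pow, hf1, hf1, one_mul]
    · rw [hf2, map_mul, hf2, hf2, Units.val_mul, mul_pow]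
  have hf0 : f 1 = 1 := by
    apply root_inj hζ π hpF (hf1 _) (one_pow _)
    rw [hf2, map_one, Units.val_one, one_pow]
  let g : Fˣ →* (𝓞 K)ˣ :=
    { toFun := fun y => ⟨f y, f y⁻¹, by rw [← hfm, mul_inv_cancel, hf0],
        by rw [← hfm, inv_mul_cancel, hf0]⟩
      map_one' := Units.ext hf0
      map_mul' := fun y z => Units.ext (hfm y z) }
  refine ⟨MulChar.ofUnitHom g, ?_, fun y => ?_⟩
  · refine MulChar.ext fun y => ?_
    rw [MulChar.pow_apply_coe, MulChar.ofUnitHom_coe, MulChar.one_apply_coe]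
    exact hf1 y
  · by_cases hy : y = 0
    · rw [hy, MulChar.map_zero, map_zero, zero_pow hk0]
    · have e := MulChar.ofUnitHom_coe g (Units.mk0 y hy)
      rw [Units.val_mk0] at e
      rw [e]
      exact hf2 (Units.mk0 y hy)

variable {χ : MulChar F (𝓞 K)}

theorem chi_ne_one (π : 𝓞 K →+* F) (hpF : ((p : ℕ) : F) ≠ 0)
    (hχ2 : ∀ y : F, π (χ y) = y ^ ((Fintype.card F - 1) / p)) : χ ≠ 1 := by
  classical
  rintro rfl
  have hpr : p.Prime := Fact.out
  have hkp : (Fintype.card F - 1) / p * p = Fintype.card F - 1 :=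
    Nat.div_mul_cancel (p_dvd hζ π hpF)
  have hcard : 1 < Fintype.card F := Fintype.one_lt_card
  obtain ⟨g, hg⟩ := IsCyclic.exists_generator (α := Fˣ)
  have h1 := hχ2 (g : F)
  rw [MulChar.one_apply_coe, map_one] at h1
  have h2 : g ^ ((Fintype.card F - 1) / p) = 1 := Units.ext (by
    rw [Units.val_pow_eq_pow_val, Units.val_one]; exact h1.symm)
  have h3 := orderOf_dvd_of_pow_eq_one h2
  rw [orderOf_eq_card_of_forall_mem_zpowers hg, Nat.card_eq_fintype_card, Fintype.card_units] at h3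
  have h4 : (Fintype.card F - 1) / p ≠ 0 := by
    intro h
    rw [h, zero_mul] at hkp
    omega
  have h5 := Nat.le_of_dvd (Nat.pos_of_ne_zero h4) h3
  have h6 := hpr.two_le
  generalize (Fintype.card F - 1) / p = c at *
  have h7 : c * 2 ≤ c * p := Nat.mul_le_mul_left c h6
  omega

theorem chi_pow_ne_one (π : 𝓞 K →+* F) (hpF : ((p : ℕ) : F) ≠ 0) (hχ : χ ^ p = 1)
    (hχ2 : ∀ y : F, π (χ y) = y ^ ((Fintype.card F - 1) / p)) {a : ℕ} (ha : ¬ p ∣ a) :
    χ ^ a ≠ 1 := by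
  intro h
  have h1 := chi_ne_one hζ π hpF hχ2
  have h2 := orderOf_eq_prime hχ h1
  exact ha (h2 ▸ orderOf_dvd_of_pow_eq_one h)

omit hζ

theorem chi_pow (hχ : χ ^ p = 1) {y : F} (hy : y ≠ 0) : χ y ^ p = 1 := by
  have h1 : (χ ^ p) y = (1 : MulChar F (𝓞 K)) y := by rw [hχ]
  rw [MulChar.pow_apply' _ (Fact.out : p.Prime).ne_zero, MulChar.one_apply (isUnit_iff_ne_zero.2 hy)]
    at h1
  exact h1

/-- the value of the character depends on the exponent modulo `p` -/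
theorem chi_pow_mod (hχ : χ ^ p = 1) {y : F} (hy : y ≠ 0) (n : ℕ) :
    χ y ^ n = χ y ^ (n % p) := by
  conv_lhs => rw [← Nat.mod_add_div n p, pow_add, pow_mul, chi_pow hχ hy, one_pow, mul_one]

theorem sum_poly (f : Polynomial F) (hf : f.natDegree < Fintype.card F - 1) :
    ∑ x : F, f.eval x = 0 := by
  simp only [Polynomial.eval_eq_sum_range]
  rw [Finset.sum_comm]
  refine Finset.sum_eq_zero fun i hi => ?_
  rw [← Finset.mul_sum, FiniteField.sum_pow_lt_card_sub_one, mul_zero]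
  have := Finset.mem_range.1 hi
  omega

end gen

section
variable {m : ℕ} [NeZero m] {p : ℕ} [Fact p.Prime] [hpm : Fact (p ∣ m)]
  {K : Type} [Field K] [NumberField K] [IsCyclotomicExtension {m} ℚ K]
  {F : Type} [Field F] [Fintype F] {χ : MulChar F (𝓞 K)}

theorem om_val_ne (u : (ZMod m)ˣ) : (om m p u : ZMod p).val ≠ 0 := by
  rw [Ne, ZMod.val_eq_zero]
  exact (om m p u).ne_zero

/-- the Galois group acts on the values -/
theorem sa_chi (hχ : χ ^ p = 1) (u : (ZMod m)ˣ) (y : F) :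
    sa m K u (χ y) = χ y ^ (om m p u : ZMod p).val := by
  by_cases hy : y = 0
  · rw [hy, MulChar.map_zero, map_zero, zero_pow (om_val_ne u)]
  · exact sa_proot u (chi_pow hχ hy)

/-- the normalised Jacobi sums -/
noncomputable def jj (a b : ℕ) (χ : MulChar F (𝓞 K)) : 𝓞 K := -jacobiSum (χ ^ a) (χ ^ b)

/-- the exponent `<a t>` -/
def rs (m p : ℕ) [NeZero m] [Fact p.Prime] [Fact (p ∣ m)] (a : ℕ) (t : (ZMod m)ˣ) : ℕ :=
  ((a : ZMod p) * (om m p t : ZMod p)).val

theorem rs_eq (a : ℕ) (t : (ZMod m)ˣ) : rs m p a t = a * (om m p t : ZMod p).val % p := by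
  unfold rs
  rw [ZMod.val_mul, ZMod.val_natCast, Nat.mod_mul_mod]

theorem rs_lt (a : ℕ) (t : (ZMod m)ˣ) : rs m p a t < p := ZMod.val_lt _

theorem cast_ne {a : ℕ} (ha : ¬ p ∣ a) : ((a : ℕ) : ZMod p) ≠ 0 := by
  rwa [Ne, ZMod.natCast_eq_zero_iff]

theorem rs_ne {a : ℕ} (ha : ¬ p ∣ a) (t : (ZMod m)ˣ) : rs m p a t ≠ 0 := by
  unfold rs
  rw [Ne, ZMod.val_eq_zero]
  exact mul_ne_zero (cast_ne ha) (om m p t).ne_zero

theorem rs_neg {a : ℕ} (ha : ¬ p ∣ a) (t : (ZMod m)ˣ) : rs m p a (-t) = p - rs m p a t := by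
  unfold rs
  rw [om_neg, Units.val_neg, mul_neg, ZMod.neg_val, if_neg]
  exact mul_ne_zero (cast_ne ha) (om m p t).ne_zero

/-- the type of the Jacobi sum `J(χ^a, χ^b)` -/
def wt (m p : ℕ) [NeZero m] [Fact p.Prime] [Fact (p ∣ m)] (a b : ℕ) (t : (ZMod m)ˣ) : ℕ :=
  if rs m p a t + rs m p b t < p then 1 else 0

theorem rs_add_ne {a b : ℕ} (hab : ¬ p ∣ a + b) (t : (ZMod m)ˣ) :
    rs m p a t + rs m p b t ≠ p := by
  intro h
  have h1 : (((rs m p a t + rs m p b t : ℕ)) : ZMod p) = 0 := by rw [h]; simp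
  push_cast at h1
  unfold rs at h1
  rw [ZMod.natCast_zmod_val, ZMod.natCast_zmod_val, ← add_mul] at h1
  rcases mul_eq_zero.1 h1 with h2 | h2
  · exact cast_ne hab (by push_cast; exact h2)
  · exact (om m p t).ne_zero h2

theorem wt_add {a b : ℕ} (ha : ¬ p ∣ a) (hb : ¬ p ∣ b) (hab : ¬ p ∣ a + b) (t : (ZMod m)ˣ) :
    wt m p a b t + wt m p a b (-t) = 1 := by
  unfold wt
  rw [rs_neg ha, rs_neg hb]
  have h1 := rs_lt (m := m) (p := p) a t
  have h2 := rs_lt (m := m) (p := p) b t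
  have h3 := rs_add_ne (m := m) (p := p) hab t
  split_ifs <;> omega

theorem sa_jj (hχ : χ ^ p = 1) {a b : ℕ} (ha : ¬ p ∣ a) (hb : ¬ p ∣ b) (u : (ZMod m)ˣ) :
    sa m K u (jj a b χ) = -∑ x : F, χ x ^ rs m p a u * χ (1 - x) ^ rs m p b u := by
  have hu : (om m p u : ZMod p).val ≠ 0 := by
    rw [Ne, ZMod.val_eq_zero]
    exact (om m p u).ne_zero
  have ha0 : a ≠ 0 := by rintro rfl; exact ha (dvd_zero p)
  have hb0 : b ≠ 0 := by rintro rfl; exact hb (dvd_zero p)
  have key : ∀ {c : ℕ} (hc : ¬ p ∣ c) (y : F), sa m K u ((χ ^ c) y) = χ y ^ rs m p c u := by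
    intro c hc y
    have hc0 : c ≠ 0 := by rintro rfl; exact hc (dvd_zero p)
    rw [MulChar.pow_apply' _ hc0, map_pow, sa_chi hχ, ← pow_mul, rs_eq]
    by_cases hy : y = 0
    · rw [hy, MulChar.map_zero, zero_pow (mul_ne_zero hu hc0), zero_pow]
      rw [← rs_eq]
      exact rs_ne hc u
    · rw [chi_pow_mod hχ hy, mul_comm]
  unfold jj jacobiSum
  rw [map_neg, map_sum]
  congr 1
  refine Finset.sum_congr rfl fun x _ => ?_
  rw [map_mul, key ha, key hb]

theorem jj_norm (π : 𝓞 K →+* F) (hpF : ((p : ℕ) : F) ≠ 0) (hχ : χ ^ p = 1)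
    (hχ2 : ∀ y : F, π (χ y) = y ^ ((Fintype.card F - 1) / p)) {a b : ℕ} (ha : ¬ p ∣ a)
    (hb : ¬ p ∣ b) (hab : ¬ p ∣ a + b) :
    jj a b χ * sa m K (-1) (jj a b χ) = ((Fintype.card F : ℕ) : 𝓞 K) := by
  classical
  have hpr : p.Prime := Fact.out
  have hζ := zp_prim m p K
  have hone : (om m p (-1) : ZMod p).val + 1 = p := by
    have h1 : om m p (-1) = -1 := by rw [om_neg, map_one]
    rw [h1, Units.val_neg, Units.val_one, ZMod.neg_val, if_neg one_ne_zero, ZMod.val_one]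
    exact Nat.sub_add_cancel hpr.one_le
  have hinv : ∀ y : F, sa m K (-1) (χ y) = χ⁻¹ y := by
    intro y
    by_cases hy : y = 0
    · rw [hy, MulChar.map_zero, MulChar.map_zero, map_zero]
    · rw [sa_chi hχ, MulChar.inv_apply']
      have e1 : χ y * χ y⁻¹ = 1 := by rw [← map_mul, mul_inv_cancel₀ hy, map_one]
      have e2 : χ y * χ y ^ (om m p (-1) : ZMod p).val = 1 := by
        rw [← pow_succ', hone, chi_pow hχ hy]
      exact mul_left_cancel₀ (left_ne_zero_of_mul_eq_one e1) (e2.trans e1.symm)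
  have hinvp : ∀ {c : ℕ} (hc : ¬ p ∣ c) (y : F), sa m K (-1) ((χ ^ c) y) = (χ ^ c)⁻¹ y := by
    intro c hc y
    have hc0 : c ≠ 0 := by rintro rfl; exact hc (dvd_zero p)
    rw [MulChar.pow_apply' _ hc0, map_pow, hinv, ← inv_pow, MulChar.pow_apply' _ hc0]
  have e3 : sa m K (-1) (jj a b χ) = -jacobiSum (χ ^ a)⁻¹ (χ ^ b)⁻¹ := by
    unfold jj jacobiSum
    rw [map_neg, map_sum]
    congr 1
    refine Finset.sum_congr rfl fun x _ => ?_
    rw [map_mul, hinvp ha, hinvp hb]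
  rw [e3]
  unfold jj
  rw [neg_mul_neg]
  -- to the field `K`
  have hinj : Function.Injective (algebraMap (𝓞 K) K) := RingOfIntegers.coe_injective
  have h1 := chi_pow_ne_one hζ π hpF hχ hχ2 ha
  have h2 := chi_pow_ne_one hζ π hpF hχ hχ2 hb
  have h12 : χ ^ a * χ ^ b ≠ 1 := by
    rw [← pow_add]
    exact chi_pow_ne_one hζ π hpF hχ hχ2 hab
  have hchar : ringChar K ≠ ringChar F := by
    rw [ringChar.eq_zero]
    intro h
    have h3 : CharP F 0 := by
      have := ringChar.charP F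
      rwa [← h] at this
    have : CharZero F := CharP.charP_to_charZero F
    exact (Infinite.of_injective (Nat.cast : ℕ → F) Nat.cast_injective).not_finite inferInstance
  have h5 := jacobiSum_mul_jacobiSum_inv hchar
    ((MulChar.ringHomComp_ne_one_iff hinj).mpr h1) ((MulChar.ringHomComp_ne_one_iff hinj).mpr h2)
    (χ := (χ ^ a).ringHomComp (algebraMap (𝓞 K) K)) (φ := (χ ^ b).ringHomComp (algebraMap (𝓞 K) K))
    (by rw [← MulChar.ringHomComp_mul]; exact (MulChar.ringHomComp_ne_one_iff hinj).mpr h12)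
  rw [MulChar.ringHomComp_inv, MulChar.ringHomComp_inv, jacobiSum_ringHomComp,
    jacobiSum_ringHomComp, ← map_mul] at h5
  apply hinj
  rw [h5, map_natCast]

theorem jj_cong (hp : p ≠ 2) (hχ : χ ^ p = 1) (hd : p ∣ Fintype.card F - 1) (a b : ℕ) :
    (zp m p K - 1) ^ 2 ∣ jj a b χ - 1 := by
  have h2 : 2 < p := lt_of_le_of_ne (Fact.out : p.Prime).two_le (Ne.symm hp)
  have e : ∀ c : ℕ, (χ ^ c) ^ p = 1 := fun c => by rw [← pow_mul, mul_comm, pow_mul, hχ, one_pow]
  obtain ⟨z, -, hz⟩ := exists_jacobiSum_eq_neg_one_add h2 (e a) (e b) hd (zp_prim m p K)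
  unfold jj
  rw [hz]
  exact ⟨-z, by ring⟩

theorem jj_mem (π : 𝓞 K →+* F) (hpF : ((p : ℕ) : F) ≠ 0) (hχ : χ ^ p = 1)
    (hχ2 : ∀ y : F, π (χ y) = y ^ ((Fintype.card F - 1) / p)) {a b : ℕ} (ha : ¬ p ∣ a)
    (hb : ¬ p ∣ b) {t : (ZMod m)ˣ} (ht : rs m p a t + rs m p b t < p) :
    π (sa m K t (jj a b χ)) = 0 := by
  have hζ := zp_prim m p K
  have hkp : (Fintype.card F - 1) / p * p = Fintype.card F - 1 :=
    Nat.div_mul_cancel (p_dvd hζ π hpF)
  have hcard : 1 < Fintype.card F := Fintype.one_lt_card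
  rw [sa_jj hχ ha hb, map_neg, map_sum, neg_eq_zero]
  set k := (Fintype.card F - 1) / p with hk
  set a' := rs m p a t with ha'
  set b' := rs m p b t with hb'
  have h1 : ∀ x : F, π (χ x ^ a' * χ (1 - x) ^ b') =
      (Polynomial.X ^ (k * a') * (1 - Polynomial.X) ^ (k * b') : Polynomial F).eval x := by
    intro x
    rw [map_mul, map_pow, map_pow, hχ2, hχ2, ← pow_mul, ← pow_mul]
    simp
  simp only [h1]
  apply sum_poly
  have hk0 : 0 < k := by
    rcases Nat.eq_zero_or_pos k with h | h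
    · rw [h, zero_mul] at hkp
      omega
    · exact h
  have h2 : (Polynomial.X ^ (k * a') * (1 - Polynomial.X) ^ (k * b') : Polynomial F).natDegree ≤
      k * a' + k * b' := by
    refine Polynomial.natDegree_mul_le.trans (add_le_add ?_ ?_)
    · exact Polynomial.natDegree_X_pow_le _
    · have h3 : (1 - Polynomial.X : Polynomial F).natDegree ≤ 1 := by compute_degree
      have h4 := Polynomial.natDegree_pow_le_of_le (k * b') h3
      rwa [mul_one] at h4
  refine lt_of_le_of_lt h2 ?_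
  calc k * a' + k * b' = k * (a' + b') := by ring
    _ < k * p := Nat.mul_lt_mul_of_pos_left ht hk0
    _ = _ := hkp

end

end Pool.Agent.NH35.HD
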