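import Pool.Agent.NH35.HD.Tr
import Pool.Agent.NH35.HC.Second

/-! The second moment of the traces. -/

set_option autoImplicit false
set_option linter.unusedSectionVars false
open NumberField NumberField.InfinitePlace IsDedekindDomain Filter Topology
open Module nonZeroDivisors Ideal IsCyclotomicExtension
open scoped ComplexConjugate
open Pool.Agent.H921R2.TatePole (below deg nm_eq deg_two_bound w)
open Pool.Agent.H341R2 (E lam)

namespace Pool.Agent.NH35.HD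
open Pool.Agent.NH35.HC (Hk sg prime_bound)

section
variable {m : ℕ} [NeZero m] {K : Type} [Field K] [NumberField K] [IsCyclotomicExtension {m} ℚ K]

/-- the correlation of the character with its conjugates -/
noncomputable def gu (χ : Ideal (𝓞 K) → ℂ) (u : (ZMod m)ˣ) (v : HeightOneSpectrum (𝓞 K)) : ℝ :=
  (χ v.asIdeal * conj (χ (v.asIdeal.map (sa m K u)))).re

theorem gu_le {χ : Ideal (𝓞 K) → ℂ} (hb : ∀ I, ‖χ I‖ ≤ 1) (u : (ZMod m)ˣ)
    (v : HeightOneSpectrum (𝓞 K)) : |gu χ u v| ≤ 1 := by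
  unfold gu
  refine (Complex.abs_re_le_norm _).trans ?_
  rw [norm_mul, Complex.norm_conj]
  exact mul_le_one₀ (hb _) (_root_.norm_nonneg _) (hb _)

theorem first (m : ℕ) [NeZero m] (K : Type) [Field K] [NumberField K]
    [IsCyclotomicExtension {m} ℚ K] : ∃ C : ℝ, ∀ ε : ℝ, 0 < ε →
      (m.totient : ℝ) * E ε (fun ℓ => if m ∣ (ℓ : ℕ) - 1 then 1 else 0) ≤
        W540.BE.EP (W540.BE.nm K) ε (fun _ => 1) + C := by
  classical
  refine ⟨1 * Module.finrank ℚ K * H921R2.TatePole.C0, fun ε hε => ?_⟩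
  have h3 := deg_two_bound (K := K) (x := 1 + ε) (by linarith) (g := fun _ => 1) (C := 1)
    (fun _ => by simp)
  have h4 := (abs_le.1 h3).1
  have h5 : W540.BE.EP (W540.BE.nm K) ε (fun _ => 1) =
      ∑' v : HeightOneSpectrum (𝓞 K), (1 : ℝ) * (H921R2.TatePole.nm v : ℝ) ^ (-(1 + ε)) := rfl
  have hsum : Summable fun ℓ : Nat.Primes =>
      (∑ v : {v : HeightOneSpectrum (𝓞 K) // below v = ℓ}, if deg v.1 = 1 then (1 : ℝ) else 0) *
        w (1 + ε) ℓ := by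
    refine H921R2.TatePole.bddmul_summable (C := Module.finrank ℚ K) (by linarith) fun ℓ => ?_
    refine (Finset.abs_sum_le_sum_abs _ _).trans ?_
    calc ∑ v : {v : HeightOneSpectrum (𝓞 K) // below v = ℓ}, |if deg v.1 = 1 then (1 : ℝ) else 0|
        ≤ ∑ v : {v : HeightOneSpectrum (𝓞 K) // below v = ℓ}, (1 : ℝ) := by
          refine Finset.sum_le_sum fun v _ => ?_
          split_ifs <;> simp
      _ = (Fintype.card {v : HeightOneSpectrum (𝓞 K) // below v = ℓ} : ℝ) := by simp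
      _ ≤ _ := by exact_mod_cast H921R2.TatePole.fiber_card_le ℓ
  have h6 : (m.totient : ℝ) * E ε (fun ℓ => if m ∣ (ℓ : ℕ) - 1 then 1 else 0) ≤
      ∑' ℓ : Nat.Primes, (∑ v : {v : HeightOneSpectrum (𝓞 K) // below v = ℓ},
        if deg v.1 = 1 then (1 : ℝ) else 0) * w (1 + ε) ℓ := by
    have hsumE := H341R2.summable_E (φ := fun ℓ : Nat.Primes =>
      if m ∣ (ℓ : ℕ) - 1 then (1 : ℝ) else 0) (B := 1) hε (fun ℓ => by split_ifs <;> simp)
    unfold E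
    rw [← tsum_mul_left]
    refine Summable.tsum_le_tsum (fun ℓ => ?_) (hsumE.mul_left _) hsum
    rw [← mul_assoc]
    refine mul_le_mul_of_nonneg_right ?_ (by positivity)
    beta_reduce
    split_ifs with h
    · have hℓm : ¬ (ℓ : ℕ) ∣ m := by
        intro h2
        have h7 := ℓ.2.two_le
        have := Nat.le_of_dvd (by omega) (h2.trans h)
        omega
      obtain ⟨hdeg, hcard⟩ := above_one K ℓ hℓm h
      rw [Finset.sum_congr rfl fun v _ => if_pos (hdeg v.1 v.2)]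
      rw [Finset.sum_const, Finset.card_univ, hcard, nsmul_eq_mul, mul_one]
    · rw [mul_zero]
      exact Finset.sum_nonneg fun v _ => by split_ifs <;> simp
  rw [h5]
  linarith

end

section
variable {ι : Type} [Fintype ι] [DecidableEq ι] {p : ι → ℕ} [hpr : ∀ i, Fact (p i).Prime]
  {m : ℕ} [NeZero m] [hpm : ∀ i, Fact (p i ∣ m)]

theorem sq_trace {K : Type} [Field K] [NumberField K]
    [IsCyclotomicExtension {m} ℚ K] (hinj : Function.Injective p) (hm : m = ∏ i, p i)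
    (hp : ∀ i, p i ≠ 2) (k : ι → ℤ) {M : ℕ} (hmM : m ∣ M) (h2M : 2 ∣ M)
    (hkM : ∀ i, k i ∣ (M : ℤ)) (τ : K →+* ℂ)
    {Ψ : Ideal (𝓞 K) → ℂ} (hΨ : Val K p m k M τ Ψ) (ℓ : Nat.Primes) (hℓ : ¬ (ℓ : ℕ) ∣ M) :
    (∏ i, TT (p i) (k i) ℓ) ^ 2 =
      ∑ u : (ZMod m)ˣ, ∑ v : {v : HeightOneSpectrum (𝓞 K) // below v = ℓ},
        (if deg v.1 = 1 then gu Ψ u v.1 else 0) := by
  classical
  obtain ⟨e, he, htr⟩ := trace hinj hm hp k hmM h2M hkM τ hΨ ℓ hℓ
  have hℓm : ¬ (ℓ : ℕ) ∣ m := fun h => hℓ (h.trans hmM)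
  set T := ∏ i, TT (p i) (k i) ℓ with hT
  by_cases h : m ∣ (ℓ : ℕ) - 1
  · obtain ⟨hdeg, hcard⟩ := above_one K ℓ hℓm h
    have e1 : ∀ g : HeightOneSpectrum (𝓞 K) → ℂ,
        ∑ v : {v : HeightOneSpectrum (𝓞 K) // below v = ℓ}, (if deg v.1 = 1 then g v.1 else 0) =
        ∑ v : {v : HeightOneSpectrum (𝓞 K) // below v = ℓ}, g v.1 := fun g =>
      Finset.sum_congr rfl fun v _ => if_pos (hdeg v.1 v.2)
    have e1' : ∀ g : HeightOneSpectrum (𝓞 K) → ℝ,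
        ∑ v : {v : HeightOneSpectrum (𝓞 K) // below v = ℓ}, (if deg v.1 = 1 then g v.1 else 0) =
        ∑ v : {v : HeightOneSpectrum (𝓞 K) // below v = ℓ}, g v.1 := fun g =>
      Finset.sum_congr rfl fun v _ => if_pos (hdeg v.1 v.2)
    rw [e1 fun v => Ψ v.asIdeal] at htr
    simp only [e1']
    have h2 : ∀ v : {v : HeightOneSpectrum (𝓞 K) // below v = ℓ},
        ∑ u : (ZMod m)ˣ, Ψ (v.1.asIdeal.map (sa m K u)) = ((e * T : ℝ) : ℂ) := by
      intro v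
      rw [← htr, sum_above ℓ hℓm h v.1 v.2 (inj_above ℓ hℓm h v.1 v.2) Ψ]
    have h3 : ∑ u : (ZMod m)ˣ, ∑ v : {v : HeightOneSpectrum (𝓞 K) // below v = ℓ},
        Ψ v.1.asIdeal * conj (Ψ (v.1.asIdeal.map (sa m K u))) = ((T ^ 2 : ℝ) : ℂ) := by
      rw [Finset.sum_comm]
      have h4 : ∀ v : {v : HeightOneSpectrum (𝓞 K) // below v = ℓ},
          ∑ u : (ZMod m)ˣ, Ψ v.1.asIdeal * conj (Ψ (v.1.asIdeal.map (sa m K u))) =
          Ψ v.1.asIdeal * ((e * T : ℝ) : ℂ) := by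
        intro v
        rw [← Finset.mul_sum, ← map_sum, h2 v, Complex.conj_ofReal]
      simp only [h4]
      rw [← Finset.sum_mul, htr, ← Complex.ofReal_mul]
      congr 1
      linear_combination T ^ 2 * he
    have h5 := congrArg Complex.re h3
    rw [Complex.ofReal_re, Complex.re_sum] at h5
    rw [← h5]
    exact Finset.sum_congr rfl fun u _ => Complex.re_sum _ _
  · have h0 : (e * T : ℝ) = 0 := by
      have h6 : ∑ v : {v : HeightOneSpectrum (𝓞 K) // below v = ℓ},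
          (if deg v.1 = 1 then Ψ v.1.asIdeal else 0) = 0 :=
        Finset.sum_eq_zero fun v _ => if_neg (deg_ne_one K hℓm h v.1 v.2)
      rw [h6] at htr
      exact_mod_cast htr.symm
    have h1 : T ^ 2 = 0 := by linear_combination (e * T) * h0 - T ^ 2 * he
    rw [h1]
    symm
    exact Finset.sum_eq_zero fun u _ => Finset.sum_eq_zero fun v _ =>
      if_neg (deg_ne_one K hℓm h v.1 v.2)

/-- **The second moment of the product of the traces.** -/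
theorem second [Nonempty ι] (hinj : Function.Injective p) (hm : m = ∏ i, p i)
    (hp : ∀ i, p i ≠ 2) (k : ι → ℤ) (hk : ∀ i, ¬ (p i : ℤ) ∣ k i)
    (K : Type) [Field K] [NumberField K] [IsCyclotomicExtension {m} ℚ K] :
    (∃ B : ℝ, ∀ ℓ : Nat.Primes, |∏ i, TT (p i) (k i) ℓ| ≤ B) ∧
    ∃ C : ℝ, ∀ ε : ℝ, 0 < ε → ε ≤ 1 →
      E ε (fun ℓ => (∏ i, TT (p i) (k i) ℓ) ^ 2) ≤
        W540.BE.EP (W540.BE.nm K) ε (fun _ => 1) + C := by
  classical
  obtain ⟨τ⟩ : Nonempty (K →+* ℂ) := inferInstance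
  have hk0 : ∀ i, k i ≠ 0 := fun i h => hk i (h ▸ dvd_zero _)
  have hn : 2 * m * ∏ i, (k i).natAbs ≠ 0 := by
    refine mul_ne_zero (mul_ne_zero two_ne_zero (NeZero.ne m)) ?_
    exact Finset.prod_ne_zero_iff.2 fun i _ => Int.natAbs_ne_zero.2 (hk0 i)
  obtain ⟨Ψ, M, hM0, hnM, hΨ, hval⟩ := exists_psi_aux (m := m) K hp τ k hk hn Finset.univ
  have h2M : 2 ∣ M := ((Dvd.intro _ rfl).mul_right _).trans hnM
  have hmM : m ∣ M := ((Dvd.intro_left _ rfl).mul_right _).trans hnM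
  have hkM : ∀ i, k i ∣ (M : ℤ) := by
    intro i
    have h1 : (k i).natAbs ∣ M :=
      ((Finset.dvd_prod_of_mem (fun i => (k i).natAbs) (Finset.mem_univ i)).mul_left _).trans hnM
    exact Int.natAbs_dvd.1 (Int.natCast_dvd_natCast.2 h1)
  have hM1 : span {((M : ℕ) : 𝓞 K)} ≠ ⊤ := by
    obtain ⟨i⟩ : Nonempty ι := inferInstance
    rw [Ne, Ideal.span_singleton_eq_top]
    obtain ⟨c, hc⟩ := (hpm i).out.trans hmM
    rw [hc, Nat.cast_mul]
    intro h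
    exact p_not_unit (hpr i).out (isUnit_of_mul_isUnit_left h)
  have hmap : ∀ u : (ZMod m)ˣ, (span {((M : ℕ) : 𝓞 K)}).map (sa m K u) =
      span {((M : ℕ) : 𝓞 K)} := by
    intro u
    rw [Ideal.map_span, Set.image_singleton, map_natCast]
  have h1 : ∀ u : (ZMod m)ˣ, ∃ C : ℝ, u ≠ 1 → ∀ ε : ℝ, 0 < ε → ε ≤ 1 →
      W540.BE.EP (W540.BE.nm K) ε (gu Ψ u) ≤ C := by
    intro u
    by_cases hu : u = 1
    · exact ⟨0, fun h => absurd hu h⟩
    · obtain ⟨β, h0, hβ, hne⟩ := exists_nontriv (K := K) (ws_add (m := m) hp)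
        (fun h => hu (ws_fix hinj hm hp h)) τ hM0 hM1
      have h2 := (hΨ.mulconj (gal m K u).toRingEquiv (hmap u)).chr h0 hβ (by
        intro h3
        apply hne
        rw [chinf_ws τ h0, chinf_ws τ (sa_ne h0)]
        exact h3)
      obtain ⟨C, hC⟩ := prime_bound h2
      exact ⟨C, fun _ => hC⟩
  choose C hC using h1
  -- the finite set of exceptional primes
  have hN := W540.BE.normSys (F := K)
  set T : Nat.Primes → ℝ := fun ℓ => ∏ i, TT (p i) (k i) ℓ with hT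
  let g : (ZMod m)ˣ → Nat.Primes → ℝ := fun u ℓ =>
    ∑ v : {v : HeightOneSpectrum (𝓞 K) // below v = ℓ}, if deg v.1 = 1 then gu Ψ u v.1 else 0
  have hg : ∀ u ℓ, |g u ℓ| ≤ (Module.finrank ℚ K : ℝ) := by
    intro u ℓ
    refine (Finset.abs_sum_le_sum_abs _ _).trans ?_
    calc ∑ v : {v : HeightOneSpectrum (𝓞 K) // below v = ℓ}, |if deg v.1 = 1 then gu Ψ u v.1 else 0|
        ≤ ∑ v : {v : HeightOneSpectrum (𝓞 K) // below v = ℓ}, (1 : ℝ) := by
          refine Finset.sum_le_sum fun v _ => ?_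
          split_ifs
          · exact gu_le hΨ.bd u _
          · simp
      _ = (Fintype.card {v : HeightOneSpectrum (𝓞 K) // below v = ℓ} : ℝ) := by simp
      _ ≤ _ := by exact_mod_cast H921R2.TatePole.fiber_card_le ℓ
  set d : ℝ := (Fintype.card (ZMod m)ˣ : ℝ) * Module.finrank ℚ K with hd
  have hd0 : 0 ≤ d := by positivity
  have hgs : ∀ ℓ, |∑ u : (ZMod m)ˣ, g u ℓ| ≤ d := by
    intro ℓ
    refine (Finset.abs_sum_le_sum_abs _ _).trans ?_
    refine (Finset.sum_le_sum fun u _ => hg u ℓ).trans ?_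
    rw [Finset.sum_const, Finset.card_univ, nsmul_eq_mul]
  let D : Nat.Primes → ℝ := fun ℓ => if (ℓ : ℕ) ∣ M then T ℓ ^ 2 + d else 0
  have hD0 : ∀ ℓ, 0 ≤ D ℓ := by
    intro ℓ
    simp only [D]
    split_ifs
    · positivity
    · exact le_rfl
  let S : Finset Nat.Primes := Finset.subtype Nat.Prime M.primeFactors
  have hS : ∀ ℓ : Nat.Primes, ℓ ∉ S → D ℓ = 0 := by
    intro ℓ hℓ
    simp only [D]
    refine if_neg fun h => hℓ ?_
    exact Finset.mem_subtype.2 (Nat.mem_primeFactors.2 ⟨ℓ.2, h, hM0⟩)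
  have hDle : ∀ ℓ, D ℓ ≤ ∑ ℓ ∈ S, D ℓ := by
    intro ℓ
    by_cases h : ℓ ∈ S
    · exact Finset.single_le_sum (fun ℓ _ => hD0 ℓ) h
    · rw [hS ℓ h]
      exact Finset.sum_nonneg fun ℓ _ => hD0 ℓ
  have hTle : ∀ ℓ, T ℓ ^ 2 ≤ ∑ u : (ZMod m)ˣ, g u ℓ + D ℓ := by
    intro ℓ
    by_cases h : (ℓ : ℕ) ∣ M
    · have h2 := (abs_le.1 (hgs ℓ)).1
      have h3 : D ℓ = T ℓ ^ 2 + d := if_pos h
      rw [h3]
      linarith
    · have h2 := sq_trace hinj hm hp k hmM h2M hkM τ hval ℓ h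
      have h3 : D ℓ = 0 := if_neg h
      rw [h3, add_zero]
      exact h2.le
  have hTb : ∀ ℓ, |T ℓ ^ 2| ≤ d + ∑ ℓ ∈ S, D ℓ := by
    intro ℓ
    rw [abs_of_nonneg (sq_nonneg _)]
    have := hTle ℓ
    have h2 := (abs_le.1 (hgs ℓ)).2
    have := hDle ℓ
    linarith
  refine ⟨⟨Real.sqrt (d + ∑ ℓ ∈ S, D ℓ), fun ℓ => Real.abs_le_sqrt ((le_abs_self _).trans
    (hTb ℓ))⟩, ?_⟩
  refine ⟨∑ u : (ZMod m)ˣ, (|C u| + 1 * Module.finrank ℚ K * H921R2.TatePole.C0) + ∑ ℓ ∈ S, D ℓ,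
    fun ε hε hε1 => ?_⟩
  have h2 : ∀ u : (ZMod m)ˣ, ∑' ℓ : Nat.Primes, g u ℓ * w (1 + ε) ℓ ≤
      W540.BE.EP (W540.BE.nm K) ε (gu Ψ u) + 1 * Module.finrank ℚ K * H921R2.TatePole.C0 := by
    intro u
    have h3 := deg_two_bound (x := 1 + ε) (by linarith) (gu_le (χ := Ψ) hΨ.bd u)
    have h4 := (abs_le.1 h3).1
    have h5 : W540.BE.EP (W540.BE.nm K) ε (gu Ψ u) =
      ∑' v, gu Ψ u v * (H921R2.TatePole.nm v : ℝ) ^ (-(1 + ε)) := rfl
    rw [h5]
    linarith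
  have hsum : ∀ u : (ZMod m)ˣ, Summable fun ℓ : Nat.Primes => g u ℓ * w (1 + ε) ℓ := fun u =>
    H921R2.TatePole.bddmul_summable (C := Module.finrank ℚ K) (by linarith) fun ℓ => hg u ℓ
  have hsumD : Summable fun ℓ : Nat.Primes => D ℓ * w (1 + ε) ℓ :=
    H921R2.TatePole.bddmul_summable (C := ∑ ℓ ∈ S, D ℓ) (by linarith) fun ℓ => by
      rw [abs_of_nonneg (hD0 ℓ)]
      exact hDle ℓ
  have hw0 : ∀ ℓ : Nat.Primes, 0 ≤ w (1 + ε) ℓ := fun ℓ => by
    have : (0 : ℝ) ≤ ((ℓ : ℕ) : ℝ) ^ (-(1 + ε)) := by positivity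
    exact this
  have hw1 : ∀ ℓ : Nat.Primes, w (1 + ε) ℓ ≤ 1 := fun ℓ => by
    have h3 : (1 : ℝ) ≤ ((ℓ : ℕ) : ℝ) := by exact_mod_cast ℓ.2.one_lt.le
    exact Real.rpow_le_one_of_one_le_of_nonpos h3 (by linarith)
  have h3 : E ε (fun ℓ => T ℓ ^ 2) ≤ ∑ u : (ZMod m)ˣ, ∑' ℓ : Nat.Primes, g u ℓ * w (1 + ε) ℓ +
      ∑' ℓ : Nat.Primes, D ℓ * w (1 + ε) ℓ := by
    rw [← Summable.tsum_finsetSum fun u _ => hsum u,
      ← Summable.tsum_add (summable_sum fun u _ => hsum u) hsumD]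
    unfold E
    refine Summable.tsum_le_tsum (fun ℓ => ?_) (H341R2.summable_E hε hTb)
      ((summable_sum fun u _ => hsum u).add hsumD)
    rw [← Finset.sum_mul, ← add_mul]
    exact mul_le_mul_of_nonneg_right (hTle ℓ) (hw0 ℓ)
  have hDsum : ∑' ℓ : Nat.Primes, D ℓ * w (1 + ε) ℓ ≤ ∑ ℓ ∈ S, D ℓ := by
    rw [tsum_eq_sum (s := S) fun ℓ hℓ => by rw [hS ℓ hℓ, zero_mul]]
    refine Finset.sum_le_sum fun ℓ _ => ?_
    have := mul_le_mul_of_nonneg_left (hw1 ℓ) (hD0 ℓ)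
    rwa [mul_one] at this
  have h4 : ∀ u : (ZMod m)ˣ, W540.BE.EP (W540.BE.nm K) ε (gu Ψ u) ≤
      (if u = 1 then W540.BE.EP (W540.BE.nm K) ε (fun _ => 1) else 0) + |C u| := by
    intro u
    split_ifs with hu
    · have h5 := W540.BE.EP_le hN hε (gu_le (χ := Ψ) hΨ.bd u)
        (b := 1) fun v => (le_abs_self _).trans (gu_le (χ := Ψ) hΨ.bd u v)
      rw [one_mul] at h5
      exact h5.trans (le_add_of_nonneg_right (abs_nonneg _))
    · rw [zero_add]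
      exact (hC u hu ε hε hε1).trans (le_abs_self _)
  have h5 : ∑ u : (ZMod m)ˣ, ∑' ℓ : Nat.Primes, g u ℓ * w (1 + ε) ℓ ≤
      W540.BE.EP (W540.BE.nm K) ε (fun _ => 1) +
        ∑ u : (ZMod m)ˣ, (|C u| + 1 * Module.finrank ℚ K * H921R2.TatePole.C0) := by
    calc ∑ u : (ZMod m)ˣ, ∑' ℓ : Nat.Primes, g u ℓ * w (1 + ε) ℓ
        ≤ ∑ u : (ZMod m)ˣ, (((if u = 1 then W540.BE.EP (W540.BE.nm K) ε (fun _ => 1) else 0) +
            |C u|) + 1 * Module.finrank ℚ K * H921R2.TatePole.C0) :=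
          Finset.sum_le_sum fun u _ => (h2 u).trans (add_le_add_left (h4 u) _)
      _ = _ := by
          simp only [Finset.sum_add_distrib, Finset.sum_ite_eq', Finset.mem_univ, if_true]
          ring
  linarith

end

end Pool.Agent.NH35.HD
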