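import Pool.Agent.NH35.HD.Res

/-! The factorisation of the Jacobi sums at a prime of degree one. -/

set_option autoImplicit false
set_option linter.unusedSectionVars false
open NumberField NumberField.InfinitePlace IsDedekindDomain
open Module nonZeroDivisors Ideal IsCyclotomicExtension
open scoped ComplexConjugate

namespace Pool.Agent.NH35.HD

section
variable {m : ℕ} [NeZero m] {K : Type} [Field K] [NumberField K] [IsCyclotomicExtension {m} ℚ K]
  {F : Type} [Field F] [Fintype F]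

theorem map_ztm (π : 𝓞 K →+* F) (hmF : ((m : ℕ) : F) ≠ 0) : IsPrimitiveRoot (π (zt m K)) m := by
  have hm0 : 0 < m := NeZero.pos m
  refine IsPrimitiveRoot.mk_of_lt _ hm0 ?_ fun l hl0 hlm h => ?_
  · rw [← map_pow, (zt_prim m K).pow_eq_one, map_one]
  · have hm1 : m = (m - 1) + 1 := (Nat.sub_add_cancel hm0).symm
    have h1 : IsPrimitiveRoot (zt m K) ((m - 1) + 1) := by rw [← hm1]; exact zt_prim m K
    have h2 := h1.prod_one_sub_pow_eq_order
    have h3 : (((m - 1 : ℕ) : 𝓞 K) + 1) = ((m : ℕ) : 𝓞 K) := by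
      have := congrArg (Nat.cast : ℕ → 𝓞 K) hm1
      push_cast at this
      exact this.symm
    rw [h3] at h2
    have h4 := congrArg π h2
    rw [map_prod, map_natCast] at h4
    apply hmF
    rw [← h4]
    refine Finset.prod_eq_zero (i := l - 1) (Finset.mem_range.2 (by omega)) ?_
    rw [Nat.sub_add_cancel hl0, map_sub, map_pow, h, map_one, sub_self]

/-- an automorphism fixing a prime of degree one -/
theorem stab (π : 𝓞 K →+* F) (hmF : ((m : ℕ) : F) ≠ 0) (hF : (Fintype.card F).Prime)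
    {I : Ideal (𝓞 K)} (hI : ∀ x, x ∈ I ↔ π x = 0) {u : (ZMod m)ˣ}
    (hu : I.map (sa m K u) = I) : u = 1 := by
  obtain ⟨c, hc⟩ : ∃ c : ℕ, (c : F) = π (zt m K) := by
    have : Fact (Fintype.card F).Prime := ⟨hF⟩
    let e := ZMod.ringEquivOfPrime F hF rfl
    obtain ⟨z, hz⟩ := e.surjective (π (zt m K))
    refine ⟨z.val, ?_⟩
    rw [← hz, ← map_natCast e, ZMod.natCast_zmod_val]
  have h1 : zt m K - (c : 𝓞 K) ∈ I := by
    rw [hI, map_sub, map_natCast, hc, sub_self]
  have h2 : sa m K u (zt m K - (c : 𝓞 K)) ∈ I := by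
    rw [← hu, mem_map_sa, sa_inv]
    exact h1
  rw [map_sub, map_natCast, sa_zt, hI, map_sub, map_natCast, hc, map_pow] at h2
  have h3 := map_ztm π hmF
  by_cases hm1 : m = 1
  · subst hm1
    exact Subsingleton.elim _ _
  have hm2 : 1 < m := by have := NeZero.pos m; omega
  have : Fact (1 < m) := ⟨hm2⟩
  have h4 : π (zt m K) ^ (u : ZMod m).val = π (zt m K) ^ ((1 : (ZMod m)ˣ) : ZMod m).val := by
    rw [Units.val_one, ZMod.val_one, pow_one]
    exact sub_eq_zero.1 h2
  exact Units.ext (ZMod.val_injective m (h3.pow_inj (ZMod.val_lt _) (ZMod.val_lt _) h4))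

theorem distinct (π : 𝓞 K →+* F) (hmF : ((m : ℕ) : F) ≠ 0) (hF : (Fintype.card F).Prime)
    {I : Ideal (𝓞 K)} (hI : ∀ x, x ∈ I ↔ π x = 0) {u v : (ZMod m)ˣ}
    (huv : I.map (sa m K u) = I.map (sa m K v)) : u = v := by
  have h1 := congrArg (fun J : Ideal (𝓞 K) => J.map (sa m K v⁻¹)) huv
  simp only [map_map_sa, inv_mul_cancel, map_sa_one] at h1
  have h2 := stab π hmF hF hI h1
  exact (inv_mul_eq_one.1 h2).symm

variable {p : ℕ} [Fact p.Prime] [hpm : Fact (p ∣ m)]

theorem sum_wt {a b : ℕ} (ha : ¬ p ∣ a) (hb : ¬ p ∣ b) (hab : ¬ p ∣ a + b) :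
    2 * ∑ t : (ZMod m)ˣ, wt m p a b t = Fintype.card (ZMod m)ˣ := by
  have h1 : ∑ t : (ZMod m)ˣ, wt m p a b (-t) = ∑ t : (ZMod m)ˣ, wt m p a b t :=
    Fintype.sum_equiv (Equiv.neg _) _ _ fun t => rfl
  rw [two_mul]
  nth_rewrite 2 [← h1]
  rw [← Finset.sum_add_distrib, Finset.sum_congr rfl fun t _ => wt_add ha hb hab t]
  simp

/-- **The Jacobi sums of a prime of degree one.** -/
theorem rel_jj (hp : p ≠ 2) (π : 𝓞 K →+* F) (hmF : ((m : ℕ) : F) ≠ 0)
    (hF : (Fintype.card F).Prime) {I : Ideal (𝓞 K)} (hI : ∀ x, x ∈ I ↔ π x = 0)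
    (hI0 : I ≠ ⊥) (hIp : I.IsPrime) (hIn : absNorm I = Fintype.card F) {χ : MulChar F (𝓞 K)}
    (hχ : χ ^ p = 1) (hχ2 : ∀ y : F, π (χ y) = y ^ ((Fintype.card F - 1) / p)) {a b : ℕ}
    (ha : ¬ p ∣ a) (hb : ¬ p ∣ b) (hab : ¬ p ∣ a + b) :
    Rel p (wt m p a b) 1 I (jj a b χ) := by
  classical
  have hpF : ((p : ℕ) : F) ≠ 0 := by
    intro h
    obtain ⟨k, hk⟩ := hpm.out
    apply hmF
    rw [hk, Nat.cast_mul, h, zero_mul]
  have hnrm := jj_norm (m := m) π hpF hχ hχ2 ha hb hab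
  refine ⟨?_, by rw [hIn, pow_one]; exact hnrm,
    jj_cong hp hχ (p_dvd (zp_prim m p K) π hpF) a b⟩
  have hprime : Prime I := Ideal.prime_of_isPrime hI0 hIp
  let f : (ZMod m)ˣ → Ideal (𝓞 K) := fun t => I.map (sa m K t⁻¹)
  have hf : Function.Injective f := fun u v h => inv_injective (distinct π hmF hF hI h)
  have e0 : iw m K (wt m p a b) I =
      ∏ t ∈ Finset.univ.filter (fun t => rs m p a t + rs m p b t < p), f t := by
    rw [Finset.prod_filter]
    unfold iw wt
    refine Finset.prod_congr rfl fun t _ => ?_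
    split_ifs
    · rw [pow_one]
    · rw [pow_zero]
  have hdvd : iw m K (wt m p a b) I ∣ span {jj a b χ} := by
    have e1 : iw m K (wt m p a b) I =
        ∏ J ∈ (Finset.univ.filter (fun t => rs m p a t + rs m p b t < p)).image f, J := by
      rw [Finset.prod_image fun a _ b _ h => hf h, e0]
    rw [e1]
    refine Finset.prod_primes_dvd _ ?_ ?_
    · intro J hJ
      obtain ⟨t, -, rfl⟩ := Finset.mem_image.1 hJ
      refine Ideal.prime_of_isPrime ?_ (Ideal.map_isPrime_of_equiv (sa m K t⁻¹))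
      intro h
      apply hI0
      apply map_sa_inj (m := m) t⁻¹
      rw [show I.map (sa m K t⁻¹) = ⊥ from h, Ideal.map_bot]
    · intro J hJ
      obtain ⟨t, ht, rfl⟩ := Finset.mem_image.1 hJ
      rw [Finset.mem_filter] at ht
      rw [Ideal.dvd_span_singleton, mem_map_sa, inv_inv, hI]
      exact jj_mem π hpF hχ hχ2 ha hb ht.2
  obtain ⟨B, hB⟩ := hdvd
  have hℓ : Fintype.card F ≠ 0 := hF.ne_zero
  have hn1 : absNorm (iw m K (wt m p a b) I) =
      Fintype.card F ^ ∑ t : (ZMod m)ˣ, wt m p a b t := by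
    unfold iw
    rw [map_prod, ← Finset.prod_pow_eq_pow_sum]
    refine Finset.prod_congr rfl fun t _ => ?_
    rw [map_pow, absNorm_map_sa, hIn]
  have hn2 : absNorm (span {jj a b χ}) = Fintype.card F ^ ∑ t : (ZMod m)ˣ, wt m p a b t := by
    have h1 : absNorm (span {jj a b χ}) * absNorm (span {jj a b χ}) =
        Fintype.card F ^ (∑ t : (ZMod m)ˣ, wt m p a b t) *
          Fintype.card F ^ (∑ t : (ZMod m)ˣ, wt m p a b t) := by
      have h2 : absNorm (span {jj a b χ * sa m K (-1) (jj a b χ)}) =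
          absNorm (span {((Fintype.card F : ℕ) : 𝓞 K)}) := by rw [hnrm]
      rw [← Ideal.span_singleton_mul_span_singleton, map_mul, absNorm_nat (m := m)] at h2
      have h3 : span {sa m K (-1) (jj a b χ)} = (span {jj a b χ}).map (sa m K (-1)) := by
        rw [Ideal.map_span, Set.image_singleton]
      rw [h3, absNorm_map_sa] at h2
      rw [h2, ← pow_add, ← two_mul, sum_wt ha hb hab]
    exact Nat.mul_self_inj.1 h1
  have h4 := congrArg absNorm hB
  rw [map_mul, hn1, hn2] at h4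
  have h5 : absNorm B = 1 := by
    have h6 : Fintype.card F ^ (∑ t : (ZMod m)ˣ, wt m p a b t) * absNorm B =
        Fintype.card F ^ (∑ t : (ZMod m)ˣ, wt m p a b t) * 1 := by
      rw [← h4, mul_one]
    exact Nat.eq_of_mul_eq_mul_left (pow_pos hF.pos _) h6
  rw [hB, Ideal.absNorm_eq_one_iff.1 h5, Ideal.mul_top]

end

end Pool.Agent.NH35.HD
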