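import Pool.Agent.NH35.HD.Psi
import Pool.Agent.NH35.HC.Tr

/-! The traces of Frobenius as sums over the primes of the cyclotomic field. -/

set_option autoImplicit false
set_option linter.unusedSectionVars false
open NumberField NumberField.InfinitePlace IsDedekindDomain
open Module nonZeroDivisors Ideal IsCyclotomicExtension
open scoped ComplexConjugate
open Pool.Agent.H921R2.TatePole (below deg nm_eq)

namespace Pool.Agent.NH35.HD
open Pool.Agent.NH35.HC (Hk pow_inj_of_coprime)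

/-- the normalised trace of Frobenius of the curve `y² = x^p + k` -/
noncomputable def TT (p : ℕ) (k : ℤ) (ℓ : Nat.Primes) : ℝ :=
  ((ℓ : ℕ) - (pts p k (ZMod (ℓ : ℕ)) : ℝ)) / Real.sqrt (ℓ : ℕ)

theorem TT_zero {p : ℕ} [Fact p.Prime] (k : ℤ) {ℓ : Nat.Primes} (h : ¬ p ∣ (ℓ : ℕ) - 1) :
    TT p k ℓ = 0 := by
  have hpr : p.Prime := Fact.out
  have : Fact (ℓ : ℕ).Prime := ⟨ℓ.2⟩
  have h0 : Function.Injective fun x : ZMod (ℓ : ℕ) => x ^ p := by
    apply pow_inj_of_coprime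
    rw [ZMod.card]
    exact (Nat.Prime.coprime_iff_not_dvd hpr).2 h
  have h1 : pts p k (ZMod (ℓ : ℕ)) = ℓ := by
    rw [pts_eq_sum]
    have h2 : ∀ y : ZMod (ℓ : ℕ), Nat.card {x : ZMod (ℓ : ℕ) // y ^ 2 - (k : ZMod (ℓ : ℕ)) = x ^ p} =
        1 := by
      intro y
      obtain ⟨x, hx⟩ := (Finite.injective_iff_bijective.1 h0).2 (y ^ 2 - (k : ZMod (ℓ : ℕ)))
      rw [Nat.card_eq_one_iff_unique]
      refine ⟨⟨fun a b => Subtype.ext (h0 (a.2.symm.trans b.2))⟩, ⟨⟨x, hx.symm⟩⟩⟩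
    rw [Finset.sum_congr rfl fun y _ => h2 y, Finset.sum_const, Finset.card_univ, ZMod.card,
      smul_eq_mul, mul_one]
  unfold TT
  rw [h1, sub_self, zero_div]

section
variable {m : ℕ} [NeZero m] (K : Type) [Field K] [NumberField K] [IsCyclotomicExtension {m} ℚ K]

theorem above_one (ℓ : Nat.Primes) (hℓm : ¬ (ℓ : ℕ) ∣ m) (h : m ∣ (ℓ : ℕ) - 1) :
    (∀ v : HeightOneSpectrum (𝓞 K), below v = ℓ → deg v = 1) ∧
    Fintype.card {v : HeightOneSpectrum (𝓞 K) // below v = ℓ} = m.totient := by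
  have hℓ := ℓ.2.two_le
  have h1 := H82R3.EK.deg_and_count K m ℓ m 0 (by rw [pow_zero, one_mul]) hℓm
  have h2 : ((ℓ : ℕ) : ZMod m) = 1 := by
    have h3 : (((ℓ : ℕ) - 1 : ℕ) : ZMod m) = 0 := (ZMod.natCast_eq_zero_iff _ _).2 h
    rw [Nat.cast_sub (by omega), Nat.cast_one, sub_eq_zero] at h3
    exact h3
  rw [h2, orderOf_one, Nat.div_one] at h1
  exact h1

theorem deg_ne_one {ℓ : Nat.Primes} (hℓm : ¬ (ℓ : ℕ) ∣ m) (h : ¬ m ∣ (ℓ : ℕ) - 1)
    (v : HeightOneSpectrum (𝓞 K)) (hv : below v = ℓ) : deg v ≠ 1 := by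
  have hℓ := ℓ.2.two_le
  have h1 := (H82R3.EK.deg_and_count K m ℓ m 0 (by rw [pow_zero, one_mul]) hℓm).1 v hv
  rw [h1]
  intro h2
  rw [orderOf_eq_one_iff] at h2
  apply h
  rw [← ZMod.natCast_eq_zero_iff, Nat.cast_sub (by omega), Nat.cast_one, h2, sub_self]

variable {K}

/-- the primes above a prime `ℓ ≡ 1` are the conjugates of one of them -/
theorem sum_above (ℓ : Nat.Primes) (hℓm : ¬ (ℓ : ℕ) ∣ m) (h : m ∣ (ℓ : ℕ) - 1)
    (v0 : HeightOneSpectrum (𝓞 K))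
    (hv0 : below v0 = ℓ) (hinj : ∀ u u' : (ZMod m)ˣ,
      v0.asIdeal.map (sa m K u) = v0.asIdeal.map (sa m K u') → u = u')
    (f : Ideal (𝓞 K) → ℂ) :
    ∑ v : {v : HeightOneSpectrum (𝓞 K) // below v = ℓ}, f v.1.asIdeal =
      ∑ u : (ZMod m)ˣ, f (v0.asIdeal.map (sa m K u)) := by
  classical
  have hbel : ∀ u : (ZMod m)ˣ, ∃ v : {v : HeightOneSpectrum (𝓞 K) // below v = ℓ},
      v.1.asIdeal = v0.asIdeal.map (sa m K u) := by
    intro u
    have h1 : v0.asIdeal.map (sa m K u) ≠ ⊥ := by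
      intro h
      apply v0.ne_bot
      apply map_sa_inj (m := m) u
      rw [h, Ideal.map_bot]
    have h2 : (v0.asIdeal.map (sa m K u)).IsPrime := by
      have := v0.isPrime
      exact Ideal.map_isPrime_of_equiv (sa m K u)
    let v : HeightOneSpectrum (𝓞 K) := ⟨v0.asIdeal.map (sa m K u), h2, h1⟩
    refine ⟨⟨v, ?_⟩, rfl⟩
    apply H82R3.EK.below_eq_of_mem
    change (((ℓ : ℕ) : ℕ) : 𝓞 K) ∈ v0.asIdeal.map (sa m K u)
    rw [mem_map_sa, map_natCast]
    have h3 := (nm_eq v0).2.2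
    rwa [hv0] at h3
  choose g hg using hbel
  have hginj : Function.Injective g := by
    intro u u' huu
    apply hinj
    rw [← hg, ← hg, huu]
  have hcard : Fintype.card (ZMod m)ˣ =
      Fintype.card {v : HeightOneSpectrum (𝓞 K) // below v = ℓ} := by
    rw [ZMod.card_units_eq_totient, (above_one K ℓ hℓm h).2]
  have hbij : Function.Bijective g := (Fintype.bijective_iff_injective_and_card g).2
    ⟨hginj, hcard⟩
  rw [← hbij.sum_comp fun v : {v : HeightOneSpectrum (𝓞 K) // below v = ℓ} => f v.1.asIdeal]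
  exact Finset.sum_congr rfl fun u _ => by rw [hg]

/-- the residue field of a place of degree one -/
theorem place (ℓ : Nat.Primes) (hℓm : ¬ (ℓ : ℕ) ∣ m) (h : m ∣ (ℓ : ℕ) - 1)
    (v0 : HeightOneSpectrum (𝓞 K)) (hv0 : below v0 = ℓ) :
    ∃ (F : Type) (_ : Field F) (_ : Fintype F) (π : 𝓞 K →+* F), Pl m π v0.asIdeal ∧
      Fintype.card F = ℓ := by
  classical
  obtain ⟨hdeg, hcard⟩ := above_one K ℓ hℓm h
  have hmax : v0.asIdeal.IsMaximal := v0.isMaximal
  have hpv : ((m : ℕ) : 𝓞 K) ∉ v0.asIdeal := by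
    intro h2
    obtain ⟨q, hq, hq'⟩ : ∃ q : ℕ, q.Prime ∧ q ∣ m ∧ ((q : ℕ) : 𝓞 K) ∈ v0.asIdeal := by
      have h3 : ((m : ℕ) : 𝓞 K) ∈ v0.asIdeal := h2
      by_contra hcon
      push Not at hcon
      have key : ∀ n : ℕ, n ∣ m → ((n : ℕ) : 𝓞 K) ∉ v0.asIdeal := by
        intro n
        induction n using Nat.recOnMul with
        | zero =>
            intro h4
            exact absurd (Nat.eq_zero_of_zero_dvd h4) (NeZero.ne m)
        | one =>
            intro _ h4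
            rw [Nat.cast_one] at h4
            exact hmax.ne_top ((Ideal.eq_top_iff_one _).2 h4)
        | prime q hq => exact fun h4 => hcon q hq h4
        | mul a b iha ihb =>
            intro h4 h5
            rw [Nat.cast_mul] at h5
            rcases v0.isPrime.mem_or_mem h5 with h6 | h6
            · exact iha (dvd_of_mul_right_dvd h4) h6
            · exact ihb (dvd_of_mul_left_dvd h4) h6
      exact key m dvd_rfl h3
    have h3 := H82R3.EK.below_eq_of_mem K (p := ⟨q, hq⟩) v0 hq'.2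
    rw [hv0] at h3
    apply hℓm
    rw [h3]
    exact hq'.1
  let _ : Field (𝓞 K ⧸ v0.asIdeal) := Ideal.Quotient.field v0.asIdeal
  have : Finite (𝓞 K ⧸ v0.asIdeal) := Ideal.finiteQuotientOfFreeOfNeBot _ v0.ne_bot
  let _ : Fintype (𝓞 K ⧸ v0.asIdeal) := Fintype.ofFinite _
  set π : 𝓞 K →+* 𝓞 K ⧸ v0.asIdeal := Ideal.Quotient.mk v0.asIdeal with hπ
  have hnorm : absNorm v0.asIdeal = ℓ := by
    have h2 := (nm_eq v0).1
    rw [hdeg v0 hv0, pow_one, hv0] at h2
    exact h2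
  have hcF : Fintype.card (𝓞 K ⧸ v0.asIdeal) = ℓ := by
    rw [← hnorm, Ideal.absNorm_apply, Submodule.cardQuot_apply, Nat.card_eq_fintype_card]
  have hI : ∀ x, x ∈ v0.asIdeal ↔ π x = 0 := fun x => Ideal.Quotient.eq_zero_iff_mem.symm
  refine ⟨𝓞 K ⧸ v0.asIdeal, inferInstance, inferInstance, π, ⟨?_, ?_, hI, v0.ne_bot, hmax, ?_⟩, hcF⟩
  · intro h2
    apply hpv
    rw [hI, map_natCast]
    exact h2
  · rw [hcF]
    exact ℓ.2
  · rw [hnorm, hcF]

theorem inj_above (ℓ : Nat.Primes) (hℓm : ¬ (ℓ : ℕ) ∣ m) (h : m ∣ (ℓ : ℕ) - 1)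
    (v0 : HeightOneSpectrum (𝓞 K)) (hv0 : below v0 = ℓ) (u u' : (ZMod m)ˣ)
    (huu : v0.asIdeal.map (sa m K u) = v0.asIdeal.map (sa m K u')) : u = u' := by
  obtain ⟨F, _, _, π, hπ, hcF⟩ := place ℓ hℓm h v0 hv0
  exact distinct π hπ.mF hπ.pr hπ.ker huu

end

section
variable {ι : Type} [Fintype ι] [DecidableEq ι] {p : ι → ℕ} [hpr : ∀ i, Fact (p i).Prime]
  {m : ℕ} [NeZero m] [hpm : ∀ i, Fact (p i ∣ m)] {K : Type} [Field K] [NumberField K]
  [IsCyclotomicExtension {m} ℚ K]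

variable (K) in
/-- the values of the product of the characters of the curves -/
def Val (p : ι → ℕ) [∀ i, Fact (p i).Prime] (m : ℕ) [NeZero m] [∀ i, Fact (p i ∣ m)]
    (k : ι → ℤ) (M : ℕ) (τ : K →+* ℂ) (Ψ : Ideal (𝓞 K) → ℂ) : Prop :=
  ∀ (F : Type) [Field F] [Fintype F] (π : 𝓞 K →+* F) (I : Ideal (𝓞 K))
    (χ : ι → MulChar F (𝓞 K)), Pl m π I → (∀ i, Rc (p i) π (χ i)) → ((M : ℕ) : F) ≠ 0 →
    Ψ I = ∏ i, (τ ((χ i (4 * (k i : F)) * jj 1 1 (χ i) : 𝓞 K) : K) /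
      ((Real.sqrt (Fintype.card F) : ℝ) : ℂ))

/-- **The product of the traces of Frobenius as a sum of values of the Hecke character.** -/
theorem trace (hinj : Function.Injective p) (hm : m = ∏ i, p i) (hp : ∀ i, p i ≠ 2)
    (k : ι → ℤ) {M : ℕ} (hmM : m ∣ M) (h2M : 2 ∣ M) (hkM : ∀ i, k i ∣ (M : ℤ)) (τ : K →+* ℂ)
    {Ψ : Ideal (𝓞 K) → ℂ} (hΨ : Val K p m k M τ Ψ) (ℓ : Nat.Primes) (hℓ : ¬ (ℓ : ℕ) ∣ M) :
    ∃ e : ℝ, e ^ 2 = 1 ∧ ∑ v : {v : HeightOneSpectrum (𝓞 K) // below v = ℓ},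
      (if deg v.1 = 1 then Ψ v.1.asIdeal else 0) = ((e * ∏ i, TT (p i) (k i) ℓ : ℝ) : ℂ) := by
  classical
  have hℓm : ¬ (ℓ : ℕ) ∣ m := fun h => hℓ (h.trans hmM)
  by_cases h : m ∣ (ℓ : ℕ) - 1
  · obtain ⟨hdeg, hcard⟩ := above_one K ℓ hℓm h
    have e1 : ∑ v : {v : HeightOneSpectrum (𝓞 K) // below v = ℓ},
        (if deg v.1 = 1 then Ψ v.1.asIdeal else 0) =
        ∑ v : {v : HeightOneSpectrum (𝓞 K) // below v = ℓ}, Ψ v.1.asIdeal :=
      Finset.sum_congr rfl fun v _ => if_pos (hdeg v.1 v.2)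
    have hne : Nonempty {v : HeightOneSpectrum (𝓞 K) // below v = ℓ} := by
      rw [← Fintype.card_pos_iff, hcard]
      exact Nat.totient_pos.2 (NeZero.pos m)
    obtain ⟨⟨v0, hv0⟩⟩ := hne
    obtain ⟨F, _, _, π, hπ, hcF⟩ := place ℓ hℓm h v0 hv0
    have hres : ∀ i, ∃ χ : MulChar F (𝓞 K), Rc (p i) π χ := by
      intro i
      obtain ⟨χ, h1, h2⟩ := exists_res (zp_prim m (p i) K) π (hπ.pF (p i))
      exact ⟨χ, h1, h2⟩
    choose χ hχ using hres
    have hcast : ∀ n : ℕ, n ∣ M → ((n : ℕ) : F) ≠ 0 := by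
      intro n hn h2
      obtain ⟨c, hc⟩ := hn
      have hM : ((M : ℕ) : F) = 0 := by rw [hc, Nat.cast_mul, h2, zero_mul]
      apply hℓ
      have hchar : ringChar F ∣ M := (ringChar.spec _ _).1 hM
      have h3 : ringChar F = ℓ := by
        have h4 : ((ℓ : ℕ) : F) = 0 := by
          rw [← hcF]
          exact FiniteField.cast_card_eq_zero F
        have h5 : ringChar F ∣ ℓ := (ringChar.spec _ _).1 h4
        rcases (Nat.dvd_prime ℓ.2).1 h5 with h6 | h6
        · exact absurd h6 (CharP.ringChar_ne_one)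
        · exact h6
      rwa [h3] at hchar
    have h2F : (2 : F) ≠ 0 := by
      have := hcast 2 h2M
      exact_mod_cast this
    have hkF : ∀ i, (k i : F) ≠ 0 := by
      intro i h3
      have h4 := hcast (k i).natAbs (Int.natCast_dvd_natCast.1 (by
        rw [Int.natCast_natAbs]
        exact (abs_dvd _ _).2 (hkM i)))
      apply h4
      rcases Int.natAbs_eq (k i) with h5 | h5
      · have h6 := congrArg (Int.cast : ℤ → F) h5
        rw [Int.cast_natCast] at h6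
        rw [← h6, h3]
      · have h6 := congrArg (Int.cast : ℤ → F) h5
        rw [Int.cast_neg, Int.cast_natCast, h3] at h6
        exact (neg_eq_zero.1 h6.symm)
    have hMF : ((M : ℕ) : F) ≠ 0 := hcast M dvd_rfl
    -- the values at the conjugates
    set s : ℂ := ((Real.sqrt (ℓ : ℕ) : ℝ) : ℂ) with hs
    have e2 : ∀ u : (ZMod m)ˣ, Ψ (v0.asIdeal.map (sa m K u)) =
        ∏ i, (τ ((GG (χ i) (k i) (om m (p i) u) : 𝓞 K) : K) / s) := by
      intro u
      rw [hΨ F _ _ (fun i => (χ i).ringHomComp (sa m K u : 𝓞 K →+* 𝓞 K)) (hπ.sa u)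
        (fun i => (hχ i).sa u) hMF]
      refine Finset.prod_congr rfl fun i _ => ?_
      rw [jj_comp, ← sa_GG (hχ i), map_mul (sa m K u), hcF]
      rfl
    -- the curves
    have e3 : ∀ i, ((TT (p i) (k i) ℓ : ℝ) : ℂ) = ((quadraticChar F (k i : F) : ℤ) : ℂ) *
        ∑ t : (ZMod (p i))ˣ, τ ((GG (χ i) (k i) t : 𝓞 K) : K) / s := by
      intro i
      have h3 := count (zp_prim m (p i) K) (hp i) (hπ.pF (p i)) h2F (hχ i) (hkF i)
      have h4 := congrArg (fun x : 𝓞 K => τ (algebraMap (𝓞 K) K x)) h3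
      simp only [map_sum, map_sub, map_natCast, map_mul, map_intCast] at h4
      have h5 : pts (p i) (k i) (ZMod (ℓ : ℕ)) = pts (p i) (k i) F :=
        pts_equiv (p i) (k i) (ZMod.ringEquivOfPrime F ℓ.2 hcF)
      have h6 : ((Fintype.card F : ℕ) : ℂ) = ((ℓ : ℕ) : ℂ) := by rw [hcF]
      rw [h6] at h4
      rw [← Finset.sum_div, ← mul_div_assoc]
      unfold TT
      rw [h5]
      push_cast
      rw [hs]
      congr 1
    have e4 : ∏ i, ((TT (p i) (k i) ℓ : ℝ) : ℂ) =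
        (∏ i, ((quadraticChar F (k i : F) : ℤ) : ℂ)) *
          ∑ v : {v : HeightOneSpectrum (𝓞 K) // below v = ℓ}, Ψ v.1.asIdeal := by
      rw [Finset.prod_congr rfl fun i _ => e3 i, Finset.prod_mul_distrib,
        sum_above ℓ hℓm h v0 hv0 (fun u u' => distinct π hπ.mF hπ.pr hπ.ker) Ψ,
        Finset.sum_congr rfl fun u _ => e2 u]
      congr 1
      rw [Finset.prod_univ_sum, Fintype.piFinset_univ]
      exact ((om_bij (m := m) hinj hm).sum_comp fun t : (i : ι) → (ZMod (p i))ˣ =>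
        ∏ i, (τ ((GG (χ i) (k i) (t i) : 𝓞 K) : K) / s)).symm
    have hsq : ∀ i, (quadraticChar F (k i : F) : ℤ) ^ 2 = 1 := fun i =>
      quadraticChar_sq_one (hkF i)
    refine ⟨∏ i, ((quadraticChar F (k i : F) : ℤ) : ℝ), ?_, ?_⟩
    · rw [← Finset.prod_pow]
      refine Finset.prod_eq_one fun i _ => ?_
      exact_mod_cast hsq i
    · rw [e1]
      push_cast
      rw [e4, ← mul_assoc, ← Finset.prod_mul_distrib, Finset.prod_eq_one fun i _ => ?_, one_mul]
      have h7 := hsq i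
      rw [pow_two] at h7
      exact_mod_cast h7
  · refine ⟨1, one_pow _, ?_⟩
    have hex : ∃ i, ¬ p i ∣ (ℓ : ℕ) - 1 := by
      by_contra hcon
      push Not at hcon
      apply h
      have e : m = ∏ q ∈ Finset.univ.image p, q := by
        rw [Finset.prod_image fun a _ b _ h => hinj h, hm]
      refine (dvd_of_eq e).trans (Finset.prod_primes_dvd _ ?_ ?_)
      · intro q hq
        obtain ⟨i, -, rfl⟩ := Finset.mem_image.1 hq
        exact (hpr i).out.prime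
      · intro q hq
        obtain ⟨i, -, rfl⟩ := Finset.mem_image.1 hq
        exact hcon i
    obtain ⟨i, hi⟩ := hex
    rw [Finset.prod_eq_zero (Finset.mem_univ i) (TT_zero (k i) hi), mul_zero, Complex.ofReal_zero]
    exact Finset.sum_eq_zero fun v _ => if_neg (deg_ne_one K hℓm h v.1 v.2)

end

end Pool.Agent.NH35.HD
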