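import Pool.Agent.NH35.HD.Lk

/-! One sequence of curves for all varieties. -/

set_option autoImplicit false
set_option linter.unusedSectionVars false
open Filter Topology Finset Polynomial
open Pool.Agent.Y149.PK
open Pool.Agent.Y149.CM (LFun nt kunneth)

namespace Pool.Agent.NH35.HD

theorem variety_VG (X : Variety) :
    ∀ᶠ ℓ : Nat.Primes in cofinite, VG X.betti ℓ (X.frob ℓ) :=
  X.good.mono fun _ h => frobenius_VG h.1 fun a => (h.2.2 a).le

theorem variety_vanish (X : Variety) {c : ℕ} (hc : 2 * X.dim < c) : X.betti c = 0 := by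
  have : (cofinite : Filter Nat.Primes).NeBot := by
    have : Infinite Nat.Primes := inferInstance
    exact cofinite_neBot
  obtain ⟨ℓ, h⟩ := X.good.exists
  rw [← h.2.2 c, h.1.vanish c hc]
  simp

theorem evenPart_step (z : ℕ → ℤ) (j n : ℕ) :
    evenPart (fun c => evenPart z j c) 1 n = evenPart z (j + 1) n := by
  have h : ((evenPart (fun c => evenPart z j c) 1 n : ℤ) : ℝ) = (evenPart z (j + 1) n : ℤ) := by
    rw [← evenPart_cast_int, ← evenPart_cast_int, evenPart_succ, evenPart_succ, evenPart_nil,
      evenPart_nil, evenPart_cast_int, evenPart_cast_int]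
  exact_mod_cast h

section
variable {ι : Type} {p : ι → ℕ} {k : ι → ℤ} {γ : ι → Nat.Primes → ℕ → Multiset ℂ}
  {B : List ι → ℕ → Nat.Primes → ℂ[X]}

theorem universal (hC : IsCurveFamily p k) (e : ℕ → ι)
    (he : ∀ j, (j * ∏ i ∈ range j, (p (e i) + 1)) ^ 2 < p (e j) - 1) (X : Variety)
    (hγ : ∀ i, ∀ᶠ ℓ : Nat.Primes in cofinite, IsFrobC (p i) (k i) ℓ (γ i ℓ))
    (hB : ∀ l n, IsEuler n (fun ℓ => frobProd (X.frob ℓ) (fun e => γ e ℓ) l n) (B l n))
    (r : List ℕ → ℕ → ℤ) (hr : ∀ l n, HasOrder n (B (l.map e) n) (-(r l n))) :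
    ∃ j₀, ∀ l : List ℕ, l.Pairwise (· > ·) → (∀ j ∈ l, j₀ ≤ j) → ∀ n,
      r l n = evenPart (r []) l.length n := by
  classical
  set b := ∑ c ∈ range (2 * X.dim + 1), X.betti c with hb
  refine ⟨b, fun l => ?_⟩
  induction l with
  | nil =>
      intro _ _ n
      have h1 : ((r [] n : ℤ) : ℝ) = (evenPart (r []) 0 n : ℤ) := by
        rw [← evenPart_cast_int, evenPart_nil]
      exact_mod_cast h1
  | cons j l ih =>
      intro hl hj n
      rw [List.pairwise_cons] at hl
      have ih' := ih hl.2 fun i hi => hj i (List.mem_cons_of_mem _ hi)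
      have hbj : b ≤ j := hj j List.mem_cons_self
      have hdim : dimC X.betti p (l.map e) (n - 1) ^ 2 < p (e j) - 1 := by
        refine lt_of_le_of_lt (Nat.pow_le_pow_left ?_ 2) (he j)
        refine (dimC_le X.betti (fun c hc => variety_vanish X hc)
          (fun i => (hC.prime i).one_le) (l.map e) (n - 1)).trans ?_
        refine Nat.mul_le_mul hbj ?_
        rw [List.map_map]
        have hnd : l.Nodup := hl.2.imp fun h => h.ne'
        have h1 : (l.map ((fun i => p i + 1) ∘ e)).prod = ∏ i ∈ l.toFinset, (p (e i) + 1) :=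
          (List.prod_toFinset _ hnd).symm
        rw [h1]
        refine Finset.prod_le_prod_of_subset_of_one_le' (fun i hi => ?_) fun i _ _ => ?_
        · rw [List.mem_toFinset] at hi
          exact mem_range.2 (hl.1 i hi)
        · exact Nat.le_add_left 1 _
      have h1 := one_order hC (variety_VG X) hγ hB (e j) (l.map e) (n := n) (r₀ := r l n)
        (r₂ := r l (n - 2)) (r := r (j :: l) n) hdim (hr l n) (fun _ => hr l (n - 2))
        (hr (j :: l) n)
      rw [h1, List.length_cons, ← evenPart_step (r []) l.length n, ih', ih']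
      have h2 : ((evenPart (r []) l.length n + if 2 ≤ n then evenPart (r []) l.length (n - 2)
          else 0 : ℤ) : ℝ) = (evenPart (fun c => evenPart (r []) l.length c) 1 n : ℤ) := by
        rw [← evenPart_cast_int (fun c => evenPart (r []) l.length c), evenPart_succ,
          evenPart_nil]
        split_ifs
        · rw [evenPart_nil]
          push_cast
          rfl
        · push_cast
          rfl
      exact_mod_cast h2

end

end Pool.Agent.NH35.HD
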