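import Pool.Agent.NH35.HD.Cyc

/-! Normalised generators of the images of ideals under elements of the group ring. -/

set_option autoImplicit false
set_option linter.unusedSectionVars false
open NumberField NumberField.InfinitePlace IsDedekindDomain
open Module nonZeroDivisors Ideal IsCyclotomicExtension
open scoped ComplexConjugate

namespace Pool.Agent.NH35.HD

section
variable (m : ℕ) [NeZero m] (p : ℕ) [Fact p.Prime] [hpm : Fact (p ∣ m)]
  (K : Type) [Field K] [NumberField K] [IsCyclotomicExtension {m} ℚ K]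

/-- the root of unity of order `p` -/
noncomputable def zp : 𝓞 K := zt m K ^ (m / p)

theorem zp_prim : IsPrimitiveRoot (zp m p K) p := by
  obtain ⟨k, hk⟩ := hpm.out
  have hp0 : p ≠ 0 := (Fact.out : p.Prime).ne_zero
  have hk0 : 0 < k := Nat.pos_of_ne_zero (by rintro rfl; exact NeZero.ne m (by simpa using hk))
  have h1 : m / p = k := by rw [hk]; exact Nat.mul_div_cancel_left k (Nat.pos_of_ne_zero hp0)
  unfold zp
  rw [h1]
  exact (zt_prim m K).pow (NeZero.pos m) (by rw [hk, mul_comm])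

/-- the exponent of an automorphism on the roots of unity of order `p` -/
def om : (ZMod m)ˣ →* (ZMod p)ˣ := ZMod.unitsMap hpm.out

variable {m p K}

theorem om_neg (u : (ZMod m)ˣ) : om m p (-u) = -om m p u := by
  apply Units.ext
  unfold om
  rw [ZMod.unitsMap_val, Units.val_neg, Units.val_neg, ZMod.unitsMap_val]
  exact map_neg (ZMod.castHom hpm.out (ZMod p)) _

theorem pow_om {R : Type} [Monoid R] {z : R} (hz : z ^ p = 1) (u : (ZMod m)ˣ) :
    z ^ (u : ZMod m).val = z ^ (om m p u : ZMod p).val := by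
  have h1 : ((om m p u : ZMod p)) = (((u : ZMod m).val : ℕ) : ZMod p) := by
    unfold om
    rw [ZMod.unitsMap_val, ZMod.natCast_val]
  rw [h1, ZMod.val_natCast, ← pow_mod_orderOf z (u : ZMod m).val,
    ← pow_mod_orderOf z ((u : ZMod m).val % p), Nat.mod_mod_of_dvd _ (orderOf_dvd_of_pow_eq_one hz)]

theorem sa_proot (u : (ZMod m)ˣ) {z : 𝓞 K} (hz : z ^ p = 1) :
    sa m K u z = z ^ (om m p u : ZMod p).val := by
  rw [← pow_om hz]
  apply sa_root
  obtain ⟨k, hk⟩ := hpm.out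
  rw [hk, pow_mul, hz, one_pow]

theorem p_not_unit {p : ℕ} (hpr : p.Prime) {K : Type} [Field K] [NumberField K] :
    ¬ IsUnit ((p : ℕ) : 𝓞 K) := by
  intro h
  have h1 : span {((p : ℕ) : 𝓞 K)} = ⊤ := Ideal.span_singleton_eq_top.2 h
  have h2 : absNorm (span {((p : ℕ) : 𝓞 K)}) = p ^ finrank ℤ (𝓞 K) :=
    Ideal.absNorm_span_natCast p
  rw [h1, Ideal.absNorm_top, RingOfIntegers.rank] at h2
  have h3 : 1 < p ^ finrank ℚ K := Nat.one_lt_pow finrank_pos.ne' hpr.one_lt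
  omega

theorem zp_not_unit : ¬ IsUnit (zp m p K - 1) := by
  intro h
  have hpr : p.Prime := Fact.out
  apply p_not_unit hpr (K := K)
  have hp1 : p = (p - 1) + 1 := (Nat.sub_add_cancel hpr.one_le).symm
  have h1 : IsPrimitiveRoot (zp m p K) ((p - 1) + 1) := by rw [← hp1]; exact zp_prim m p K
  have h2 := h1.prod_one_sub_pow_eq_order
  have h3 : (((p - 1 : ℕ) : 𝓞 K) + 1) = ((p : ℕ) : 𝓞 K) := by
    have := congrArg (Nat.cast : ℕ → 𝓞 K) hp1
    push_cast at this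
    exact this.symm
  rw [← h3, ← h2]
  refine Finset.prod_induction _ IsUnit (fun a b => IsUnit.mul) isUnit_one fun k hk => ?_
  have hk' := Finset.mem_range.1 hk
  have hc : (k + 1).Coprime p := by
    rw [Nat.coprime_comm, hpr.coprime_iff_not_dvd]
    exact Nat.not_dvd_of_pos_of_lt (Nat.succ_pos k) (by omega)
  have h4 := (zp_prim m p K).associated_sub_one_pow_sub_one_of_coprime hc
  have h5 := h4.isUnit h
  have h6 : 1 - zp m p K ^ (k + 1) = -(zp m p K ^ (k + 1) - 1) := by ring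
  rw [h6]
  exact h5.neg

theorem dvd_p (hp : p ≠ 2) : (zp m p K - 1) ^ 2 ∣ ((p : ℕ) : 𝓞 K) := by
  have h2 : 2 < p := lt_of_le_of_ne (Fact.out : p.Prime).two_le (Ne.symm hp)
  obtain ⟨z, -, hz⟩ := (zp_prim m p K).self_sub_one_pow_dvd_order h2
  exact ⟨z, by rw [hz]; ring⟩

theorem dvd_p1 : zp m p K - 1 ∣ ((p : ℕ) : 𝓞 K) := by
  obtain ⟨z, -, hz⟩ := (zp_prim m p K).self_sub_one_pow_dvd_order (k := 1)
    (Fact.out : p.Prime).one_lt
  exact ⟨z, by rw [hz]; ring⟩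

/-- a unit of absolute value one congruent to one modulo `(1 - ζ)²` -/
theorem unit_eq_one (u : 𝓞 K) (h1 : ∀ τ : K →+* ℂ, ‖τ (u : K)‖ = 1)
    (h2 : (zp m p K - 1) ^ 2 ∣ u - 1) : u = 1 := by
  by_contra hne
  have hpr : p.Prime := Fact.out
  obtain ⟨n, hn, hu⟩ := NumberField.Embeddings.pow_eq_one_of_norm_eq_one K ℂ u.isIntegral_coe h1
  have hu' : u ^ n = 1 := by
    apply RingOfIntegers.ext
    exact (map_pow (algebraMap (𝓞 K) K) u n).trans (hu.trans (map_one _).symm)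
  have hfin : IsOfFinOrder u := isOfFinOrder_iff_pow_eq_one.2 ⟨n, hn, hu'⟩
  have ho : orderOf u ≠ 1 := fun h => hne (orderOf_eq_one_iff.1 h)
  have ho0 : 0 < orderOf u := hfin.orderOf_pos
  obtain ⟨q, hq, k, hk⟩ := Nat.exists_prime_and_dvd ho
  have hk0 : 0 < k := Nat.pos_of_ne_zero (by rintro rfl; omega)
  set ω := u ^ k with hω
  have hωp : IsPrimitiveRoot ω q := (IsPrimitiveRoot.orderOf u).pow ho0 (by rw [hk, mul_comm])
  have h3 : u - 1 ∣ ω - 1 := by simpa using sub_dvd_pow_sub_pow u 1 k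
  have h4 := h2.trans h3
  have hd : zp m p K - 1 ∣ (zp m p K - 1) ^ 2 := dvd_pow_self _ two_ne_zero
  by_cases hqp : q = p
  · subst hqp
    obtain ⟨i, hi, hi'⟩ := (zp_prim m q K).eq_pow_of_pow_eq_one hωp.pow_eq_one
    have hi0 : i ≠ 0 := by
      rintro rfl
      rw [pow_zero] at hi'
      exact hωp.ne_one hq.one_lt hi'.symm
    have hc : i.Coprime q := by
      rw [Nat.coprime_comm, hq.coprime_iff_not_dvd]
      exact Nat.not_dvd_of_pos_of_lt (Nat.pos_of_ne_zero hi0) hi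
    have h5 := (zp_prim m q K).associated_sub_one_pow_sub_one_of_coprime hc
    rw [hi'] at h5
    have h6 := h4.trans h5.symm.dvd
    rw [pow_two] at h6
    have hne0 : zp m q K - 1 ≠ 0 := sub_ne_zero.2 ((zp_prim m q K).ne_one hq.one_lt)
    have h7 : (zp m q K - 1) * (zp m q K - 1) ∣ (zp m q K - 1) * 1 := by rwa [mul_one]
    exact zp_not_unit (isUnit_of_dvd_one ((mul_dvd_mul_iff_left hne0).1 h7))
  · obtain ⟨z, -, hz⟩ := hωp.self_sub_one_pow_dvd_order (k := 1) hq.one_lt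
    have h5 : ω - 1 ∣ ((q : ℕ) : 𝓞 K) := ⟨z, by rw [hz]; ring⟩
    have h6 := (hd.trans h4).trans h5
    have h7 := dvd_p1 (m := m) (p := p) (K := K)
    have hcop := Nat.isCoprime_iff_coprime.2 ((Nat.coprime_primes hq hpr).2 hqp)
    obtain ⟨a, b, hab⟩ := hcop
    have h8 : zp m p K - 1 ∣ (a : 𝓞 K) * ((q : ℕ) : 𝓞 K) + (b : 𝓞 K) * ((p : ℕ) : 𝓞 K) :=
      dvd_add (h6.mul_left _) (h7.mul_left _)
    have h9 : (a : 𝓞 K) * ((q : ℕ) : 𝓞 K) + (b : 𝓞 K) * ((p : ℕ) : 𝓞 K) = 1 := by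
      have := congrArg (Int.cast : ℤ → 𝓞 K) hab
      push_cast at this
      exact this
    rw [h9] at h8
    exact zp_not_unit (isUnit_of_dvd_one h8)

end

section
variable (m : ℕ) [NeZero m] (K : Type) [Field K] [NumberField K] [IsCyclotomicExtension {m} ℚ K]

/-- the action of the element `∑ W(t) t⁻¹` of the group ring on elements -/
noncomputable def xw (W : (ZMod m)ˣ → ℕ) (x : 𝓞 K) : 𝓞 K := ∏ t : (ZMod m)ˣ, sa m K t⁻¹ x ^ W t

/-- the action of the element `∑ W(t) t⁻¹` of the group ring on ideals -/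
noncomputable def iw (W : (ZMod m)ˣ → ℕ) (I : Ideal (𝓞 K)) : Ideal (𝓞 K) :=
  ∏ t : (ZMod m)ˣ, I.map (sa m K t⁻¹) ^ W t

variable {m K} {W : (ZMod m)ˣ → ℕ}

theorem xw_mul (x y : 𝓞 K) : xw m K W (x * y) = xw m K W x * xw m K W y := by
  unfold xw
  rw [← Finset.prod_mul_distrib]
  exact Finset.prod_congr rfl fun t _ => by rw [map_mul, mul_pow]

theorem xw_one : xw m K W 1 = 1 := by
  unfold xw
  simp

theorem iw_mul (I I' : Ideal (𝓞 K)) : iw m K W (I * I') = iw m K W I * iw m K W I' := by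
  unfold iw
  rw [← Finset.prod_mul_distrib]
  exact Finset.prod_congr rfl fun t _ => by rw [Ideal.map_mul, mul_pow]

theorem iw_span (x : 𝓞 K) : iw m K W (span {x}) = span {xw m K W x} := by
  unfold iw xw
  rw [← Ideal.prod_span_singleton]
  refine Finset.prod_congr rfl fun t _ => ?_
  rw [Ideal.map_span, Set.image_singleton, Ideal.span_singleton_pow]

theorem xw_ne {x : 𝓞 K} (hx : x ≠ 0) : xw m K W x ≠ 0 :=
  Finset.prod_ne_zero_iff.2 fun _ _ => pow_ne_zero _ (sa_ne hx)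

theorem xw_norm {c : ℕ} (hW : ∀ t, W t + W (-t) = c) (x : 𝓞 K) :
    xw m K W x * sa m K (-1) (xw m K W x) = ((Algebra.norm ℤ x : ℤ) : 𝓞 K) ^ c := by
  rw [norm_prod m K x]
  unfold xw
  rw [map_prod]
  have h1 : ∏ t : (ZMod m)ˣ, sa m K (-1) (sa m K t⁻¹ x ^ W t) =
      ∏ t : (ZMod m)ˣ, sa m K t⁻¹ x ^ W (-t) := by
    refine Fintype.prod_equiv (Equiv.neg _) _ _ fun t => ?_
    rw [map_pow, ← sa_mul, Equiv.neg_apply, neg_neg, inv_neg, neg_one_mul]
  rw [h1, ← Finset.prod_mul_distrib, ← Finset.prod_pow]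
  refine Fintype.prod_equiv (Equiv.inv _) _ _ fun t => ?_
  rw [← pow_add, hW]
  rfl

variable {p : ℕ} [Fact p.Prime] [hpm : Fact (p ∣ m)]

variable (p) in
/-- the relation between an ideal and the normalised generator of its image -/
structure Rel (W : (ZMod m)ˣ → ℕ) (c : ℕ) (I : Ideal (𝓞 K)) (x : 𝓞 K) : Prop where
  sp : span {x} = iw m K W I
  nrm : x * sa m K (-1) x = ((absNorm I : ℕ) : 𝓞 K) ^ c
  cg : (zp m p K - 1) ^ 2 ∣ x - 1

variable {c : ℕ}

theorem Rel.mul {I I' : Ideal (𝓞 K)} {x x' : 𝓞 K} (h : Rel p W c I x) (h' : Rel p W c I' x') :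
    Rel p W c (I * I') (x * x') := by
  refine ⟨?_, ?_, ?_⟩
  · rw [iw_mul, ← h.sp, ← h'.sp, Ideal.span_singleton_mul_span_singleton]
  · rw [map_mul, map_mul]
    push_cast
    rw [mul_pow, ← h.nrm, ← h'.nrm]
    ring
  · have e : x * x' - 1 = (x - 1) * x' + (x' - 1) := by ring
    rw [e]
    exact dvd_add (h.cg.mul_right _) h'.cg

theorem Rel.top : Rel p W c (⊤ : Ideal (𝓞 K)) 1 := by
  refine ⟨?_, ?_, ?_⟩
  · rw [← Ideal.span_singleton_one, iw_span, xw_one]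
  · rw [map_one, Ideal.absNorm_top]
    simp
  · simp

theorem Rel.norm_sq {I : Ideal (𝓞 K)} {x : 𝓞 K} (h : Rel p W c I x) (τ : K →+* ℂ) :
    ‖τ (x : K)‖ ^ 2 = (absNorm I : ℝ) ^ c := by
  have h1 := HD.norm_sq m K τ x
  rw [h.nrm] at h1
  have h2 : τ ((((absNorm I : ℕ) : 𝓞 K) ^ c : 𝓞 K) : K) = (((absNorm I : ℝ) ^ c : ℝ) : ℂ) := by
    have : ((((absNorm I : ℕ) : 𝓞 K) ^ c : 𝓞 K) : K) = ((absNorm I : ℕ) : K) ^ c := by simp
    rw [this, map_pow, map_natCast]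
    simp
  rw [h2] at h1
  exact_mod_cast h1.symm

theorem Rel.ne {I : Ideal (𝓞 K)} {x : 𝓞 K} (h : Rel p W c I x) (hI : I ≠ ⊥) : x ≠ 0 := by
  rintro rfl
  have h1 := h.nrm
  rw [zero_mul] at h1
  have h2 : absNorm I = 0 := by
    by_cases hc : c = 0
    · rw [hc, pow_zero] at h1
      exact absurd h1 zero_ne_one
    · exact_mod_cast (pow_eq_zero_iff hc).1 h1.symm
  exact hI (absNorm_eq_zero_iff.1 h2)

theorem Rel.unique {I : Ideal (𝓞 K)} {x y : 𝓞 K} (hI : I ≠ ⊥) (h : Rel p W c I x)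
    (h' : Rel p W c I y) : x = y := by
  have hx := h.ne hI
  obtain ⟨u, hu⟩ : Associated x y :=
    Ideal.span_singleton_eq_span_singleton.1 (h.sp.trans h'.sp.symm)
  have h1 : ∀ τ : K →+* ℂ, ‖τ ((u : 𝓞 K) : K)‖ = 1 := by
    intro τ
    have e1 := h.norm_sq τ
    have e2 := h'.norm_sq τ
    have e3 : ((y : 𝓞 K) : K) = (x : K) * ((u : 𝓞 K) : K) := by rw [← hu]; simp
    rw [e3, map_mul, norm_mul, mul_pow, e1] at e2
    have h0 : (absNorm I : ℝ) ^ c ≠ 0 := by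
      have : absNorm I ≠ 0 := fun h => hI (absNorm_eq_zero_iff.1 h)
      exact pow_ne_zero _ (by exact_mod_cast this)
    have e4 : ‖τ ((u : 𝓞 K) : K)‖ ^ 2 = 1 := by
      have : (absNorm I : ℝ) ^ c * ‖τ ((u : 𝓞 K) : K)‖ ^ 2 = (absNorm I : ℝ) ^ c * 1 := by
        rw [e2, mul_one]
      exact mul_left_cancel₀ h0 this
    exact (pow_eq_one_iff_of_nonneg (norm_nonneg _) two_ne_zero).1 e4
  have h2 : (zp m p K - 1) ^ 2 ∣ (u : 𝓞 K) - 1 := by
    have e : (u : 𝓞 K) - 1 = (y - 1) - u * (x - 1) := by rw [← hu]; ring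
    rw [e]
    exact dvd_sub h'.cg (h.cg.mul_left _)
  have h3 := unit_eq_one (u : 𝓞 K) h1 h2
  rw [← hu, h3, mul_one]

theorem xw_cong {N : 𝓞 K} {α : 𝓞 K} (hN : ∀ u : (ZMod m)ˣ, sa m K u N = N)
    (h1 : N ∣ α - 1) : N ∣ xw m K W α - 1 := by
  have h3 : ∀ t : (ZMod m)ˣ, sa m K t α - 1 ∈ span {N} := by
    intro t
    rw [Ideal.mem_span_singleton]
    have h4 := map_dvd (sa m K t) h1
    rwa [hN, map_sub, map_one] at h4
  rw [← Ideal.mem_span_singleton, ← Ideal.Quotient.eq_zero_iff_mem, map_sub, map_one, sub_eq_zero]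
  unfold xw
  rw [map_prod]
  refine Finset.prod_eq_one fun t _ => ?_
  have h5 := h3 t⁻¹
  rw [← Ideal.Quotient.eq_zero_iff_mem, map_sub, map_one, sub_eq_zero] at h5
  rw [map_pow, h5, one_pow]

theorem norm_nonneg (hW : ∀ t, W t + W (-t) = 1) (α : 𝓞 K) : 0 ≤ Algebra.norm ℤ α := by
  obtain ⟨τ⟩ : Nonempty (K →+* ℂ) := inferInstance
  have h3 := HD.norm_sq m K τ (xw m K W α)
  rw [xw_norm hW, pow_one] at h3
  have h4 : τ (((Algebra.norm ℤ α : ℤ) : 𝓞 K) : K) = (((Algebra.norm ℤ α : ℤ) : ℝ) : ℂ) := by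
    have : (((Algebra.norm ℤ α : ℤ) : 𝓞 K) : K) = ((Algebra.norm ℤ α : ℤ) : K) := by simp
    rw [this, map_intCast]
    simp
  rw [h4] at h3
  have h5 : ((Algebra.norm ℤ α : ℤ) : ℝ) = ‖τ ((xw m K W α : 𝓞 K) : K)‖ ^ 2 := by
    exact_mod_cast h3
  have h6 : (0 : ℝ) ≤ ((Algebra.norm ℤ α : ℤ) : ℝ) := by rw [h5]; positivity
  exact_mod_cast h6

/-- principal ideals -/
theorem Rel.prin (hp : p ≠ 2) (hW : ∀ t, W t + W (-t) = c) {α : 𝓞 K}
    (hα : 0 ≤ Algebra.norm ℤ α) (h1 : ((p : ℕ) : 𝓞 K) ∣ α - 1) :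
    Rel p W c (span {α}) (xw m K W α) := by
  refine ⟨(iw_span α).symm, ?_, (dvd_p hp).trans (xw_cong (fun u => map_natCast _ _) h1)⟩
  rw [xw_norm hW, Ideal.absNorm_span_singleton]
  have h7 : (((Algebra.norm ℤ α).natAbs : ℕ) : 𝓞 K) =
      ((((Algebra.norm ℤ α).natAbs : ℕ) : ℤ) : 𝓞 K) := by
    simp
  rw [h7, Int.natAbs_of_nonneg hα]

/-- the Galois group permutes the normalised generators -/
theorem Rel.sa {I : Ideal (𝓞 K)} {x : 𝓞 K} (h : Rel p W c I x) (u : (ZMod m)ˣ) :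
    Rel p W c (I.map (sa m K u)) (sa m K u x) := by
  refine ⟨?_, ?_, ?_⟩
  · have h1 : (span {x}).map (HD.sa m K u) = (iw m K W I).map (HD.sa m K u) := by rw [h.sp]
    rw [Ideal.map_span, Set.image_singleton] at h1
    rw [h1]
    unfold iw
    rw [show (∏ t : (ZMod m)ˣ, I.map (HD.sa m K t⁻¹) ^ W t).map (HD.sa m K u) =
      Ideal.mapHom (HD.sa m K u) (∏ t : (ZMod m)ˣ, I.map (HD.sa m K t⁻¹) ^ W t) from rfl, map_prod]
    refine Finset.prod_congr rfl fun t _ => ?_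
    rw [map_pow]
    change (I.map (HD.sa m K t⁻¹)).map (HD.sa m K u) ^ W t =
      (I.map (HD.sa m K u)).map (HD.sa m K t⁻¹) ^ W t
    rw [map_map_sa, map_map_sa, mul_comm]
  · have h1 := congrArg (HD.sa m K u) h.nrm
    rw [map_pow, map_natCast, map_mul, ← sa_mul, mul_comm u, sa_mul] at h1
    rw [absNorm_map_sa]
    exact h1
  · have h1 := map_dvd (HD.sa m K u) h.cg
    rw [map_pow, map_sub, map_sub, map_one, sa_proot (p := p) u (zp_prim m p K).pow_eq_one] at h1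
    refine dvd_trans ?_ h1
    refine pow_dvd_pow_of_dvd ?_ 2
    simpa using sub_dvd_pow_sub_pow (zp m p K) 1 (om m p u : ZMod p).val

end

end Pool.Agent.NH35.HD
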